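import Mathlib

set_option autoImplicit false

open Finset

namespace Pool.Agent.Helper35

/-- primes in `(m, n]` -/
def prm (m n : ℕ) : Finset ℕ := (Finset.Ioc m n).filter Nat.Prime

lemma mem_prm {m n p : ℕ} : p ∈ prm m n ↔ (m < p ∧ p ≤ n) ∧ p.Prime := by
  simp [prm, mem_filter, mem_Ioc]

lemma log_factorial_eq (n : ℕ) :
    Real.log (n.factorial) = ∑ p ∈ prm 0 n, ((n.factorial).factorization p : ℝ) * Real.log p := by
  rw [Real.log_nat_eq_sum_factorization, Finsupp.sum]
  apply sum_subset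
  · intro p hp
    rw [Nat.support_factorization, Nat.mem_primeFactors] at hp
    rw [mem_prm]
    exact ⟨⟨hp.1.pos, (hp.1.dvd_factorial).1 hp.2.1⟩, hp.1⟩
  · intro p _ hp
    rw [Finsupp.notMem_support_iff] at hp
    simp [hp]

lemma fact_upper (n p : ℕ) (hp : p.Prime) :
    ((n.factorial).factorization p : ℝ) ≤ n / ((p : ℝ) - 1) := by
  haveI := Fact.mk hp
  have h := sub_one_mul_padicValNat_factorial (p := p) n
  have hp2 : 2 ≤ p := hp.two_le
  have hp1 : (1 : ℝ) < p := by exact_mod_cast hp.one_lt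
  rw [le_div_iff₀ (by linarith)]
  rw [Nat.factorization_def _ hp]
  have h2 : (p - 1) * padicValNat p n.factorial ≤ n := by rw [h]; exact Nat.sub_le _ _
  have h3 : (((p - 1 : ℕ) : ℝ)) * (padicValNat p n.factorial : ℝ) ≤ n := by exact_mod_cast h2
  rw [Nat.cast_sub (by omega)] at h3
  push_cast at h3
  linarith

lemma fact_lower (n p : ℕ) (hp : p.Prime) :
    (n : ℝ) / p - 1 ≤ ((n.factorial).factorization p : ℝ) := by
  have hb : Nat.log p n < Nat.log p n + 2 := by omega
  rw [Nat.factorization_factorial hp hb]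
  have h1 : n / p ≤ ∑ i ∈ Ico 1 (Nat.log p n + 2), n / p ^ i := by
    have := single_le_sum (f := fun i => n / p ^ i) (s := Ico 1 (Nat.log p n + 2))
      (fun i _ => Nat.zero_le _) (a := 1) (by simp)
    simpa using this
  have h2 : ((n / p : ℕ) : ℝ) ≤ ((∑ i ∈ Ico 1 (Nat.log p n + 2), n / p ^ i : ℕ) : ℝ) := by
    exact_mod_cast h1
  have hp0 : 0 < p := hp.pos
  have h3 : (n : ℝ) / p - 1 ≤ ((n / p : ℕ) : ℝ) := by
    have hp0' : (0 : ℝ) < p := by exact_mod_cast hp0
    rw [sub_le_iff_le_add, div_le_iff₀ hp0']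
    have := Nat.lt_div_mul_add hp0 (a := n)
    have h4 : (n : ℝ) ≤ ((n / p : ℕ) : ℝ) * p + p := by
      have : n ≤ n / p * p + p := by omega
      exact_mod_cast this
    linarith
  linarith

lemma sum_tail (n : ℕ) : ∑ k ∈ Finset.Ioc 1 n, Real.log k / ((k : ℝ) * ((k : ℝ) - 1)) ≤ 2 := by
  have h : ∀ n : ℕ, 1 ≤ n → ∑ k ∈ Finset.Ioc 1 n, Real.log k / ((k : ℝ) * ((k : ℝ) - 1)) ≤
      2 - (Real.log n + 2) / n := by
    intro n hn
    induction n, hn using Nat.le_induction with
    | base => simp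
    | succ n hn ih =>
      rw [Finset.sum_Ioc_succ_top (by omega)]
      have hn0 : (0 : ℝ) < n := by exact_mod_cast (by omega : 0 < n)
      have key : Real.log ((n + 1 : ℕ) : ℝ) / (((n + 1 : ℕ) : ℝ) * (((n + 1 : ℕ) : ℝ) - 1)) ≤
          (Real.log n + 2) / n - (Real.log ((n + 1 : ℕ) : ℝ) + 2) / ((n + 1 : ℕ) : ℝ) := by
        push_cast
        have h1 : (0 : ℝ) < (n : ℝ) + 1 := by linarith
        rw [show (n : ℝ) + 1 - 1 = n by ring]
        rw [div_sub_div _ _ hn0.ne' h1.ne', div_le_div_iff₀ (by positivity) (by positivity)]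
        have h2 : Real.log ((n : ℝ) + 1) - Real.log n ≤ 1 / n := by
          rw [← Real.log_div h1.ne' hn0.ne']
          have := Real.log_le_sub_one_of_pos (x := ((n : ℝ) + 1) / n) (by positivity)
          have h3 : ((n : ℝ) + 1) / n - 1 = 1 / n := by field_simp; ring
          linarith
        have h4 : (n : ℝ) * (Real.log ((n : ℝ) + 1) - Real.log n) ≤ 1 := by
          have := mul_le_mul_of_nonneg_left h2 hn0.le
          rwa [mul_one_div_cancel hn0.ne'] at this
        have h5 : Real.log ((n : ℝ) + 1) - Real.log n ≤ 1 := by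
          have : (1 : ℝ) / n ≤ 1 := by
            rw [div_le_one hn0]; exact_mod_cast hn
          linarith
        have h6 : 0 < (n : ℝ) * ((n : ℝ) + 1) := by positivity
        have h7 : Real.log ((n : ℝ) + 1) ≤
            (Real.log n + 2) * (n + 1) - n * (Real.log ((n : ℝ) + 1) + 2) := by
          nlinarith
        calc Real.log ((n : ℝ) + 1) * (n * (n + 1))
            ≤ ((Real.log n + 2) * (n + 1) - n * (Real.log ((n : ℝ) + 1) + 2)) * (n * (n + 1)) :=
              mul_le_mul_of_nonneg_right h7 h6.le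
          _ = _ := by ring
      linarith
  rcases Nat.eq_zero_or_pos n with h0 | h0
  · subst h0; simp
  · have := h n h0
    have h1 : 0 ≤ (Real.log n + 2) / n := by
      have : 0 ≤ Real.log n := Real.log_natCast_nonneg n
      positivity
    linarith

/-- Mertens, lower bound. -/
lemma mertens_lower (n : ℕ) (hn : 1 ≤ n) :
    Real.log n - 3 ≤ ∑ p ∈ prm 0 n, Real.log p / p := by
  have hn0 : (0 : ℝ) < n := by exact_mod_cast hn
  have h1 : Real.log (n.factorial) ≤ ∑ p ∈ prm 0 n, (n : ℝ) / ((p : ℝ) - 1) * Real.log p := by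
    rw [log_factorial_eq]
    apply sum_le_sum
    intro p hp
    exact mul_le_mul_of_nonneg_right (fact_upper n p (mem_prm.1 hp).2) (Real.log_natCast_nonneg p)
  have h2 : ∑ p ∈ prm 0 n, (n : ℝ) / ((p : ℝ) - 1) * Real.log p =
      n * (∑ p ∈ prm 0 n, Real.log p / p + ∑ p ∈ prm 0 n, Real.log p / ((p : ℝ) * ((p : ℝ) - 1))) := by
    rw [← sum_add_distrib, mul_sum]
    apply sum_congr rfl
    intro p hp
    have hp1 : (1 : ℝ) < p := by exact_mod_cast (mem_prm.1 hp).2.one_lt
    have : (p : ℝ) - 1 ≠ 0 := by linarith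
    field_simp
    ring
  have h3 : ∑ p ∈ prm 0 n, Real.log p / ((p : ℝ) * ((p : ℝ) - 1)) ≤ 2 := by
    refine le_trans ?_ (sum_tail n)
    apply sum_le_sum_of_subset_of_nonneg
    · intro p hp
      rw [mem_prm] at hp
      rw [mem_Ioc]
      exact ⟨hp.2.one_lt, hp.1.2⟩
    · intro k hk _
      rw [mem_Ioc] at hk
      have : (1 : ℝ) < k := by exact_mod_cast hk.1
      have h5 : 0 < (k : ℝ) * ((k : ℝ) - 1) := by
        apply mul_pos <;> linarith
      exact div_nonneg (Real.log_natCast_nonneg k) h5.le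
  have h4 : (n : ℝ) * Real.log n - n ≤ Real.log (n.factorial) := by
    have := Stirling.le_log_factorial_stirling (n := n) (by omega)
    have h5 : 0 ≤ Real.log n := Real.log_natCast_nonneg n
    have h6 : 0 ≤ Real.log (2 * Real.pi) := by
      apply Real.log_nonneg
      linarith [Real.pi_gt_three]
    linarith
  have h5 : (n : ℝ) * (Real.log n - 3) ≤ n * ∑ p ∈ prm 0 n, Real.log p / p := by
    rw [h2] at h1
    have : (n : ℝ) * ∑ p ∈ prm 0 n, Real.log p / ((p : ℝ) * ((p : ℝ) - 1)) ≤ n * 2 :=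
      mul_le_mul_of_nonneg_left h3 hn0.le
    nlinarith
  exact le_of_mul_le_mul_left h5 hn0

lemma theta_prm (n : ℕ) : ∑ p ∈ prm 0 n, Real.log p ≤ Real.log 4 * n := by
  have := Chebyshev.theta_le_log4_mul_x (x := (n : ℝ)) (by positivity)
  unfold Chebyshev.theta at this
  rw [Nat.floor_natCast] at this
  exact this

/-- Mertens, upper bound. -/
lemma mertens_upper (n : ℕ) (hn : 1 ≤ n) :
    ∑ p ∈ prm 0 n, Real.log p / p ≤ Real.log n + 2 := by
  have hn0 : (0 : ℝ) < n := by exact_mod_cast hn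
  have h1 : ∑ p ∈ prm 0 n, ((n : ℝ) / p - 1) * Real.log p ≤ Real.log (n.factorial) := by
    rw [log_factorial_eq]
    apply sum_le_sum
    intro p hp
    exact mul_le_mul_of_nonneg_right (fact_lower n p (mem_prm.1 hp).2) (Real.log_natCast_nonneg p)
  have h2 : ∑ p ∈ prm 0 n, ((n : ℝ) / p - 1) * Real.log p =
      n * ∑ p ∈ prm 0 n, Real.log p / p - ∑ p ∈ prm 0 n, Real.log p := by
    rw [mul_sum, ← sum_sub_distrib]
    apply sum_congr rfl
    intro p hp
    ring
  have h3 := theta_prm n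
  have h4 : Real.log (n.factorial) ≤ n * Real.log n := by
    rw [← Real.log_pow]
    apply Real.log_le_log (by exact_mod_cast Nat.factorial_pos n)
    exact_mod_cast Nat.factorial_le_pow n
  have h5 : Real.log 4 ≤ 2 := by
    have : Real.log 4 = 2 * Real.log 2 := by
      rw [show (4 : ℝ) = 2 ^ 2 by norm_num, Real.log_pow]; norm_num
    rw [this]; linarith [Real.log_two_lt_d9]
  have h6 : (n : ℝ) * ∑ p ∈ prm 0 n, Real.log p / p ≤ n * (Real.log n + 2) := by
    rw [h2] at h1
    nlinarith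
  exact le_of_mul_le_mul_left h6 hn0

lemma prm_sum_sub (f : ℕ → ℝ) {m n : ℕ} (h : m ≤ n) :
    ∑ p ∈ prm m n, f p = ∑ p ∈ prm 0 n, f p - ∑ p ∈ prm 0 m, f p := by
  have hd : Disjoint (prm 0 m) (prm m n) := by
    rw [disjoint_left]
    intro p h1 h2
    rw [mem_prm] at h1 h2
    omega
  have hu : prm 0 n = prm 0 m ∪ prm m n := by
    ext p
    simp only [mem_union, mem_prm]
    constructor
    · rintro ⟨⟨h1, h2⟩, h3⟩
      rcases le_or_gt p m with h4 | h4
      · left; exact ⟨⟨h1, h4⟩, h3⟩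
      · right; exact ⟨⟨h4, h2⟩, h3⟩
    · rintro (⟨⟨h1, h2⟩, h3⟩ | ⟨⟨h1, h2⟩, h3⟩)
      · exact ⟨⟨h1, h2.trans h⟩, h3⟩
      · exact ⟨⟨by omega, h2⟩, h3⟩
  rw [hu, sum_union hd]
  ring

/-- Lower bound for reciprocal sums. -/
lemma recip_lower {m n : ℕ} (hm : 1 ≤ m) (hmn : m ≤ n) (hn : 2 ≤ n) :
    (Real.log n - Real.log m - 5) / Real.log n ≤ ∑ p ∈ prm m n, 1 / (p : ℝ) := by
  have hlog : 0 < Real.log n := Real.log_pos (by exact_mod_cast (by omega : 1 < n))
  rw [div_le_iff₀ hlog, sum_mul]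
  have h1 : ∑ p ∈ prm m n, Real.log p / p ≤ ∑ p ∈ prm m n, 1 / (p : ℝ) * Real.log n := by
    apply sum_le_sum
    intro p hp
    rw [mem_prm] at hp
    have hp0 : (0 : ℝ) < p := by exact_mod_cast hp.2.pos
    have : Real.log p ≤ Real.log n := Real.log_le_log hp0 (by exact_mod_cast hp.1.2)
    rw [div_eq_mul_one_div, mul_comm]
    exact mul_le_mul_of_nonneg_left this (by positivity)
  have h2 := prm_sum_sub (fun p => Real.log p / p) hmn
  have h3 := mertens_lower n (by omega)
  have h4 := mertens_upper m hm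
  linarith

/-- Upper bound for reciprocal sums. -/
lemma recip_upper {m n : ℕ} (hm : 2 ≤ m) (hmn : m ≤ n) :
    ∑ p ∈ prm m n, 1 / (p : ℝ) ≤ (Real.log n - Real.log m + 5) / Real.log m := by
  have hlog : 0 < Real.log m := Real.log_pos (by exact_mod_cast (by omega : 1 < m))
  rw [le_div_iff₀ hlog, sum_mul]
  have h1 : ∑ p ∈ prm m n, 1 / (p : ℝ) * Real.log m ≤ ∑ p ∈ prm m n, Real.log p / p := by
    apply sum_le_sum
    intro p hp
    rw [mem_prm] at hp
    have hm0 : (0 : ℝ) < m := by exact_mod_cast (by omega : 0 < m)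
    have : Real.log m ≤ Real.log p := Real.log_le_log hm0 (by exact_mod_cast hp.1.1.le)
    rw [div_eq_mul_one_div (Real.log p), mul_comm (Real.log p)]
    exact mul_le_mul_of_nonneg_left this (by positivity)
  have h2 := prm_sum_sub (fun p => Real.log p / p) hmn
  have h3 := mertens_lower m (by omega)
  have h4 := mertens_upper n (by omega)
  linarith

/-- primes in a short logarithmic interval -/
lemma short_sum (F : Finset ℕ) (hF : ∀ p ∈ F, p.Prime) (y : ℝ) (hy : 1 < y)
    (hFy : ∀ p ∈ F, y ≤ p) (h : ∀ p ∈ F, ∀ q ∈ F, Real.log q ≤ Real.log p + 1) :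
    ∑ p ∈ F, 1 / (p : ℝ) ≤ 4 / Real.log y := by
  have hlogy : 0 < Real.log y := Real.log_pos hy
  rcases F.eq_empty_or_nonempty with h0 | h0
  · subst h0; simp; positivity
  · set z := F.min' h0 with hz
    have hzF : z ∈ F := F.min'_mem h0
    have hz0 : (0 : ℝ) < z := by exact_mod_cast (hF z hzF).pos
    set n := ⌊Real.exp 1 * z⌋₊ with hn
    have hsub : F ⊆ prm 0 n := by
      intro p hp
      rw [mem_prm]
      refine ⟨⟨(hF p hp).pos, ?_⟩, hF p hp⟩
      rw [hn, Nat.le_floor_iff (by positivity)]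
      have hp0 : (0 : ℝ) < p := by exact_mod_cast (hF p hp).pos
      have h1 := h z hzF p hp
      rw [← Real.log_le_log_iff hp0 (by positivity), Real.log_mul (Real.exp_ne_zero _) hz0.ne',
        Real.log_exp]
      linarith
    have h1 : ∑ p ∈ F, 1 / (p : ℝ) ≤ ∑ p ∈ F, Real.log p * (1 / (z * Real.log y)) := by
      apply sum_le_sum
      intro p hp
      have hp0 : (0 : ℝ) < p := by exact_mod_cast (hF p hp).pos
      have hzp : (z : ℝ) ≤ p := by exact_mod_cast F.min'_le p hp
      have hyp : Real.log y ≤ Real.log p := Real.log_le_log (by linarith) (hFy p hp)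
      rw [mul_one_div, div_le_div_iff₀ hp0 (by positivity)]
      calc 1 * (z * Real.log y) = z * Real.log y := one_mul _
        _ ≤ p * Real.log p := mul_le_mul hzp hyp hlogy.le hp0.le
        _ = Real.log p * p := mul_comm _ _
    have h2 : ∑ p ∈ F, Real.log p ≤ ∑ p ∈ prm 0 n, Real.log p :=
      sum_le_sum_of_subset_of_nonneg hsub fun p _ _ => Real.log_natCast_nonneg p
    have h3 := theta_prm n
    have h4 : (n : ℝ) ≤ Real.exp 1 * z := Nat.floor_le (by positivity)
    have h5 : Real.log 4 ≤ 1.387 := by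
      have : Real.log 4 = 2 * Real.log 2 := by
        rw [show (4 : ℝ) = 2 ^ 2 by norm_num, Real.log_pow]; norm_num
      rw [this]; linarith [Real.log_two_lt_d9]
    have h40 : 0 ≤ Real.log 4 := Real.log_nonneg (by norm_num)
    have h6 : Real.log 4 * n ≤ 4 * z := by
      calc Real.log 4 * n ≤ 1.387 * (2.7182818286 * z) := by
            apply mul_le_mul h5 _ (by positivity) (by norm_num)
            refine h4.trans ?_
            exact mul_le_mul_of_nonneg_right Real.exp_one_lt_d9.le hz0.le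
        _ ≤ 4 * z := by nlinarith
    rw [← sum_mul] at h1
    calc ∑ p ∈ F, 1 / (p : ℝ) ≤ (∑ p ∈ F, Real.log p) * (1 / (z * Real.log y)) := h1
      _ ≤ (4 * z) * (1 / (z * Real.log y)) := by
          apply mul_le_mul_of_nonneg_right _ (by positivity)
          linarith
      _ = 4 / Real.log y := by
          field_simp

end Pool.Agent.Helper35
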