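import Pool.Agent.Helper43.LL.Pre

/-!
# Levy-Lieb functional, task A2 (and A5): products and finite sums in `H¹`
-/

open MeasureTheory Filter Topology
open scoped ENNReal

noncomputable section

namespace Pool.Agent.Helper35.LL

open Pool.Agent.Helper1.LL

/-- A2. Product with a bounded `C¹` function with bounded derivative. -/
theorem IsH1.mul_C1 {d : ℕ} {u : Sp d → ℂ} {G : Fin d → Sp d → ℂ} (h : IsH1 u G)
    (ψ : Sp d → ℂ) (hψ : ContDiff ℝ 1 ψ) (K : ℝ) (hK : ∀ x, ‖ψ x‖ ≤ K)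
    (hK' : ∀ x, ‖fderiv ℝ ψ x‖ ≤ K) :
    IsH1 (fun x => ψ x * u x) (fun a x => ψ x * G a x + fderiv ℝ ψ x (eb a) * u x) :=
  Pool.Agent.Helper3.LL.mul_C1 h ψ hψ K hK hK'

/-- A2'. Real version. -/
theorem IsH1.mul_C1_real {d : ℕ} {u : Sp d → ℝ} {G : Fin d → Sp d → ℝ} (h : IsH1 u G)
    (ψ : Sp d → ℝ) (hψ : ContDiff ℝ 1 ψ) (K : ℝ) (hK : ∀ x, ‖ψ x‖ ≤ K)
    (hK' : ∀ x, ‖fderiv ℝ ψ x‖ ≤ K) :
    IsH1 (fun x => ψ x * u x) (fun a x => ψ x * G a x + fderiv ℝ ψ x (eb a) * u x) :=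
  Pool.Agent.Helper43.LL.Inp.IsH1.mul_C1_real h ψ hψ K hK hK'

/-- A4. -/
theorem IsH1.ofReal {d : ℕ} {u : Sp d → ℝ} {G : Fin d → Sp d → ℝ} (h : IsH1 u G) :
    IsH1 (fun x => (u x : ℂ)) (fun a x => (G a x : ℂ)) :=
  Pool.Agent.Helper3.LL.ofReal' h

/-- the zero function -/
theorem IsH1.zero {d : ℕ} : IsH1 (fun _ : Sp d => (0 : ℂ)) (fun _ _ => 0) := by
  refine ⟨MemLp.zero', fun a => MemLp.zero', fun a χ hχ hχs => ?_⟩
  simp

theorem integrable_test_mul {E : Type*} [NormedAddCommGroup E] [NormedSpace ℝ E]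
    [MeasurableSpace E] [BorelSpace E] [FiniteDimensional ℝ E]
    {μ : Measure E} [IsFiniteMeasureOnCompacts μ] {χ : E → ℝ} (hχ : Continuous χ)
    (hχs : HasCompactSupport χ) {u : E → ℂ} (hu : MemLp u 2 μ) :
    Integrable (fun x => χ x • u x) μ := by
  have h1 : MemLp χ 2 μ := hχ.memLp_of_hasCompactSupport hχs
  have h2 : MemLp (fun x => χ x • u x) 1 μ := hu.smul h1
  exact memLp_one_iff_integrable.mp h2

theorem IsH1.add_const_mul {d : ℕ} {u w : Sp d → ℂ} {G H : Fin d → Sp d → ℂ} (c : ℂ)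
    (h : IsH1 u G) (h' : IsH1 w H) :
    IsH1 (fun x => c * u x + w x) (fun a x => c * G a x + H a x) := by
  refine ⟨(h.memLp.const_mul c).add h'.memLp,
    fun a => ((h.memLp_grad a).const_mul c).add (h'.memLp_grad a), fun a χ hχ hχs => ?_⟩
  have h1 := h.weak a χ hχ hχs
  have h2 := h'.weak a χ hχ hχs
  have hχc : Continuous χ := hχ.continuous
  have hχd : Continuous fun x => fderiv ℝ χ x (eb a) :=
    (hχ.continuous_fderiv (by simp)).clm_apply continuous_const
  have hds : HasCompactSupport fun x => fderiv ℝ χ x (eb a) := hχs.fderiv_apply ℝ (eb a)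
  have e1 : ∀ x, (fderiv ℝ χ x (eb a)) • (c * u x + w x)
      = c * ((fderiv ℝ χ x (eb a)) • u x) + (fderiv ℝ χ x (eb a)) • w x := fun x => by
    simp only [Complex.real_smul]; ring
  have e2 : ∀ x, χ x • (c * G a x + H a x)
      = c * (χ x • G a x) + χ x • H a x := fun x => by
    simp only [Complex.real_smul]; ring
  simp only [e1, e2]
  rw [integral_add ((integrable_test_mul hχd hds h.memLp).const_mul c)
      (integrable_test_mul hχd hds h'.memLp),
    integral_add ((integrable_test_mul hχc hχs (h.memLp_grad a)).const_mul c)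
      (integrable_test_mul hχc hχs (h'.memLp_grad a)), integral_const_mul, integral_const_mul,
    h1, h2]
  ring

/-- A5. Finite linear combinations. -/
theorem IsH1.sum {d : ℕ} {ι : Type*} (s : Finset ι) (c : ι → ℂ) {u : ι → Sp d → ℂ}
    {G : ι → Fin d → Sp d → ℂ} (h : ∀ i ∈ s, IsH1 (u i) (G i)) :
    IsH1 (fun x => ∑ i ∈ s, c i * u i x) (fun a x => ∑ i ∈ s, c i * G i a x) := by
  classical
  induction s using Finset.induction_on with
  | empty => simpa using IsH1.zero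
  | insert i s hi ih =>
    simp only [Finset.sum_insert hi]
    exact IsH1.add_const_mul (c i) (h i (Finset.mem_insert_self i s))
      (ih fun j hj => h j (Finset.mem_insert_of_mem hj))

end Pool.Agent.Helper35.LL
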