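import Pool.Agent.Helper59.LL_D

/-!
# Levy-Lieb functional, task E: weak derivative of a Slater determinant
-/

open MeasureTheory Filter Topology
open scoped ENNReal

noncomputable section

namespace Pool.Agent.Helper35.LL

open Pool.Agent.Helper1.LL Pool.Agent.Helper59.LL

theorem integrable_test_mul' {E : Type*} [NormedAddCommGroup E] [NormedSpace ℝ E]
    [MeasureSpace E] [BorelSpace E] [FiniteDimensional ℝ E]
    [IsFiniteMeasureOnCompacts (volume : Measure E)] {χ : E → ℝ} (hχ : Continuous χ)
    (hχs : HasCompactSupport χ) {u : E → ℂ} (hu : MemLp u 2 volume) :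
    Integrable (fun x => χ x • u x) volume := by
  have h1 : MemLp χ 2 volume := hχ.memLp_of_hasCompactSupport hχs
  have h2 : MemLp (fun x => χ x • u x) 1 volume := hu.smul h1
  exact memLp_one_iff_integrable.mp h2

/-- the affine embedding of the `i`-th particle space -/
theorem hasFDerivAt_insertNth {d n : ℕ} (i : Fin (n + 1)) (y : Fin n → Sp d) (t : Sp d) :
    HasFDerivAt (fun s : Sp d => (i.insertNth s y : Fin (n + 1) → Sp d))
      (ContinuousLinearMap.single ℝ (fun _ : Fin (n + 1) => Sp d) i) t := by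
  rw [hasFDerivAt_pi']
  intro j
  refine Fin.succAboveCases i ?_ ?_ j
  · have : (fun s : Sp d => (i.insertNth s y : Fin (n + 1) → Sp d) i) = fun s => s := by
      funext s; simp
    rw [this]
    refine (hasFDerivAt_id t).congr_fderiv ?_
    ext v
    simp
  · intro k
    have : (fun s : Sp d => (i.insertNth s y : Fin (n + 1) → Sp d) (i.succAbove k))
        = fun s => y k := by
      funext s; simp
    rw [this]
    refine (hasFDerivAt_const (y k) t).congr_fderiv ?_
    ext v
    simp [Fin.succAbove_ne]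

/-- weak derivative of a product in one coordinate -/
theorem prod_weak {d n : ℕ} (u : Fin (n + 1) → Sp d → ℂ) (hu : ∀ j, MemLp (u j) 2 volume)
    (i : Fin (n + 1)) (g : Sp d → ℂ) (hg : MemLp g 2 volume) (a : Fin d)
    (hw : IsWeakDeriv (u i) g (eb a))
    (χ : (Fin (n + 1) → Sp d) → ℝ) (hχ : ContDiff ℝ (⊤ : ℕ∞) χ) (hχs : HasCompactSupport χ) :
    ∫ x, (fderiv ℝ χ x (Pi.single i (eb a))) • ∏ j, u j (x j)
      = - ∫ x, χ x • ∏ j, (if j = i then g else u j) (x j) := by
  have hχc : Continuous χ := hχ.continuous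
  have hχd : Continuous fun x => fderiv ℝ χ x (Pi.single i (eb a)) :=
    (hχ.continuous_fderiv (by simp)).clm_apply continuous_const
  have hds : HasCompactSupport fun x => fderiv ℝ χ x (Pi.single i (eb a)) :=
    hχs.fderiv_apply ℝ _
  have m1 : MemLp (fun x : Fin (n + 1) → Sp d => ∏ j, u j (x j)) 2 volume :=
    memLp_prodFun u hu
  have m2 : MemLp (fun x : Fin (n + 1) → Sp d => ∏ j, (if j = i then g else u j) (x j))
      2 volume := by
    refine memLp_prodFun (fun j : Fin (n + 1) => if j = i then g else u j) (fun j => ?_)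
    by_cases hj : j = i <;> simp only [hj, if_true, if_false]
    · exact hg
    · exact hu j
  have i1 := integrable_test_mul' hχd hds m1
  have i2 := integrable_test_mul' hχc hχs m2
  have mps := (volume_preserving_piFinSuccAbove (fun _ : Fin (n + 1) => Sp d) i).symm
  have emb := (MeasurableEquiv.piFinSuccAbove (fun _ : Fin (n + 1) => Sp d) i).symm.measurableEmbedding
  have j1 := (mps.integrable_comp_emb emb).2 i1
  have j2 := (mps.integrable_comp_emb emb).2 i2
  rw [← mps.integral_comp emb, ← mps.integral_comp emb]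
  rw [Measure.volume_eq_prod] at *
  simp only [Function.comp_def] at j1 j2
  rw [integral_prod_symm _ j1, integral_prod_symm _ j2, ← integral_neg]
  refine integral_congr_ae (Eventually.of_forall fun y => ?_)
  have e0 : ∀ t : Sp d, (MeasurableEquiv.piFinSuccAbove (fun _ : Fin (n + 1) => Sp d) i).symm (t, y)
      = (i.insertNth t y : Fin (n + 1) → Sp d) := fun t => rfl
  simp only [e0]
  -- products
  have p1 : ∀ t : Sp d, ∏ j, u j ((i.insertNth t y : Fin (n + 1) → Sp d) j)
      = u i t * ∏ k, u (i.succAbove k) (y k) := fun t => by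
    rw [Fin.prod_univ_succAbove _ i]
    simp
  have p2 : ∀ t : Sp d, ∏ j, (if j = i then g else u j) ((i.insertNth t y : Fin (n + 1) → Sp d) j)
      = g t * ∏ k, u (i.succAbove k) (y k) := fun t => by
    rw [Fin.prod_univ_succAbove _ i]
    simp [Fin.succAbove_ne]
  simp only [p1, p2]
  -- the slice of the test function
  set χ' : Sp d → ℝ := fun t => χ (i.insertNth t y : Fin (n + 1) → Sp d) with hχ'
  have hins : ContDiff ℝ (⊤ : ℕ∞) (fun t : Sp d => (i.insertNth t y : Fin (n + 1) → Sp d)) := by
    rw [contDiff_pi]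
    intro j
    refine Fin.succAboveCases i ?_ ?_ j
    · simp only [Fin.insertNth_apply_same]
      exact contDiff_id
    · intro k
      simpa using contDiff_const
  have hχ'1 : ContDiff ℝ (⊤ : ℕ∞) χ' := hχ.comp hins
  have hclosed : Topology.IsClosedEmbedding
      (fun t : Sp d => (i.insertNth t y : Fin (n + 1) → Sp d)) := by
    refine Function.LeftInverse.isClosedEmbedding
      (f := fun x : Fin (n + 1) → Sp d => x i) (fun t => ?_) (continuous_apply i) hins.continuous
    simp
  have hχ's : HasCompactSupport χ' := hχs.comp_isClosedEmbedding hclosed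
  have hfd : ∀ t : Sp d, fderiv ℝ χ' t (eb a)
      = fderiv ℝ χ (i.insertNth t y : Fin (n + 1) → Sp d) (Pi.single i (eb a)) := fun t => by
    have h1 : HasFDerivAt χ' ((fderiv ℝ χ (i.insertNth t y : Fin (n + 1) → Sp d)).comp
        (ContinuousLinearMap.single ℝ (fun _ : Fin (n + 1) => Sp d) i)) t :=
      (hχ.differentiable (by simp) _).hasFDerivAt.comp t (hasFDerivAt_insertNth i y t)
    rw [h1.fderiv]
    simp
  have key := hw χ' hχ'1 hχ's
  simp only [hfd] at key
  have c1 : ∀ t : Sp d, (fderiv ℝ χ (i.insertNth t y : Fin (n + 1) → Sp d) (Pi.single i (eb a))) •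
      (u i t * ∏ k, u (i.succAbove k) (y k))
      = ((fderiv ℝ χ (i.insertNth t y : Fin (n + 1) → Sp d) (Pi.single i (eb a))) • u i t)
        * ∏ k, u (i.succAbove k) (y k) := fun t => by
    rw [smul_mul_assoc]
  have c2 : ∀ t : Sp d, χ (i.insertNth t y : Fin (n + 1) → Sp d) •
      (g t * ∏ k, u (i.succAbove k) (y k))
      = (χ' t • g t) * ∏ k, u (i.succAbove k) (y k) := fun t => by
    rw [smul_mul_assoc]
  simp only [c1, c2]
  rw [integral_mul_const, integral_mul_const, key, neg_mul]

/-- TASK E. Weak derivative of a Slater determinant. -/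
theorem slater_isWeakDeriv {d N : ℕ} (φ : Fin N → Sp d → ℂ) (Dφ : Fin N → Fin d → Sp d → ℂ)
    (h : ∀ k, IsH1 (φ k) (Dφ k)) (i : Fin N) (a : Fin d) :
    IsWeakDeriv (slater φ) (slaterGrad φ (fun k => Dφ k a) i) (Pi.single i (eb a)) := by
  obtain ⟨n, rfl⟩ : ∃ n, N = n + 1 := ⟨N - 1, by have := i.2; omega⟩
  intro χ hχ hχs
  have hχc : Continuous χ := hχ.continuous
  have hχd : Continuous fun x => fderiv ℝ χ x (Pi.single i (eb a)) :=
    (hχ.continuous_fderiv (by simp)).clm_apply continuous_const
  have hds : HasCompactSupport fun x => fderiv ℝ χ x (Pi.single i (eb a)) :=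
    hχs.fderiv_apply ℝ _
  set c : ℂ := ((Real.sqrt ((n + 1).factorial : ℝ) : ℝ) : ℂ)⁻¹ with hc
  have e1 : ∀ x, (fderiv ℝ χ x (Pi.single i (eb a))) • slater φ x
      = ∑ σ : Equiv.Perm (Fin (n + 1)), (c * ((Equiv.Perm.sign σ : ℤ) : ℂ)) *
        ((fderiv ℝ χ x (Pi.single i (eb a))) • ∏ j, φ (σ j) (x j)) := fun x => by
    rw [slater, Matrix.det_apply', Finset.mul_sum, Finset.smul_sum]
    refine Finset.sum_congr rfl fun σ _ => ?_
    simp only [Matrix.of_apply, Complex.real_smul]
    ring
  have e2 : ∀ x, χ x • slaterGrad φ (fun k => Dφ k a) i x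
      = ∑ σ : Equiv.Perm (Fin (n + 1)), (c * ((Equiv.Perm.sign σ : ℤ) : ℂ)) *
        (χ x • ∏ j, (if j = i then Dφ (σ i) a else φ (σ j)) (x j)) := fun x => by
    rw [slaterGrad, Matrix.det_apply', Finset.mul_sum, Finset.smul_sum]
    refine Finset.sum_congr rfl fun σ _ => ?_
    have : ∏ j, (if j = i then Dφ (σ i) a else φ (σ j)) (x j)
        = ∏ j, (Matrix.of fun k j => if j = i then Dφ k a (x j) else φ k (x j)) (σ j) j := by
      refine Finset.prod_congr rfl fun j _ => ?_
      by_cases hj : j = i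
      · subst hj; simp
      · simp [hj]
    rw [this]
    simp only [Complex.real_smul]
    ring
  have m1 : ∀ σ : Equiv.Perm (Fin (n + 1)),
      MemLp (fun x : Fin (n + 1) → Sp d => ∏ j, φ (σ j) (x j)) 2 volume := fun σ =>
    memLp_prodFun (fun j => φ (σ j)) fun j => (h (σ j)).memLp
  have m2 : ∀ σ : Equiv.Perm (Fin (n + 1)), MemLp (fun x : Fin (n + 1) → Sp d =>
      ∏ j, (if j = i then Dφ (σ i) a else φ (σ j)) (x j)) 2 volume := fun σ => by
    refine memLp_prodFun (fun j : Fin (n + 1) => if j = i then Dφ (σ i) a else φ (σ j))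
      (fun j => ?_)
    by_cases hj : j = i <;> simp only [hj, if_true, if_false]
    · exact (h (σ i)).memLp_grad a
    · exact (h (σ j)).memLp
  simp only [e1, e2]
  rw [integral_finsetSum _ fun σ _ => (integrable_test_mul' hχd hds (m1 σ)).const_mul _,
    integral_finsetSum _ fun σ _ => (integrable_test_mul' hχc hχs (m2 σ)).const_mul _,
    ← Finset.sum_neg_distrib]
  refine Finset.sum_congr rfl fun σ _ => ?_
  rw [integral_const_mul, integral_const_mul,
    prod_weak (fun j => φ (σ j)) (fun j => (h (σ j)).memLp) i (Dφ (σ i) a)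
      ((h (σ i)).memLp_grad a) a ((h (σ i)).weak a) χ hχ hχs]
  ring

end Pool.Agent.Helper35.LL
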