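import Mathlib

set_option autoImplicit false

open Finset

namespace Pool.Agent.Helper35

/-- mass of the finite set of primes `S` inside the window `P`. -/
noncomputable def wt (P S : Finset ℕ) : ℝ :=
  (∏ p ∈ P, (1 - 1 / (p : ℝ))) * ∏ p ∈ S, (1 / (p : ℝ))

/-- expectation over subsets of the window `P` (natural density of exact divisibility). -/
noncomputable def EP (P : Finset ℕ) (f : Finset ℕ → ℝ) : ℝ :=
  ∑ S ∈ P.powerset, wt P S * f S

lemma one_sub_inv_nonneg (p : ℕ) : 0 ≤ 1 - 1 / (p : ℝ) := by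
  rcases Nat.eq_zero_or_pos p with h | h
  · subst h; simp
  · have : (1 : ℝ) ≤ p := by exact_mod_cast h
    rw [sub_nonneg, div_le_one (by positivity)]
    exact this

lemma wt_nonneg (P S : Finset ℕ) : 0 ≤ wt P S := by
  unfold wt
  apply mul_nonneg
  · exact prod_nonneg fun p _ => one_sub_inv_nonneg p
  · exact prod_nonneg fun p _ => by positivity

lemma EP_mono {P : Finset ℕ} {f g : Finset ℕ → ℝ} (h : ∀ S, S ⊆ P → f S ≤ g S) :
    EP P f ≤ EP P g := by
  unfold EP
  apply sum_le_sum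
  intro S hS
  exact mul_le_mul_of_nonneg_left (h S (mem_powerset.1 hS)) (wt_nonneg _ _)

lemma EP_congr {P : Finset ℕ} {f g : Finset ℕ → ℝ} (h : ∀ S, S ⊆ P → f S = g S) :
    EP P f = EP P g := by
  unfold EP
  apply sum_congr rfl
  intro S hS
  rw [h S (mem_powerset.1 hS)]

lemma EP_nonneg {P : Finset ℕ} {f : Finset ℕ → ℝ} (h : ∀ S, S ⊆ P → 0 ≤ f S) :
    0 ≤ EP P f := by
  unfold EP
  apply sum_nonneg
  intro S hS
  exact mul_nonneg (wt_nonneg _ _) (h S (mem_powerset.1 hS))

lemma EP_add (P : Finset ℕ) (f g : Finset ℕ → ℝ) :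
    EP P (fun S => f S + g S) = EP P f + EP P g := by
  unfold EP
  rw [← sum_add_distrib]
  exact sum_congr rfl fun S _ => by ring

lemma EP_sub (P : Finset ℕ) (f g : Finset ℕ → ℝ) :
    EP P (fun S => f S - g S) = EP P f - EP P g := by
  unfold EP
  rw [← sum_sub_distrib]
  exact sum_congr rfl fun S _ => by ring

lemma EP_mul_left (P : Finset ℕ) (c : ℝ) (f : Finset ℕ → ℝ) :
    EP P (fun S => c * f S) = c * EP P f := by
  unfold EP
  rw [mul_sum]
  exact sum_congr rfl fun S _ => by ring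

lemma EP_mul_right (P : Finset ℕ) (c : ℝ) (f : Finset ℕ → ℝ) :
    EP P (fun S => f S * c) = EP P f * c := by
  unfold EP
  rw [sum_mul]
  exact sum_congr rfl fun S _ => by ring

lemma EP_sum {ι : Type*} (P : Finset ℕ) (s : Finset ι) (f : ι → Finset ℕ → ℝ) :
    EP P (fun S => ∑ i ∈ s, f i S) = ∑ i ∈ s, EP P (f i) := by
  unfold EP
  rw [sum_comm]
  exact sum_congr rfl fun S _ => by rw [mul_sum]

lemma EP_const (P : Finset ℕ) (c : ℝ) : EP P (fun _ => c) = c * EP P (fun _ => 1) := by
  rw [← EP_mul_left]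
  simp

lemma EP_empty (f : Finset ℕ → ℝ) : EP ∅ f = f ∅ := by
  simp [EP, wt]

lemma EP_insert {p : ℕ} {P : Finset ℕ} (hp : p ∉ P) (f : Finset ℕ → ℝ) :
    EP (insert p P) f =
      (1 - 1 / (p : ℝ)) * (EP P f + 1 / (p : ℝ) * EP P (fun S => f (insert p S))) := by
  unfold EP
  rw [sum_powerset_insert hp, mul_add, mul_sum, mul_sum, mul_sum]
  congr 1
  · apply sum_congr rfl
    intro S _
    unfold wt
    rw [prod_insert hp]
    ring
  · apply sum_congr rfl
    intro S hS
    have hpS : p ∉ S := fun h => hp (mem_powerset.1 hS h)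
    unfold wt
    rw [prod_insert hp, prod_insert hpS]
    ring

lemma EP_union {P Q : Finset ℕ} (h : Disjoint P Q) (f : Finset ℕ → ℝ) :
    EP (P ∪ Q) f = EP P (fun S => EP Q (fun T => f (S ∪ T))) := by
  induction P using Finset.induction_on generalizing f with
  | empty => simp [EP_empty]
  | insert p P hp ih =>
    have hd : Disjoint P Q := by
      rw [disjoint_insert_left] at h; exact h.2
    have hpQ : p ∉ P ∪ Q := by
      rw [disjoint_insert_left] at h
      simp [hp, h.1]
    rw [insert_union, EP_insert hpQ, EP_insert hp, ih hd, ih hd]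
    simp only [insert_union]

lemma EP_one_eq (P : Finset ℕ) : EP P (fun _ => 1) = ∏ p ∈ P, (1 - 1 / (p : ℝ) ^ 2) := by
  induction P using Finset.induction_on with
  | empty => simp [EP_empty]
  | insert p P hp ih =>
    rw [EP_insert hp, prod_insert hp, ih]
    have : (1 - 1 / (p : ℝ) ^ 2) = (1 - 1 / (p : ℝ)) * (1 + 1 / (p : ℝ)) := by
      ring
    rw [this]
    ring

lemma EP_one_le (P : Finset ℕ) : EP P (fun _ => 1) ≤ 1 := by
  rw [EP_one_eq]
  apply prod_le_one
  · intro p _
    have : (1 - 1 / (p : ℝ) ^ 2) = (1 - 1 / (p : ℝ)) * (1 + 1 / (p : ℝ)) := by ring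
    rw [this]
    exact mul_nonneg (one_sub_inv_nonneg p) (by positivity)
  · intro p _
    have : 0 ≤ 1 / (p : ℝ) ^ 2 := by positivity
    linarith

lemma one_sub_sum_le_prod {ι : Type*} (s : Finset ι) (a : ι → ℝ) (h0 : ∀ i ∈ s, 0 ≤ a i)
    (h1 : ∀ i ∈ s, a i ≤ 1) : 1 - ∑ i ∈ s, a i ≤ ∏ i ∈ s, (1 - a i) := by
  classical
  induction s using Finset.induction_on with
  | empty => simp
  | insert i s hi ih =>
    rw [sum_insert hi, prod_insert hi]
    have ih' := ih (fun j hj => h0 j (mem_insert_of_mem hj)) (fun j hj => h1 j (mem_insert_of_mem hj))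
    have hi0 := h0 i (mem_insert_self _ _)
    have hi1 := h1 i (mem_insert_self _ _)
    have hs : 0 ≤ ∑ j ∈ s, a j := sum_nonneg fun j hj => h0 j (mem_insert_of_mem hj)
    have hp : ∏ j ∈ s, (1 - a j) ≤ 1 := prod_le_one
      (fun j hj => by linarith [h1 j (mem_insert_of_mem hj)])
      (fun j hj => by linarith [h0 j (mem_insert_of_mem hj)])
    nlinarith

lemma sum_inv_sq_le (P : Finset ℕ) (w : ℕ) (hw : 1 ≤ w) (hP : ∀ p ∈ P, w < p) :
    ∑ p ∈ P, 1 / (p : ℝ) ^ 2 ≤ 1 / (w : ℝ) := by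
  -- telescoping: 1/p^2 ≤ 1/(p-1) - 1/p
  set M := P.sup id + 1 with hM
  have hsub : P ⊆ Finset.Ico (w + 1) M := by
    intro p hp
    rw [mem_Ico]
    refine ⟨hP p hp, ?_⟩
    have : p ≤ P.sup id := le_sup (f := id) hp
    omega
  have h1 : ∑ p ∈ P, 1 / (p : ℝ) ^ 2 ≤ ∑ p ∈ Finset.Ico (w + 1) M, 1 / (p : ℝ) ^ 2 :=
    sum_le_sum_of_subset_of_nonneg hsub fun _ _ _ => by positivity
  have h2 : ∀ M : ℕ, w + 1 ≤ M → ∑ p ∈ Finset.Ico (w + 1) M, 1 / (p : ℝ) ^ 2 ≤
      1 / (w : ℝ) - 1 / ((M : ℝ) - 1) := by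
    intro M hM
    induction M, hM using Nat.le_induction with
    | base => simp
    | succ n hn ih =>
      rw [sum_Ico_succ_top hn]
      have hwn : (w : ℝ) + 1 ≤ n := by exact_mod_cast hn
      have hw' : (1 : ℝ) ≤ w := by exact_mod_cast hw
      have hn1 : (0 : ℝ) < (n : ℝ) - 1 := by linarith
      have hn0 : (0 : ℝ) < (n : ℝ) := by linarith
      have : 1 / (n : ℝ) ^ 2 ≤ 1 / ((n : ℝ) - 1) - 1 / (((n + 1 : ℕ) : ℝ) - 1) := by
        push_cast
        rw [show (n : ℝ) + 1 - 1 = n by ring, div_sub_div _ _ hn1.ne' hn0.ne',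
          div_le_div_iff₀ (by positivity) (by positivity)]
        nlinarith
      linarith
  rcases le_or_gt (w + 1) M with h | h
  · have hw' : (1 : ℝ) ≤ w := by exact_mod_cast hw
    have hMr : (w : ℝ) + 1 ≤ M := by exact_mod_cast h
    have : 0 ≤ 1 / ((M : ℝ) - 1) := by
      apply div_nonneg zero_le_one; linarith
    linarith [h2 M h]
  · rw [Finset.Ico_eq_empty (by omega)] at h1
    simp only [sum_empty] at h1
    have : (0 : ℝ) ≤ 1 / (w : ℝ) := by positivity
    linarith

lemma EP_one_ge (P : Finset ℕ) (w : ℕ) (hw : 1 ≤ w) (hP : ∀ p ∈ P, w < p) :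
    1 - 1 / (w : ℝ) ≤ EP P (fun _ => 1) := by
  rw [EP_one_eq]
  have h := one_sub_sum_le_prod P (fun p => 1 / (p : ℝ) ^ 2) (fun p _ => by positivity)
    (fun p hp => by
      have : (1 : ℝ) ≤ p := by
        have := hP p hp
        exact_mod_cast (by omega : 1 ≤ p)
      rw [div_le_one (by positivity)]
      nlinarith)
  have := sum_inv_sq_le P w hw hP
  linarith

/-- existence from expectation -/
lemma exists_ge_of_EP {P : Finset ℕ} {f : Finset ℕ → ℝ} {τ : ℝ} (hτ : 0 < τ) (h : τ ≤ EP P f) :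
    ∃ S, S ⊆ P ∧ τ ≤ f S := by
  by_contra hcon
  push Not at hcon
  have h1 : EP P f ≤ EP P (fun _ => τ) := EP_mono fun S hS => (hcon S hS).le
  have h2 : EP P f < τ := by
    rcases lt_or_eq_of_le h1 with h3 | h3
    · calc EP P f < EP P (fun _ => τ) := h3
        _ = τ * EP P (fun _ => 1) := EP_const _ _
        _ ≤ τ * 1 := by gcongr; exact EP_one_le P
        _ = τ := mul_one _
    · -- strictness: some weight is positive or total is zero
      rcases lt_or_eq_of_le (EP_one_le P) with h4 | h4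
      · rw [h3, EP_const]
        nlinarith
      · exfalso
        have h5 : EP P (fun S => τ - f S) = 0 := by
          rw [EP_sub, h3, sub_self]
        unfold EP at h5
        rw [sum_eq_zero_iff_of_nonneg (fun S hS => mul_nonneg (wt_nonneg _ _)
          (by linarith [hcon S (mem_powerset.1 hS)]))] at h5
        have h6 : ∀ S ∈ P.powerset, wt P S = 0 := by
          intro S hS
          have := h5 S hS
          rcases mul_eq_zero.1 this with h | h
          · exact h
          · linarith [hcon S (mem_powerset.1 hS)]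
        have h7 : EP P (fun _ => 1) = 0 := by
          unfold EP
          apply sum_eq_zero
          intro S hS
          rw [h6 S hS, zero_mul]
        linarith
  linarith

end Pool.Agent.Helper35
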