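import Pool.Agent.Helper35.SmallBall

set_option autoImplicit false

open Finset

namespace Pool.Agent.Helper35

section

variable {ι : Type} [Fintype ι] [DecidableEq ι]

/-- Chernoff bound for the bad event. -/
theorem bad_prob (a : ι → ℝ) (h0 : ∀ i, 0 ≤ a i) (h1 : ∀ i, a i ≤ 1)
    (lev : ι → ℕ) (I : ℕ) (kk M : ℕ → ℝ) (lam : ℝ) (hl0 : 0 < lam) (hl1 : lam < 1)
    (hM : ∀ k ≤ I, M k ≤ ∑ i, (if lev i < k then a i else 0)) :
    ∑ S, mu a S * (if ∀ k ≤ I, kk k ≤ (#(S.filter fun i => lev i < k) : ℝ) then 0 else 1) ≤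
      ∑ k ∈ range (I + 1), lam ^ (-kk k) * Real.exp (-(1 - lam) * M k) := by
  classical
  have hmu := mu_nonneg h0 h1
  have hpt : ∀ S : Finset ι, (if ∀ k ≤ I, kk k ≤ (#(S.filter fun i => lev i < k) : ℝ) then (0 : ℝ) else 1) ≤
      ∑ k ∈ range (I + 1), lam ^ (-kk k) * lam ^ (#(S.filter fun i => lev i < k)) := by
    intro S
    split_ifs with h
    · exact sum_nonneg fun k _ => by positivity
    · push Not at h
      obtain ⟨k, hk, hlt⟩ := h
      have h2 : (1 : ℝ) ≤ lam ^ (-kk k) * lam ^ (#(S.filter fun i => lev i < k)) := by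
        rw [← Real.rpow_natCast, ← Real.rpow_add hl0]
        apply Real.one_le_rpow_of_pos_of_le_one_of_nonpos hl0 hl1.le
        linarith
      refine h2.trans ?_
      exact single_le_sum (f := fun k => lam ^ (-kk k) * lam ^ (#(S.filter fun i => lev i < k)))
        (s := range (I + 1)) (fun k _ => by positivity) (mem_range.2 (by omega))
  have hmgf : ∀ k ≤ I, ∑ S, mu a S * lam ^ (#(S.filter fun i => lev i < k)) ≤
      Real.exp (-(1 - lam) * M k) := by
    intro k hk
    have e : ∀ S : Finset ι, mu a S * lam ^ (#(S.filter fun i => lev i < k)) =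
        (∏ i, (1 - a i)) * ∏ i ∈ S, (a i * (if lev i < k then lam else 1)) := by
      intro S
      unfold mu
      rw [prod_mul_distrib, prod_ite, prod_const, prod_const_one, mul_one, mul_assoc]
    simp only [e]
    rw [← mul_sum, sum_finset_prod, ← prod_mul_distrib]
    have h2 : ∀ i, (1 - a i) * (1 + a i * (if lev i < k then lam else 1)) ≤
        Real.exp (-(1 - lam) * (if lev i < k then a i else 0)) := by
      intro i
      have ha := h0 i
      have ha1 := h1 i
      split_ifs
      · have := Real.add_one_le_exp (-(1 - lam) * a i)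
        have h3 : 0 ≤ a i ^ 2 * lam := by positivity
        nlinarith
      · rw [mul_one, mul_zero, Real.exp_zero]
        nlinarith
    have h3 : ∏ i, ((1 - a i) * (1 + a i * (if lev i < k then lam else 1))) ≤
        ∏ i, Real.exp (-(1 - lam) * (if lev i < k then a i else 0)) := by
      apply prod_le_prod
      · intro i _
        have ha := h0 i
        have ha1 := h1 i
        apply mul_nonneg (by linarith)
        split_ifs <;> positivity
      · intro i _; exact h2 i
    refine h3.trans ?_
    rw [← Real.exp_sum, ← mul_sum]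
    apply Real.exp_le_exp.2
    have := hM k hk
    nlinarith
  calc _ ≤ ∑ S, mu a S * ∑ k ∈ range (I + 1), lam ^ (-kk k) * lam ^ (#(S.filter fun i => lev i < k)) :=
        sum_le_sum fun S _ => mul_le_mul_of_nonneg_left (hpt S) (hmu S)
    _ = ∑ k ∈ range (I + 1), lam ^ (-kk k) * ∑ S, mu a S * lam ^ (#(S.filter fun i => lev i < k)) := by
        simp only [mul_sum]
        rw [sum_comm]
        apply sum_congr rfl; intro k _
        apply sum_congr rfl; intro S _
        ring
    _ ≤ _ := by
        apply sum_le_sum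
        intro k hk
        apply mul_le_mul_of_nonneg_left (hmgf k (by rw [mem_range] at hk; omega)) (by positivity)

/-- colour classes -/
def part (S : Finset ι) (v : ι → Fin 3) (c : Fin 3) : Finset ι := S.filter (fun i => v i = c)

lemma part_disjoint (S : Finset ι) (v : ι → Fin 3) {c c' : Fin 3} (h : c ≠ c') :
    Disjoint (part S v c) (part S v c') := by
  unfold part
  rw [disjoint_filter]
  intro i _ h1 h2
  exact h (h1.symm.trans h2)

lemma part_union (S : Finset ι) (v : ι → Fin 3) :
    part S v 0 ∪ part S v 1 ∪ part S v 2 = S := by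
  ext i
  simp only [part, mem_union, mem_filter]
  constructor
  · rintro ((h | h) | h) <;> exact h.1
  · intro h
    have : v i = 0 ∨ v i = 1 ∨ v i = 2 := by
      generalize v i = x
      fin_cases x <;> simp
    rcases this with h1 | h1 | h1 <;> simp [h, h1]

lemma part_iff {R X Y S : Finset ι} (v : ι → Fin 3) (h1 : Disjoint R X) (h2 : Disjoint R Y)
    (h3 : Disjoint X Y) :
    (R = part S v 0 ∧ X = part S v 1 ∧ Y = part S v 2) ↔
    (S = R ∪ X ∪ Y ∧ v ∈ Fintype.piFinset (fun i => if i ∈ R then {(0 : Fin 3)} else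
      if i ∈ X then {1} else if i ∈ Y then {2} else univ)) := by
  constructor
  · rintro ⟨rfl, rfl, rfl⟩
    refine ⟨(part_union S v).symm, ?_⟩
    rw [Fintype.mem_piFinset]
    intro i
    split_ifs with h4 h5 h6
    · simp only [part, mem_filter] at h4; simp [h4.2]
    · simp only [part, mem_filter] at h5; simp [h5.2]
    · simp only [part, mem_filter] at h6; simp [h6.2]
    · simp
  · rintro ⟨rfl, hv⟩
    rw [Fintype.mem_piFinset] at hv
    have hR : ∀ i ∈ R, v i = 0 := fun i hi => by simpa [hi] using hv i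
    have hX : ∀ i ∈ X, v i = 1 := fun i hi => by
      have hiR : i ∉ R := fun h => disjoint_left.1 h1 h hi
      simpa [hi, hiR] using hv i
    have hY : ∀ i ∈ Y, v i = 2 := fun i hi => by
      have hiR : i ∉ R := fun h => disjoint_left.1 h2 h hi
      have hiX : i ∉ X := fun h => disjoint_left.1 h3 h hi
      simpa [hi, hiR, hiX] using hv i
    refine ⟨?_, ?_, ?_⟩
    · ext i
      simp only [part, mem_filter, mem_union]
      constructor
      · intro h; exact ⟨Or.inl (Or.inl h), hR i h⟩
      · rintro ⟨(h | h) | h, hvi⟩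
        · exact h
        · rw [hX i h] at hvi; simp at hvi
        · rw [hY i h] at hvi; simp at hvi
    · ext i
      simp only [part, mem_filter, mem_union]
      constructor
      · intro h; exact ⟨Or.inl (Or.inr h), hX i h⟩
      · rintro ⟨(h | h) | h, hvi⟩
        · rw [hR i h] at hvi; simp at hvi
        · exact h
        · rw [hY i h] at hvi; simp at hvi
    · ext i
      simp only [part, mem_filter, mem_union]
      constructor
      · intro h; exact ⟨Or.inr h, hY i h⟩
      · rintro ⟨(h | h) | h, hvi⟩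
        · rw [hR i h] at hvi; simp at hvi
        · rw [hX i h] at hvi; simp at hvi
        · exact h

lemma swap4 {α β γ δ' : Type} [Fintype α] [Fintype β] [Fintype γ] [Fintype δ']
    (F : α → β → γ → δ' → ℝ) :
    ∑ s, ∑ r, ∑ x, ∑ y, F s r x y = ∑ r, ∑ x, ∑ y, ∑ s, F s r x y := by
  rw [sum_comm]
  apply sum_congr rfl; intro r _
  rw [sum_comm]
  apply sum_congr rfl; intro x _
  rw [sum_comm]

/-- conversion between disjoint triples and coloured sets -/
theorem conv (q : ι → ℝ) (Ψ : Finset ι → Finset ι → Finset ι → ℝ) :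
    (∑ R, ∑ X, ∑ Y, (if Disjoint R X ∧ Disjoint R Y ∧ Disjoint X Y then
      ((∏ i ∈ R, q i) * (∏ i ∈ X, q i) * (∏ i ∈ Y, q i)) * Ψ R X Y else 0)) =
    (∑ S, (∏ i ∈ S, (3 * q i)) * ∑ v : ι → Fin 3, Ψ (part S v 0) (part S v 1) (part S v 2)) /
      3 ^ (Fintype.card ι) := by
  classical
  have e1 : ∀ S : Finset ι, (∏ i ∈ S, (3 * q i)) * ∑ v : ι → Fin 3,
      Ψ (part S v 0) (part S v 1) (part S v 2) =
      ∑ R, ∑ X, ∑ Y, ∑ v : ι → Fin 3, (if (R = part S v 0 ∧ X = part S v 1 ∧ Y = part S v 2) then
        (∏ i ∈ S, (3 * q i)) * Ψ R X Y else 0) := by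
    intro S
    have e2 : ∀ v : ι → Fin 3, Ψ (part S v 0) (part S v 1) (part S v 2) =
        ∑ R, ∑ X, ∑ Y, (if (R = part S v 0 ∧ X = part S v 1 ∧ Y = part S v 2) then Ψ R X Y else 0) := by
      intro v
      rw [sum_eq_single (part S v 0) (fun R _ hR => by simp [hR]) (by simp),
        sum_eq_single (part S v 1) (fun R _ hR => by simp [hR]) (by simp),
        sum_eq_single (part S v 2) (fun R _ hR => by simp [hR]) (by simp)]
      simp
    simp only [e2]
    rw [sum_comm, mul_sum]
    apply sum_congr rfl; intro R _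
    rw [sum_comm, mul_sum]
    apply sum_congr rfl; intro X _
    rw [sum_comm, mul_sum]
    apply sum_congr rfl; intro Y _
    rw [mul_sum]
    apply sum_congr rfl; intro v _
    split_ifs <;> simp
  simp only [e1]
  rw [swap4, sum_div]
  apply sum_congr rfl; intro R _
  rw [sum_div]
  apply sum_congr rfl; intro X _
  rw [sum_div]
  apply sum_congr rfl; intro Y _
  by_cases hd : Disjoint R X ∧ Disjoint R Y ∧ Disjoint X Y
  · rw [if_pos hd]
    obtain ⟨h1, h2, h3⟩ := hd
    have e3 : ∀ S : Finset ι, ∑ v : ι → Fin 3, (if (R = part S v 0 ∧ X = part S v 1 ∧ Y = part S v 2) then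
        (∏ i ∈ S, (3 * q i)) * Ψ R X Y else 0) =
        if S = R ∪ X ∪ Y then (∏ i ∈ S, (3 * q i)) * Ψ R X Y *
          (#(Fintype.piFinset (fun i => if i ∈ R then {(0 : Fin 3)} else
            if i ∈ X then {1} else if i ∈ Y then {2} else univ)) : ℝ) else 0 := by
      intro S
      by_cases hS : S = R ∪ X ∪ Y
      · rw [if_pos hS, ← sum_filter, sum_const, nsmul_eq_mul, mul_comm]
        congr 3
        ext v
        rw [mem_filter, part_iff v h1 h2 h3]
        simp [hS]
      · rw [if_neg hS]
        apply sum_eq_zero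
        intro v _
        rw [if_neg]
        rw [part_iff v h1 h2 h3]
        exact fun h => hS h.1
    simp only [e3]
    rw [sum_ite_eq' univ (R ∪ X ∪ Y)]
    simp only [mem_univ, if_true]
    rw [Fintype.card_piFinset]
    push_cast
    have e4 : ∀ i, ((#(if i ∈ R then {(0 : Fin 3)} else
            if i ∈ X then {1} else if i ∈ Y then {2} else univ)) : ℝ) =
          3 * (if i ∈ R ∪ X ∪ Y then (1 / 3 : ℝ) else 1) := by
      intro i
      by_cases hR : i ∈ R
      · simp [hR]
      · by_cases hX : i ∈ X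
        · simp [hR, hX]
        · by_cases hY : i ∈ Y
          · simp [hR, hX, hY]
          · simp [hR, hX, hY]
    simp only [e4]
    have e8 : ∏ i, (3 * (if i ∈ R ∪ X ∪ Y then (1 / 3 : ℝ) else 1)) =
        3 ^ Fintype.card ι * ∏ i ∈ R ∪ X ∪ Y, (1 / 3 : ℝ) := by
      rw [prod_mul_distrib, prod_const, card_univ, prod_ite_mem, univ_inter]
    rw [e8]
    have e5 : (∏ i ∈ R, q i) * (∏ i ∈ X, q i) * (∏ i ∈ Y, q i) = ∏ i ∈ R ∪ X ∪ Y, q i := by
      rw [prod_union (by rw [disjoint_union_left]; exact ⟨h2, h3⟩), prod_union h1]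
    rw [e5]
    have e6 : (∏ i ∈ R ∪ X ∪ Y, (3 * q i)) * ∏ i ∈ R ∪ X ∪ Y, (1 / 3 : ℝ) = ∏ i ∈ R ∪ X ∪ Y, q i := by
      rw [← prod_mul_distrib]
      apply prod_congr rfl; intro i _; ring
    rw [← e6]
    field_simp
  · rw [if_neg hd]
    symm
    rw [div_eq_zero_iff]
    left
    apply sum_eq_zero; intro S _
    apply sum_eq_zero; intro v _
    rw [if_neg]
    rintro ⟨rfl, rfl, rfl⟩
    apply hd
    exact ⟨part_disjoint S v (by decide), part_disjoint S v (by decide), part_disjoint S v (by decide)⟩

end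

end Pool.Agent.Helper35
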