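import Mathlib

set_option autoImplicit false

open Finset

namespace Pool.Agent.Helper35

/-- averaging lemma: symmetric coupling of three points in the same cell -/
lemma exists_triple {Ω κ : Type} [Fintype Ω] [DecidableEq κ] (P : Ω → ℝ) (hP : ∀ ω, 0 ≤ P ω)
    (cell : Ω → κ) (Ψ : Ω → Ω → ℝ) (Z τ : ℝ)
    (hZ : Z = ∑ a, ∑ b, if cell a = cell b then P a * P b else 0) (hZpos : 0 < Z)
    (hτ : τ * Z ≤ ∑ a, ∑ b, if cell a = cell b then P a * P b * Ψ a b else 0) :
    ∃ a b c, cell a = cell b ∧ cell a = cell c ∧ 3 * τ ≤ Ψ a b + Ψ a c + Ψ b c := by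
  by_contra hcon
  push Not at hcon
  set G : κ → ℝ := fun k => ∑ b, if k = cell b then P b else 0 with hG
  have hG0 : ∀ k, 0 ≤ G k := fun k => sum_nonneg fun b _ => by split_ifs <;> simp [hP]
  have hPG : ∀ a, P a ≤ G (cell a) := by
    intro a
    rw [hG]
    have := single_le_sum (f := fun b => if cell a = cell b then P b else 0) (s := univ)
      (fun b _ => by split_ifs <;> simp [hP]) (mem_univ a)
    simpa using this
  have hPGdiv : ∀ a, P a / G (cell a) * G (cell a) = P a := by
    intro a
    rcases (hG0 (cell a)).eq_or_lt with h | h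
    · rw [← h, mul_zero]
      exact (le_antisymm (h ▸ hPG a) (hP a)).symm
    · exact div_mul_cancel₀ _ h.ne'
  -- the weight
  set W : Ω → Ω → Ω → ℝ := fun a b c =>
    if cell a = cell b ∧ cell a = cell c then P a * P b * P c / G (cell a) else 0 with hW
  have hW0 : ∀ a b c, 0 ≤ W a b c := by
    intro a b c
    rw [hW]; simp only
    split_ifs
    · have := hP a; have := hP b; have := hP c; have := hG0 (cell a)
      positivity
    · exact le_rfl
  have hm1 : ∀ a b, ∑ c, W a b c = if cell a = cell b then P a * P b else 0 := by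
    intro a b
    rw [hW]; simp only
    by_cases hab : cell a = cell b
    · simp only [hab, true_and, if_true]
      have e : ∀ c, (if cell b = cell c then P a * P b * P c / G (cell b) else 0) =
          P b * (P a / G (cell b)) * (if cell b = cell c then P c else 0) := by
        intro c; split_ifs <;> ring
      simp only [e]
      rw [← mul_sum]
      have : (∑ c, if cell b = cell c then P c else 0) = G (cell b) := rfl
      rw [this, ← hab, mul_assoc, hPGdiv a]
      ring
    · simp [hab]
  have hm2 : ∀ a c, ∑ b, W a b c = if cell a = cell c then P a * P c else 0 := by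
    intro a c
    rw [← hm1 a c]
    apply sum_congr rfl
    intro b _
    simp only [hW]
    by_cases h : cell a = cell b ∧ cell a = cell c
    · rw [if_pos h, if_pos ⟨h.2, h.1⟩]; ring
    · rw [if_neg h, if_neg (fun h' => h ⟨h'.2, h'.1⟩)]
  have hm3 : ∀ b c, ∑ a, W a b c = if cell b = cell c then P b * P c else 0 := by
    intro b c
    rw [← hm1 b c]
    apply sum_congr rfl
    intro a _
    rw [hW]; simp only
    by_cases h1 : cell a = cell b
    · by_cases h2 : cell b = cell c
      · have h3 : cell a = cell c := h1.trans h2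
        have h4 : cell b = cell a := h1.symm
        simp only [h1, h2, h3]
        simp
        ring
      · have h3 : ¬ cell a = cell c := fun h => h2 (h1.symm.trans h)
        simp [h1, h2]
    · have h4 : ¬ cell b = cell a := fun h => h1 h.symm
      simp [h1, h4]
  have hWsum : ∑ a, ∑ b, ∑ c, W a b c = Z := by
    rw [hZ]
    exact sum_congr rfl fun a _ => sum_congr rfl fun b _ => hm1 a b
  set M := ∑ a, ∑ b, if cell a = cell b then P a * P b * Ψ a b else 0 with hM
  have hM1 : ∑ a, ∑ b, ∑ c, W a b c * Ψ a b = M := by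
    rw [hM]
    apply sum_congr rfl; intro a _
    apply sum_congr rfl; intro b _
    rw [← sum_mul, hm1]
    split_ifs <;> ring
  have hM2 : ∑ a, ∑ b, ∑ c, W a b c * Ψ a c = M := by
    rw [hM]
    apply sum_congr rfl; intro a _
    rw [sum_comm]
    apply sum_congr rfl; intro c _
    rw [← sum_mul, hm2]
    split_ifs <;> ring
  have hM3 : ∑ a, ∑ b, ∑ c, W a b c * Ψ b c = M := by
    rw [hM, sum_comm]
    apply sum_congr rfl; intro b _
    rw [sum_comm]
    apply sum_congr rfl; intro c _
    rw [← sum_mul, hm3]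
    split_ifs <;> ring
  have htot : ∑ a, ∑ b, ∑ c, W a b c * (Ψ a b + Ψ a c + Ψ b c - 3 * τ) = 3 * M - 3 * τ * Z := by
    have e : ∀ a b c, W a b c * (Ψ a b + Ψ a c + Ψ b c - 3 * τ) =
        W a b c * Ψ a b + W a b c * Ψ a c + W a b c * Ψ b c - W a b c * (3 * τ) := by
      intro a b c; ring
    simp only [e, sum_sub_distrib, sum_add_distrib, ← sum_mul]
    rw [hWsum]
    simp only [sum_mul]
    rw [hM1, hM2, hM3]
    ring
  have hneg : ∀ a b c, W a b c * (Ψ a b + Ψ a c + Ψ b c - 3 * τ) ≤ 0 := by
    intro a b c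
    by_cases h : cell a = cell b ∧ cell a = cell c
    · have := hcon a b c h.1 h.2
      exact mul_nonpos_of_nonneg_of_nonpos (hW0 a b c) (by linarith)
    · have : W a b c = 0 := by rw [hW]; simp [h]
      rw [this, zero_mul]
  -- some weight is positive
  have hexW : ∃ a b c, 0 < W a b c := by
    by_contra hno
    push Not at hno
    have : ∑ a, ∑ b, ∑ c, W a b c ≤ 0 :=
      sum_nonpos fun a _ => sum_nonpos fun b _ => sum_nonpos fun c _ => hno a b c
    linarith
  obtain ⟨a₀, b₀, c₀, hpos⟩ := hexW
  have hcell : cell a₀ = cell b₀ ∧ cell a₀ = cell c₀ := by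
    by_contra h
    have : W a₀ b₀ c₀ = 0 := by rw [hW]; simp [h]
    linarith
  have hstrict : W a₀ b₀ c₀ * (Ψ a₀ b₀ + Ψ a₀ c₀ + Ψ b₀ c₀ - 3 * τ) < 0 := by
    have := hcon a₀ b₀ c₀ hcell.1 hcell.2
    exact mul_neg_of_pos_of_neg hpos (by linarith)
  have hlt : ∑ a, ∑ b, ∑ c, W a b c * (Ψ a b + Ψ a c + Ψ b c - 3 * τ) < 0 := by
    apply sum_neg' (fun a _ => sum_nonpos fun b _ => sum_nonpos fun c _ => hneg a b c)
    refine ⟨a₀, mem_univ _, ?_⟩
    apply sum_neg' (fun b _ => sum_nonpos fun c _ => hneg a₀ b c)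
    refine ⟨b₀, mem_univ _, ?_⟩
    apply sum_neg' (fun c _ => hneg a₀ b₀ c)
    exact ⟨c₀, mem_univ _, hstrict⟩
  rw [htot] at hlt
  nlinarith

end Pool.Agent.Helper35
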