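import Pool.Agent.Helper35.Conv
import Pool.Agent.Helper35.Triple

set_option autoImplicit false

open Finset

namespace Pool.Agent.Helper35

section

variable {ι τ : Type} [Fintype ι] [DecidableEq ι] [Fintype τ] [DecidableEq τ]

/-- tilted weight -/
noncomputable def gw (a : ι → ℝ) (X : Finset ι) : ℝ := ∏ i ∈ X, (a i / 3)

/-- the cell of a point -/
noncomputable def cl (u : ι → ℝ) (t : τ → ℝ) (δ : ℝ) (p : Finset ι × τ) : ℤ :=
  ⌊((∑ i ∈ p.1, u i) + t p.2) / δ⌋

/-- weight of a point -/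
noncomputable def pw (a : ι → ℝ) (b : τ → ℝ) (p : Finset ι × τ) : ℝ := gw a p.1 * b p.2

/-- expectation over pairs in the same cell (unnormalised) -/
noncomputable def E2 (a u : ι → ℝ) (b t : τ → ℝ) (δ : ℝ)
    (Ψ : Finset ι → (Finset ι × τ) → (Finset ι × τ) → ℝ) : ℝ :=
  ∑ R, ∑ p, ∑ q, (if cl u t δ p = cl u t δ q then gw a R * (pw a b p * pw a b q) * Ψ R p q else 0)

lemma gw_nonneg {a : ι → ℝ} (h0 : ∀ i, 0 ≤ a i) (X : Finset ι) : 0 ≤ gw a X :=
  prod_nonneg fun i _ => div_nonneg (h0 i) (by norm_num)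

lemma pw_nonneg {a : ι → ℝ} {b : τ → ℝ} (h0 : ∀ i, 0 ≤ a i) (hb : ∀ j, 0 ≤ b j)
    (p : Finset ι × τ) : 0 ≤ pw a b p := mul_nonneg (gw_nonneg h0 _) (hb _)

lemma sum_gw (a : ι → ℝ) : ∑ X, gw a X = ∏ i, (1 + a i / 3) := sum_finset_prod _

lemma sum_gw_mem {a : ι → ℝ} (h0 : ∀ i, 0 ≤ a i) (l : ι) :
    ∑ X, gw a X * (if l ∈ X then 1 else 0) ≤ a l / 3 * ∏ i, (1 + a i / 3) := by
  have e : ∀ X : Finset ι, gw a X * (if l ∈ X then (1 : ℝ) else 0) = if l ∈ X then gw a X else 0 := by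
    intro X; split_ifs <;> simp
  simp only [e]
  rw [sum_ins l (fun X => gw a X), ← sum_gw, mul_sum]
  apply sum_le_sum
  intro X _
  split_ifs with h
  · exact mul_nonneg (div_nonneg (h0 l) (by norm_num)) (gw_nonneg h0 X)
  · unfold gw
    rw [prod_insert h]

lemma E2_mono {a u : ι → ℝ} {b t : τ → ℝ} {δ : ℝ} (h0 : ∀ i, 0 ≤ a i) (hb : ∀ j, 0 ≤ b j)
    {Ψ Φ : Finset ι → (Finset ι × τ) → (Finset ι × τ) → ℝ} (h : ∀ R p q, Ψ R p q ≤ Φ R p q) :
    E2 a u b t δ Ψ ≤ E2 a u b t δ Φ := by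
  unfold E2
  apply sum_le_sum; intro R _
  apply sum_le_sum; intro p _
  apply sum_le_sum; intro q _
  split_ifs
  · apply mul_le_mul_of_nonneg_left (h R p q)
    exact mul_nonneg (gw_nonneg h0 R) (mul_nonneg (pw_nonneg h0 hb p) (pw_nonneg h0 hb q))
  · exact le_rfl

lemma E2_add (a u : ι → ℝ) (b t : τ → ℝ) (δ : ℝ)
    (Ψ Φ : Finset ι → (Finset ι × τ) → (Finset ι × τ) → ℝ) :
    E2 a u b t δ (fun R p q => Ψ R p q + Φ R p q) = E2 a u b t δ Ψ + E2 a u b t δ Φ := by
  unfold E2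
  rw [← sum_add_distrib]
  apply sum_congr rfl; intro R _
  rw [← sum_add_distrib]
  apply sum_congr rfl; intro p _
  rw [← sum_add_distrib]
  apply sum_congr rfl; intro q _
  split_ifs <;> ring

lemma E2_smul (a u : ι → ℝ) (b t : τ → ℝ) (δ c : ℝ)
    (Ψ : Finset ι → (Finset ι × τ) → (Finset ι × τ) → ℝ) :
    E2 a u b t δ (fun R p q => c * Ψ R p q) = c * E2 a u b t δ Ψ := by
  unfold E2
  rw [mul_sum]
  apply sum_congr rfl; intro R _
  rw [mul_sum]
  apply sum_congr rfl; intro p _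
  rw [mul_sum]
  apply sum_congr rfl; intro q _
  split_ifs <;> ring

/-- marginal bound: integrate the top primes first. -/
lemma E2_le {a u : ι → ℝ} {b t : τ → ℝ} {δ N : ℝ} (h0 : ∀ i, 0 ≤ a i) (hb : ∀ j, 0 ≤ b j)
    (hN : ∀ (X : Finset ι) (k : ℤ), ∑ j, (if cl u t δ (X, j) = k then b j else 0) ≤ N)
    {Ψ : Finset ι → (Finset ι × τ) → (Finset ι × τ) → ℝ} {Θ : Finset ι → Finset ι → Finset ι → ℝ}
    (hΘ0 : ∀ R X Y, 0 ≤ Θ R X Y) (h : ∀ R p q, Ψ R p q ≤ Θ R p.1 q.1) :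
    E2 a u b t δ Ψ ≤ (∑ j, b j) * N * ∑ R, ∑ X, ∑ Y, gw a R * gw a X * gw a Y * Θ R X Y := by
  have h1 : E2 a u b t δ Ψ ≤ E2 a u b t δ (fun R p q => Θ R p.1 q.1) := E2_mono h0 hb h
  refine h1.trans ?_
  unfold E2
  rw [mul_sum]
  apply sum_le_sum; intro R _
  rw [Fintype.sum_prod_type, mul_sum]
  apply sum_le_sum; intro X _
  have hpt : ∀ j : τ, ∑ q : Finset ι × τ, (if cl u t δ (X, j) = cl u t δ q then
      gw a R * (pw a b (X, j) * pw a b q) * Θ R (X, j).1 q.1 else 0) ≤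
      b j * (N * ∑ Y, gw a R * gw a X * gw a Y * Θ R X Y) := by
    intro j
    rw [Fintype.sum_prod_type, mul_sum, mul_sum]
    apply sum_le_sum; intro Y _
    have e : ∀ l : τ, (if cl u t δ (X, j) = cl u t δ (Y, l) then
      gw a R * (pw a b (X, j) * pw a b (Y, l)) * Θ R (X, j).1 (Y, l).1 else 0) =
      (b j * (gw a R * gw a X * gw a Y * Θ R X Y)) * (if cl u t δ (Y, l) = cl u t δ (X, j) then b l else 0) := by
      intro l
      unfold pw
      by_cases hc : cl u t δ (X, j) = cl u t δ (Y, l)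
      · rw [if_pos hc, if_pos hc.symm]; ring
      · rw [if_neg hc, if_neg (fun h => hc h.symm)]; ring
    simp only [e]
    rw [← mul_sum]
    have h2 := hN Y (cl u t δ (X, j))
    have h3 : 0 ≤ b j * (gw a R * gw a X * gw a Y * Θ R X Y) := by
      have := hb j; have := gw_nonneg h0 R; have := gw_nonneg h0 X; have := gw_nonneg h0 Y
      have := hΘ0 R X Y
      positivity
    calc _ ≤ (b j * (gw a R * gw a X * gw a Y * Θ R X Y)) * N := mul_le_mul_of_nonneg_left h2 h3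
      _ = _ := by ring
  refine (sum_le_sum fun j _ => hpt j).trans ?_
  rw [← sum_mul]
  apply le_of_eq; ring

lemma sum3_fact (a : ι → ℝ) (φ ψ χ : Finset ι → ℝ) :
    ∑ R, ∑ X, ∑ Y, gw a R * gw a X * gw a Y * (φ R * ψ X * χ Y) =
    (∑ R, gw a R * φ R) * (∑ X, gw a X * ψ X) * (∑ Y, gw a Y * χ Y) := by
  rw [sum_mul_sum, sum_mul]
  apply sum_congr rfl; intro R _
  rw [sum_mul]
  apply sum_congr rfl; intro X _
  rw [mul_sum]
  apply sum_congr rfl; intro Y _
  ring

/-- validity -/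
def vl (R : Finset ι) (p q : Finset ι × τ) : Prop :=
  Disjoint R p.1 ∧ Disjoint R q.1 ∧ Disjoint p.1 q.1 ∧ p.2 ≠ q.2

instance (R : Finset ι) (p q : Finset ι × τ) : Decidable (vl R p q) := by
  unfold vl; infer_instance

/-- total mass of pairs -/
lemma E2_one (a u : ι → ℝ) (b t : τ → ℝ) (δ : ℝ) :
    E2 a u b t δ (fun _ _ _ => 1) = (∏ i, (1 + a i / 3)) *
      ∑ p, ∑ q, (if cl u t δ p = cl u t δ q then pw a b p * pw a b q else 0) := by
  unfold E2
  rw [← sum_gw, sum_mul]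
  apply sum_congr rfl; intro R _
  rw [mul_sum]
  apply sum_congr rfl; intro p _
  rw [mul_sum]
  apply sum_congr rfl; intro q _
  split_ifs <;> ring

/-- invalid pairs have small mass -/
lemma E2_invalid {a u : ι → ℝ} {b t : τ → ℝ} {δ N : ℝ} (h0 : ∀ i, 0 ≤ a i) (hb : ∀ j, 0 ≤ b j)
    (hN0 : 0 ≤ N)
    (hN : ∀ (X : Finset ι) (k : ℤ), ∑ j, (if cl u t δ (X, j) = k then b j else 0) ≤ N) :
    E2 a u b t δ (fun R p q => if vl R p q then 0 else 1) ≤
      (∏ i, (1 + a i / 3)) ^ 3 * ((∑ j, b j) * N * (∑ i, a i ^ 2) / 3 + ∑ j, b j ^ 2) := by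
  set F := ∏ i, (1 + a i / 3) with hF
  have hF0 : 0 ≤ F := prod_nonneg fun i _ => by have := h0 i; positivity
  have hH0 : 0 ≤ ∑ j, b j := sum_nonneg fun j _ => hb j
  set Θ : Finset ι → Finset ι → Finset ι → ℝ := fun R X Y => ∑ l : ι,
    ((if l ∈ R then 1 else 0) * (if l ∈ X then 1 else 0) * 1 +
     (if l ∈ R then 1 else 0) * 1 * (if l ∈ Y then 1 else 0) +
     1 * (if l ∈ X then 1 else 0) * (if l ∈ Y then 1 else 0)) with hΘ
  have hΘ0 : ∀ R X Y, 0 ≤ Θ R X Y := by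
    intro R X Y
    rw [hΘ]
    apply sum_nonneg; intro l _
    split_ifs <;> norm_num
  have hpt : ∀ R (p q : Finset ι × τ), (if vl R p q then (0 : ℝ) else 1) ≤
      Θ R p.1 q.1 + (if p.2 = q.2 then 1 else 0) := by
    intro R p q
    split_ifs with h1 h2 h2
    · have := hΘ0 R p.1 q.1; linarith
    · have := hΘ0 R p.1 q.1; linarith
    · have := hΘ0 R p.1 q.1; linarith
    · -- some overlap
      unfold vl at h1
      have h3 : ¬ Disjoint R p.1 ∨ ¬ Disjoint R q.1 ∨ ¬ Disjoint p.1 q.1 := by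
        by_contra hcon
        push Not at hcon
        exact h1 ⟨hcon.1, hcon.2.1, hcon.2.2, h2⟩
      have hge : ∀ l : ι, ((if l ∈ R then (1 : ℝ) else 0) * (if l ∈ p.1 then 1 else 0) * 1 +
          (if l ∈ R then 1 else 0) * 1 * (if l ∈ q.1 then 1 else 0) +
          1 * (if l ∈ p.1 then 1 else 0) * (if l ∈ q.1 then 1 else 0)) ≤ Θ R p.1 q.1 := by
        intro l
        exact single_le_sum (f := fun l : ι => ((if l ∈ R then (1 : ℝ) else 0) * (if l ∈ p.1 then 1 else 0) * 1 +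
          (if l ∈ R then 1 else 0) * 1 * (if l ∈ q.1 then 1 else 0) +
          1 * (if l ∈ p.1 then 1 else 0) * (if l ∈ q.1 then 1 else 0))) (s := univ)
          (fun l _ => by split_ifs <;> norm_num) (mem_univ l)
      rcases h3 with h3 | h3 | h3
      all_goals
        rw [not_disjoint_iff] at h3
        obtain ⟨l, hl1, hl2⟩ := h3
        have := hge l
        simp only [hl1, hl2, if_true] at this
        split_ifs at this <;> linarith
  have h1 : E2 a u b t δ (fun R p q => if vl R p q then 0 else 1) ≤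
      E2 a u b t δ (fun R p q => Θ R p.1 q.1) +
      E2 a u b t δ (fun _ p q => if p.2 = q.2 then 1 else 0) := by
    rw [← E2_add]
    exact E2_mono h0 hb hpt
  have h2 := E2_le (Θ := Θ) h0 hb hN hΘ0 (Ψ := fun R p q => Θ R p.1 q.1) (fun _ _ _ => le_rfl)
  have h3 : ∑ R, ∑ X, ∑ Y, gw a R * gw a X * gw a Y * Θ R X Y ≤ F ^ 3 * ((∑ i, a i ^ 2) / 3) := by
    have e : ∀ R X Y, gw a R * gw a X * gw a Y * Θ R X Y = ∑ l : ι,
        (gw a R * gw a X * gw a Y * ((if l ∈ R then 1 else 0) * (if l ∈ X then 1 else 0) * 1) +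
         gw a R * gw a X * gw a Y * ((if l ∈ R then 1 else 0) * 1 * (if l ∈ Y then 1 else 0)) +
         gw a R * gw a X * gw a Y * (1 * (if l ∈ X then 1 else 0) * (if l ∈ Y then 1 else 0))) := by
      intro R X Y
      rw [hΘ]; simp only
      rw [mul_sum]
      apply sum_congr rfl; intro l _
      ring
    simp only [e]
    have e2 : ∑ R, ∑ X, ∑ Y, ∑ l : ι,
        (gw a R * gw a X * gw a Y * ((if l ∈ R then 1 else 0) * (if l ∈ X then 1 else 0) * 1) +
         gw a R * gw a X * gw a Y * ((if l ∈ R then 1 else 0) * 1 * (if l ∈ Y then 1 else 0)) +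
         gw a R * gw a X * gw a Y * (1 * (if l ∈ X then 1 else 0) * (if l ∈ Y then 1 else 0))) =
        ∑ l : ι, ∑ R, ∑ X, ∑ Y,
        (gw a R * gw a X * gw a Y * ((if l ∈ R then 1 else 0) * (if l ∈ X then 1 else 0) * 1) +
         gw a R * gw a X * gw a Y * ((if l ∈ R then 1 else 0) * 1 * (if l ∈ Y then 1 else 0)) +
         gw a R * gw a X * gw a Y * (1 * (if l ∈ X then 1 else 0) * (if l ∈ Y then 1 else 0))) :=
      (swap4 (fun (l : ι) (R X Y : Finset ι) =>
        (gw a R * gw a X * gw a Y * ((if l ∈ R then 1 else 0) * (if l ∈ X then 1 else 0) * 1) +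
         gw a R * gw a X * gw a Y * ((if l ∈ R then 1 else 0) * 1 * (if l ∈ Y then 1 else 0)) +
         gw a R * gw a X * gw a Y * (1 * (if l ∈ X then 1 else 0) * (if l ∈ Y then 1 else 0))))).symm
    rw [e2, sum_div, mul_sum]
    apply sum_le_sum; intro l _
    simp only [sum_add_distrib]
    rw [sum3_fact a (fun R => if l ∈ R then 1 else 0) (fun X => if l ∈ X then 1 else 0) (fun _ => 1),
      sum3_fact a (fun R => if l ∈ R then 1 else 0) (fun _ => 1) (fun X => if l ∈ X then 1 else 0),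
      sum3_fact a (fun _ => 1) (fun R => if l ∈ R then 1 else 0) (fun X => if l ∈ X then 1 else 0)]
    have hm := sum_gw_mem h0 l
    rw [← hF] at hm
    have hm0 : 0 ≤ ∑ X, gw a X * (if l ∈ X then (1 : ℝ) else 0) :=
      sum_nonneg fun X _ => by
        have := gw_nonneg h0 X
        split_ifs <;> simp [this]
    have h1 : ∑ X, gw a X * (1 : ℝ) = F := by simp only [mul_one]; rw [sum_gw]
    rw [h1]
    have hal : 0 ≤ a l / 3 * F := by have := h0 l; positivity
    have hsq : (∑ X, gw a X * (if l ∈ X then (1 : ℝ) else 0)) * (∑ X, gw a X * (if l ∈ X then (1 : ℝ) else 0)) ≤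
        (a l / 3 * F) * (a l / 3 * F) := mul_le_mul hm hm hm0 hal
    have hsqF := mul_le_mul_of_nonneg_right hsq hF0
    nlinarith
  have h4 : E2 a u b t δ (fun _ p q => if p.2 = q.2 then 1 else 0) ≤ F ^ 3 * ∑ j, b j ^ 2 := by
    unfold E2
    have e : ∀ R, ∑ p : Finset ι × τ, ∑ q : Finset ι × τ, (if cl u t δ p = cl u t δ q then
        gw a R * (pw a b p * pw a b q) * (if p.2 = q.2 then 1 else 0) else 0) ≤
        gw a R * (F * (F * ∑ j, b j ^ 2)) := by
      intro R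
      rw [Fintype.sum_prod_type]
      have e1 : gw a R * (F * (F * ∑ j, b j ^ 2)) = ∑ X, gw a R * (gw a X * (F * ∑ j, b j ^ 2)) := by
        rw [← mul_sum, ← sum_mul, sum_gw]
      rw [e1]
      apply sum_le_sum; intro X _
      have e2 : gw a R * (gw a X * (F * ∑ j, b j ^ 2)) = ∑ j, gw a R * (gw a X * (F * b j ^ 2)) := by
        rw [← mul_sum, ← mul_sum, ← mul_sum]
      rw [e2]
      apply sum_le_sum; intro j _
      rw [Fintype.sum_prod_type]
      have e3 : gw a R * (gw a X * (F * b j ^ 2)) = ∑ Y, gw a R * (gw a X * (gw a Y * b j ^ 2)) := by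
        rw [← mul_sum, ← mul_sum, ← sum_mul, sum_gw]
      rw [e3]
      apply sum_le_sum; intro Y _
      have e4 : gw a R * (gw a X * (gw a Y * b j ^ 2)) =
          ∑ l, (if j = l then gw a R * (gw a X * (gw a Y * b j ^ 2)) else 0) := by
        rw [sum_ite_eq]; simp
      rw [e4]
      apply sum_le_sum; intro l _
      have hnn : 0 ≤ gw a R * (gw a X * (gw a Y * b j ^ 2)) := by
        have := gw_nonneg h0 R; have := gw_nonneg h0 X; have := gw_nonneg h0 Y
        positivity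
      by_cases hjl : j = l
      · subst hjl
        simp only [if_true, mul_one]
        split_ifs
        · unfold pw; apply le_of_eq; ring
        · exact hnn
      · simp [hjl]
    refine (sum_le_sum fun R _ => e R).trans ?_
    rw [← sum_mul, sum_gw]
    apply le_of_eq; ring
  have h5 : (∑ j, b j) * N * ∑ R, ∑ X, ∑ Y, gw a R * gw a X * gw a Y * Θ R X Y ≤
      (∑ j, b j) * N * (F ^ 3 * ((∑ i, a i ^ 2) / 3)) :=
    mul_le_mul_of_nonneg_left h3 (by positivity)
  have h6 : F ^ 3 * ((∑ j, b j) * N * (∑ i, a i ^ 2) / 3 + ∑ j, b j ^ 2) =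
      (∑ j, b j) * N * (F ^ 3 * ((∑ i, a i ^ 2) / 3)) + F ^ 3 * ∑ j, b j ^ 2 := by ring
  rw [h6]
  linarith

end

end Pool.Agent.Helper35
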