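import Pool.Agent.Helper35.Core

set_option autoImplicit false

open Finset

namespace Pool.Agent.Helper35

section

variable {ι τ : Type} [Fintype ι] [DecidableEq ι] [Fintype τ] [DecidableEq τ]

/-- proportion of colourings putting the two points in the same cell -/
noncomputable def pic (u : ι → ℝ) (t : τ → ℝ) (δ : ℝ) (S : Finset ι) (j l : τ) : ℝ :=
  (∑ v : ι → Fin 3, (if cl u t δ (part S v 1, j) = cl u t δ (part S v 2, l) then (1 : ℝ) else 0)) /
    3 ^ (Fintype.card ι)

lemma pic_nonneg (u : ι → ℝ) (t : τ → ℝ) (δ : ℝ) (S : Finset ι) (j l : τ) :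
    0 ≤ pic u t δ S j l := by
  unfold pic
  apply div_nonneg _ (by positivity)
  apply sum_nonneg; intro v _
  split_ifs <;> norm_num

lemma swap_XY {α β : Type} [Fintype α] [Fintype β] (F : α → β → α → β → ℝ) :
    ∑ X, ∑ j, ∑ Y, ∑ l, F X j Y l = ∑ X, ∑ Y, ∑ j, ∑ l, F X j Y l := by
  apply sum_congr rfl; intro X _
  rw [sum_comm]

/-- conversion of `E2` of a valid functional -/
theorem E2_conv (a u : ι → ℝ) (b t : τ → ℝ) (δ : ℝ) (g : Finset ι → Finset τ → ℝ) :
    E2 a u b t δ (fun R p q => if vl R p q then g (R ∪ p.1 ∪ q.1) {p.2, q.2} else 0) =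
      ∑ S, (∏ i ∈ S, a i) * ∑ j, ∑ l, (if j ≠ l then b j * b l * pic u t δ S j l * g S {j, l} else 0) := by
  set Ψ : Finset ι → Finset ι → Finset ι → ℝ := fun R X Y =>
    ∑ j, ∑ l, (if j ≠ l ∧ cl u t δ (X, j) = cl u t δ (Y, l) then b j * b l * g (R ∪ X ∪ Y) {j, l} else 0)
    with hΨ
  have e1 : E2 a u b t δ (fun R p q => if vl R p q then g (R ∪ p.1 ∪ q.1) {p.2, q.2} else 0) =
      ∑ R, ∑ X, ∑ Y, (if Disjoint R X ∧ Disjoint R Y ∧ Disjoint X Y then
        ((∏ i ∈ R, (a i / 3)) * (∏ i ∈ X, (a i / 3)) * (∏ i ∈ Y, (a i / 3))) * Ψ R X Y else 0) := by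
    unfold E2
    apply sum_congr rfl; intro R _
    rw [Fintype.sum_prod_type]
    have e2 : ∀ X : Finset ι, ∀ j : τ, ∑ q : Finset ι × τ, (if cl u t δ (X, j) = cl u t δ q then
        gw a R * (pw a b (X, j) * pw a b q) *
          (if vl R (X, j) q then g (R ∪ (X, j).1 ∪ q.1) {(X, j).2, q.2} else 0) else 0) =
        ∑ Y, ∑ l, (if cl u t δ (X, j) = cl u t δ (Y, l) then
        gw a R * (pw a b (X, j) * pw a b (Y, l)) *
          (if vl R (X, j) (Y, l) then g (R ∪ X ∪ Y) {j, l} else 0) else 0) := by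
      intro X j
      rw [Fintype.sum_prod_type]
    simp only [e2]
    rw [swap_XY (fun X j Y l => (if cl u t δ (X, j) = cl u t δ (Y, l) then
        gw a R * (pw a b (X, j) * pw a b (Y, l)) *
          (if vl R (X, j) (Y, l) then g (R ∪ X ∪ Y) {j, l} else 0) else 0))]
    apply sum_congr rfl; intro X _
    apply sum_congr rfl; intro Y _
    by_cases hd : Disjoint R X ∧ Disjoint R Y ∧ Disjoint X Y
    · rw [if_pos hd, hΨ, mul_sum]
      apply sum_congr rfl; intro j _
      rw [mul_sum]
      apply sum_congr rfl; intro l _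
      by_cases hjl : j ≠ l
      · have hv : vl R (X, j) (Y, l) := ⟨hd.1, hd.2.1, hd.2.2, hjl⟩
        rw [if_pos hv]
        by_cases hc : cl u t δ (X, j) = cl u t δ (Y, l)
        · rw [if_pos hc, if_pos ⟨hjl, hc⟩]
          unfold gw pw
          unfold gw
          ring
        · rw [if_neg hc, if_neg (fun h => hc h.2), mul_zero]
      · have hv : ¬ vl R (X, j) (Y, l) := fun h => hjl h.2.2.2
        have hno : ¬ (j ≠ l ∧ cl u t δ (X, j) = cl u t δ (Y, l)) := fun h => hjl h.1
        rw [if_neg hv, if_neg hno]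
        simp
    · rw [if_neg hd]
      apply sum_eq_zero; intro j _
      apply sum_eq_zero; intro l _
      have hv : ¬ vl R (X, j) (Y, l) := fun h => hd ⟨h.1, h.2.1, h.2.2.1⟩
      rw [if_neg hv]
      simp
  rw [e1, conv, sum_div]
  apply sum_congr rfl; intro S _
  have e3 : ∏ i ∈ S, (3 * (a i / 3)) = ∏ i ∈ S, a i := by
    apply prod_congr rfl; intro i _; ring
  rw [e3, mul_div_assoc]
  congr 1
  rw [hΨ]
  simp only [part_union]
  rw [sum_comm, sum_div]
  apply sum_congr rfl; intro j _
  rw [sum_comm, sum_div]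
  apply sum_congr rfl; intro l _
  by_cases hjl : j ≠ l
  · rw [if_pos hjl]
    unfold pic
    rw [mul_div_assoc', div_mul_eq_mul_div]
    congr 1
    rw [mul_sum, sum_mul]
    apply sum_congr rfl; intro v _
    by_cases hc : cl u t δ (part S v 1, j) = cl u t δ (part S v 2, l)
    · rw [if_pos ⟨hjl, hc⟩, if_pos hc]; ring
    · rw [if_neg (fun h => hc h.2), if_neg hc]; ring
  · rw [if_neg hjl]
    rw [div_eq_zero_iff]; left
    apply sum_eq_zero; intro v _
    rw [if_neg (fun h => hjl h.1)]

/-- sum over two-element sets -/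
lemma pair_sum (b : τ → ℝ) (g : Finset τ → ℝ) (π : τ → τ → ℝ) :
    ∑ T : Finset τ, (∏ j ∈ T, b j) * (g T * (if #T = 2 then ∑ x ∈ T.offDiag, π x.1 x.2 else 0)) =
      ∑ j, ∑ l, (if j ≠ l then b j * b l * π j l * g {j, l} else 0) := by
  have e1 : ∀ T : Finset τ, (if #T = 2 then ∑ x ∈ T.offDiag, π x.1 x.2 else 0) =
      ∑ j, ∑ l, (if j ≠ l ∧ T = {j, l} then π j l else 0) := by
    intro T
    rw [← Fintype.sum_prod_type' (f := fun j l => if j ≠ l ∧ T = {j, l} then π j l else 0),
      ← sum_filter]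
    split_ifs with h
    · apply sum_congr _ (fun _ _ => rfl)
      ext ⟨j, l⟩
      simp only [mem_offDiag, mem_filter, mem_univ, true_and]
      constructor
      · rintro ⟨hj, hl, hjl⟩
        refine ⟨hjl, ?_⟩
        symm
        apply eq_of_subset_of_card_le
        · intro x hx
          rw [mem_insert, mem_singleton] at hx
          rcases hx with rfl | rfl <;> assumption
        · rw [h, card_pair hjl]
      · rintro ⟨hjl, rfl⟩
        refine ⟨by simp, by simp, hjl⟩
    · symm
      apply sum_eq_zero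
      rintro ⟨j, l⟩ hx
      exfalso
      simp only [mem_filter, mem_univ, true_and] at hx
      apply h
      rw [hx.2, card_pair hx.1]
  simp only [e1]
  have e2 : ∀ T : Finset τ, (∏ j ∈ T, b j) * (g T * ∑ j, ∑ l, (if j ≠ l ∧ T = {j, l} then π j l else 0)) =
      ∑ j, ∑ l, (if j ≠ l ∧ T = {j, l} then (∏ j ∈ T, b j) * (g T * π j l) else 0) := by
    intro T
    rw [mul_sum, mul_sum]
    apply sum_congr rfl; intro j _
    rw [mul_sum, mul_sum]
    apply sum_congr rfl; intro l _
    split_ifs <;> simp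
  simp only [e2]
  rw [sum_comm]
  apply sum_congr rfl; intro j _
  rw [sum_comm]
  apply sum_congr rfl; intro l _
  by_cases hjl : j ≠ l
  · simp only [hjl, ne_eq, not_false_eq_true, true_and, if_true]
    rw [sum_ite_eq' univ ({j, l} : Finset τ)]
    simp only [mem_univ, if_true]
    rw [prod_pair hjl]
    ring
  · simp only [hjl, false_and, if_false, sum_const_zero]

/-- the density -/
noncomputable def Dn (u : ι → ℝ) (t : τ → ℝ) (δ K : ℝ) (gd : Finset ι → ℝ) (S : Finset ι) (T : Finset τ) : ℝ :=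
  K * gd S * (if #T = 2 then ∑ x ∈ T.offDiag, pic u t δ S x.1 x.2 else 0)

/-- expectation -/
noncomputable def EE (a : ι → ℝ) (b : τ → ℝ) (f : Finset ι → Finset τ → ℝ) : ℝ :=
  ∑ S, ∑ T, mu a S * mu b T * f S T

lemma EE_Dn (a u : ι → ℝ) (b t : τ → ℝ) (δ K : ℝ) (gd : Finset ι → ℝ) (f : Finset ι → Finset τ → ℝ) :
    EE a b (fun S T => f S T * Dn u t δ K gd S T) =
      K * (∏ i, (1 - a i)) * (∏ j, (1 - b j)) *
        E2 a u b t δ (fun R p q => if vl R p q then
          gd (R ∪ p.1 ∪ q.1) * f (R ∪ p.1 ∪ q.1) {p.2, q.2} else 0) := by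
  rw [E2_conv a u b t δ (fun S T => gd S * f S T)]
  unfold EE
  rw [mul_sum]
  apply sum_congr rfl; intro S _
  have e : ∀ T : Finset τ, mu a S * mu b T * (f S T * Dn u t δ K gd S T) =
      (K * (∏ i, (1 - a i)) * (∏ j, (1 - b j)) * ∏ i ∈ S, a i) *
      ((∏ j ∈ T, b j) * ((gd S * f S T) * (if #T = 2 then ∑ x ∈ T.offDiag, pic u t δ S x.1 x.2 else 0))) := by
    intro T
    unfold mu Dn
    ring
  simp only [e]
  rw [← mul_sum, pair_sum b (fun T => gd S * f S T) (fun j l => pic u t δ S j l)]
  ring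

/-- second moment bound -/
lemma EE_Dn_sq {a u : ι → ℝ} {b t : τ → ℝ} {δ K N B₀ : ℝ} (hδ : 0 < δ)
    (h0 : ∀ i, 0 ≤ a i) (h1 : ∀ i, a i ≤ 1) (hb : ∀ j, 0 ≤ b j) (hb1 : ∀ j, b j ≤ 1)
    (hN0 : 0 ≤ N)
    (hN : ∀ (X : Finset ι) (k : ℤ), ∑ j, (if cl u t δ (X, j) = k then b j else 0) ≤ N)
    {gd : Finset ι → ℝ} (hg0 : ∀ S, 0 ≤ gd S) (hg1 : ∀ S, gd S ≤ 1)
    (hB : (∑ S, mu a S * (gd S * ∑ v : ι → Fin 3, ∑ v' : ι → Fin 3,
      (if |Ls u S v - Ls u S v'| < 2 * δ then (1 : ℝ) else 0))) / 9 ^ (Fintype.card ι) ≤ B₀) :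
    EE a b (fun S T => Dn u t δ K gd S T ^ 2) ≤
      2 * K ^ 2 * (∏ j, (1 - b j)) * ((∑ j, b j) * N * B₀) := by
  have hcb : 0 ≤ ∏ j, (1 - b j) := prod_nonneg fun j _ => by linarith [hb1 j]
  have hH0 : 0 ≤ ∑ j, b j := sum_nonneg fun j _ => hb j
  -- pointwise in S, T
  have hpt : ∀ S T, Dn u t δ K gd S T ^ 2 ≤
      1 * (2 * K ^ 2 * gd S * (if #T = 2 then ∑ x ∈ T.offDiag, (pic u t δ S x.1 x.2) ^ 2 else 0)) := by
    intro S T
    unfold Dn
    split_ifs with hT
    · have hcs : (∑ x ∈ T.offDiag, pic u t δ S x.1 x.2) ^ 2 ≤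
          (#T.offDiag : ℝ) * ∑ x ∈ T.offDiag, (pic u t δ S x.1 x.2) ^ 2 := sq_sum_le_card_mul_sum_sq
      have hcard : (#T.offDiag : ℝ) = 2 := by rw [offDiag_card, hT]; norm_num
      rw [hcard] at hcs
      have hgg : gd S ^ 2 ≤ gd S := by
        have := hg0 S; have := hg1 S; nlinarith
      have hs0 : 0 ≤ ∑ x ∈ T.offDiag, (pic u t δ S x.1 x.2) ^ 2 := sum_nonneg fun _ _ => by positivity
      calc (K * gd S * ∑ x ∈ T.offDiag, pic u t δ S x.1 x.2) ^ 2
          = K ^ 2 * gd S ^ 2 * (∑ x ∈ T.offDiag, pic u t δ S x.1 x.2) ^ 2 := by ring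
        _ ≤ K ^ 2 * gd S * (2 * ∑ x ∈ T.offDiag, (pic u t δ S x.1 x.2) ^ 2) := by
            apply mul_le_mul _ hcs (by positivity)
            · have := hg0 S; positivity
            · exact mul_le_mul_of_nonneg_left hgg (by positivity)
        _ = _ := by ring
    · simp
  have hmua := mu_nonneg h0 h1
  have hmub := mu_nonneg hb hb1
  have hstep1 : EE a b (fun S T => Dn u t δ K gd S T ^ 2) ≤
      ∑ S, mu a S * (2 * K ^ 2 * (∏ j, (1 - b j)) * gd S *
        ∑ j, ∑ l, (if j ≠ l then b j * b l * (pic u t δ S j l) ^ 2 * 1 else 0)) := by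
    unfold EE
    apply sum_le_sum; intro S _
    rw [← pair_sum b (fun _ => 1) (fun j l => (pic u t δ S j l) ^ 2)]
    rw [mul_sum, mul_sum]
    apply sum_le_sum; intro T _
    have h2 := mul_le_mul_of_nonneg_left (hpt S T) (mul_nonneg (hmua S) (hmub T))
    refine h2.trans (le_of_eq ?_)
    unfold mu
    ring
  refine hstep1.trans ?_
  -- bound the inner double sum
  have h3n : (0 : ℝ) < 3 ^ (Fintype.card ι) := by positivity
  have hinner : ∀ S, ∑ j, ∑ l, (if j ≠ l then b j * b l * (pic u t δ S j l) ^ 2 * 1 else 0) ≤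
      (∑ j, b j) * N * ((∑ v : ι → Fin 3, ∑ v' : ι → Fin 3,
        (if |Ls u S v - Ls u S v'| < 2 * δ then (1 : ℝ) else 0)) / 9 ^ (Fintype.card ι)) := by
    intro S
    have hsq : ∀ j l, (pic u t δ S j l) ^ 2 ≤ (∑ v : ι → Fin 3, ∑ v' : ι → Fin 3,
        (if |Ls u S v - Ls u S v'| < 2 * δ then (1 : ℝ) else 0) *
        (if cl u t δ (part S v 2, l) = cl u t δ (part S v 1, j) then (1 : ℝ) else 0)) /
        9 ^ (Fintype.card ι) := by
      intro j l
      unfold pic
      rw [div_pow, ← pow_mul, mul_comm (Fintype.card ι) 2, pow_mul, show (3 : ℝ) ^ 2 = 9 by norm_num,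
        div_le_div_iff_of_pos_right (by positivity), sq, sum_mul_sum]
      apply sum_le_sum; intro v _
      apply sum_le_sum; intro v' _
      by_cases hc : cl u t δ (part S v 1, j) = cl u t δ (part S v 2, l)
      · by_cases hc' : cl u t δ (part S v' 1, j) = cl u t δ (part S v' 2, l)
        · rw [if_pos hc, if_pos hc', if_pos hc.symm]
          have hL : ∀ w : ι → Fin 3, Ls u S w = (∑ i ∈ part S w 1, u i) - ∑ i ∈ part S w 2, u i := by
            intro w
            unfold Ls part
            rw [sum_filter, sum_filter, ← sum_sub_distrib]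
            apply sum_congr rfl; intro i _
            generalize w i = x
            fin_cases x <;> simp [sg]
          have hcl : ∀ w : ι → Fin 3, cl u t δ (part S w 1, j) = cl u t δ (part S w 2, l) →
              |Ls u S w + (t j - t l)| < δ := by
            intro w hw
            unfold cl at hw
            have := Int.abs_sub_lt_one_of_floor_eq_floor hw
            rw [← sub_div, abs_div, abs_of_pos hδ, div_lt_one hδ] at this
            rw [hL w]
            have e : (∑ i ∈ part S w 1, u i) - ∑ i ∈ part S w 2, u i + (t j - t l) =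
              (∑ i ∈ part S w 1, u i) + t j - ((∑ i ∈ part S w 2, u i) + t l) := by ring
            rw [e]
            exact this
          have h3 := hcl v hc
          have h4 := hcl v' hc'
          have h5 : |Ls u S v - Ls u S v'| < 2 * δ := by
            rw [abs_lt] at h3 h4 ⊢
            constructor <;> linarith [h3.1, h3.2, h4.1, h4.2]
          rw [if_pos h5]
        · rw [if_neg hc']
          have : 0 ≤ (if |Ls u S v - Ls u S v'| < 2 * δ then (1 : ℝ) else 0) *
            (if cl u t δ (part S v 2, l) = cl u t δ (part S v 1, j) then (1 : ℝ) else 0) := by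
            split_ifs <;> norm_num
          linarith
      · rw [if_neg hc]
        have : 0 ≤ (if |Ls u S v - Ls u S v'| < 2 * δ then (1 : ℝ) else 0) *
            (if cl u t δ (part S v 2, l) = cl u t δ (part S v 1, j) then (1 : ℝ) else 0) := by
            split_ifs <;> norm_num
        linarith
    have h9 : (0 : ℝ) < 9 ^ (Fintype.card ι) := by positivity
    calc ∑ j, ∑ l, (if j ≠ l then b j * b l * (pic u t δ S j l) ^ 2 * 1 else 0)
        ≤ ∑ j, ∑ l, b j * b l * ((∑ v : ι → Fin 3, ∑ v' : ι → Fin 3,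
        (if |Ls u S v - Ls u S v'| < 2 * δ then (1 : ℝ) else 0) *
        (if cl u t δ (part S v 2, l) = cl u t δ (part S v 1, j) then (1 : ℝ) else 0)) /
        9 ^ (Fintype.card ι)) := by
          apply sum_le_sum; intro j _
          apply sum_le_sum; intro l _
          have h2 := mul_le_mul_of_nonneg_left (hsq j l) (mul_nonneg (hb j) (hb l))
          split_ifs
          · rw [mul_one]; exact h2
          · refine le_trans ?_ h2
            have := hb j; have := hb l
            positivity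
      _ = (∑ v : ι → Fin 3, ∑ v' : ι → Fin 3, (if |Ls u S v - Ls u S v'| < 2 * δ then (1 : ℝ) else 0) *
            ∑ j, b j * ∑ l, (if cl u t δ (part S v 2, l) = cl u t δ (part S v 1, j) then b l else 0)) /
            9 ^ (Fintype.card ι) := by
          have e5 : ∀ j l, b j * b l * ((∑ v : ι → Fin 3, ∑ v' : ι → Fin 3,
            (if |Ls u S v - Ls u S v'| < 2 * δ then (1 : ℝ) else 0) *
            (if cl u t δ (part S v 2, l) = cl u t δ (part S v 1, j) then (1 : ℝ) else 0)) /
            9 ^ (Fintype.card ι)) = ∑ v : ι → Fin 3, ∑ v' : ι → Fin 3,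
            ((if |Ls u S v - Ls u S v'| < 2 * δ then (1 : ℝ) else 0) * (b j *
            (if cl u t δ (part S v 2, l) = cl u t δ (part S v 1, j) then b l else 0))) /
            9 ^ (Fintype.card ι) := by
            intro j l
            rw [mul_div_assoc', mul_sum, sum_div]
            apply sum_congr rfl; intro v _
            rw [mul_sum, sum_div]
            apply sum_congr rfl; intro v' _
            congr 1
            by_cases hc : cl u t δ (part S v 2, l) = cl u t δ (part S v 1, j)
            · simp only [hc, if_true]; ring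
            · simp only [hc, if_false]; ring
          simp only [e5]
          have e6 : ∀ j : τ, ∑ l, ∑ v : ι → Fin 3, ∑ v' : ι → Fin 3,
            ((if |Ls u S v - Ls u S v'| < 2 * δ then (1 : ℝ) else 0) * (b j *
            (if cl u t δ (part S v 2, l) = cl u t δ (part S v 1, j) then b l else 0))) /
            9 ^ (Fintype.card ι) = ∑ v : ι → Fin 3, ∑ v' : ι → Fin 3, ∑ l,
            ((if |Ls u S v - Ls u S v'| < 2 * δ then (1 : ℝ) else 0) * (b j *
            (if cl u t δ (part S v 2, l) = cl u t δ (part S v 1, j) then b l else 0))) /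
            9 ^ (Fintype.card ι) := by
            intro j
            rw [sum_comm]
            apply sum_congr rfl; intro v _
            rw [sum_comm]
          simp only [e6]
          rw [sum_comm, sum_div]
          apply sum_congr rfl; intro v _
          rw [sum_comm, sum_div]
          apply sum_congr rfl; intro v' _
          rw [mul_sum, sum_div]
          apply sum_congr rfl; intro j _
          rw [mul_sum, mul_sum, sum_div]
      _ ≤ (∑ v : ι → Fin 3, ∑ v' : ι → Fin 3, (if |Ls u S v - Ls u S v'| < 2 * δ then (1 : ℝ) else 0) *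
            ((∑ j, b j) * N)) / 9 ^ (Fintype.card ι) := by
          rw [div_le_div_iff_of_pos_right h9]
          apply sum_le_sum; intro v _
          apply sum_le_sum; intro v' _
          apply mul_le_mul_of_nonneg_left _ (by split_ifs <;> norm_num)
          rw [sum_mul]
          apply sum_le_sum; intro j _
          exact mul_le_mul_of_nonneg_left (hN _ _) (hb j)
      _ = _ := by
          simp only [← sum_mul]
          ring
  have hstep2 : ∑ S, mu a S * (2 * K ^ 2 * (∏ j, (1 - b j)) * gd S *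
        ∑ j, ∑ l, (if j ≠ l then b j * b l * (pic u t δ S j l) ^ 2 * 1 else 0)) ≤
      ∑ S, 2 * K ^ 2 * (∏ j, (1 - b j)) * ((∑ j, b j) * N) * ((mu a S * (gd S *
        ∑ v : ι → Fin 3, ∑ v' : ι → Fin 3,
        (if |Ls u S v - Ls u S v'| < 2 * δ then (1 : ℝ) else 0))) / 9 ^ (Fintype.card ι)) := by
    apply sum_le_sum; intro S _
    have h2 : 0 ≤ mu a S * (2 * K ^ 2 * (∏ j, (1 - b j)) * gd S) := by
      have := hmua S; have := hg0 S; positivity
    have h3 := mul_le_mul_of_nonneg_left (hinner S) h2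
    refine le_trans (le_of_eq ?_) (h3.trans (le_of_eq ?_)) <;> ring
  refine hstep2.trans ?_
  rw [← mul_sum, ← sum_div]
  have h3 : 0 ≤ 2 * K ^ 2 * (∏ j, (1 - b j)) * ((∑ j, b j) * N) := by positivity
  calc _ ≤ 2 * K ^ 2 * (∏ j, (1 - b j)) * ((∑ j, b j) * N) * B₀ := mul_le_mul_of_nonneg_left hB h3
    _ = _ := by ring

end

end Pool.Agent.Helper35
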