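import Pool.Agent.Helper35.Core2

set_option autoImplicit false

open Finset

namespace Pool.Agent.Helper35

section

variable {ι τ : Type} [Fintype ι] [DecidableEq ι] [Fintype τ] [DecidableEq τ]

/-- Cauchy-Schwarz lower bound for the collision mass -/
lemma Z_lower {a u : ι → ℝ} {b t : τ → ℝ} {δ m : ℝ} (h0 : ∀ i, 0 ≤ a i) (hb : ∀ j, 0 ≤ b j)
    (K' : ℕ) (hK0 : 0 < K') (hm0 : 0 ≤ m)
    (hK : m ≤ ∑ p : Finset ι × τ, (if 0 ≤ cl u t δ p ∧ cl u t δ p < K' then pw a b p else 0)) :
    m ^ 2 / K' ≤ ∑ p, ∑ q, (if cl u t δ p = cl u t δ q then pw a b p * pw a b q else 0) := by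
  classical
  set G : ℤ → ℝ := fun k => ∑ p : Finset ι × τ, (if cl u t δ p = k then pw a b p else 0) with hG
  set I : Finset ℤ := Finset.Ico 0 (K' : ℤ) with hI
  have hIc : (#I : ℝ) = K' := by rw [hI]; simp
  have h1 : ∑ p : Finset ι × τ, (if 0 ≤ cl u t δ p ∧ cl u t δ p < K' then pw a b p else 0) = ∑ k ∈ I, G k := by
    rw [hG, sum_comm]
    apply sum_congr rfl; intro p _
    rw [sum_ite_eq]
    simp [hI, mem_Ico]
  have h2 : (∑ k ∈ I, G k) ^ 2 ≤ (#I : ℝ) * ∑ k ∈ I, G k ^ 2 := sq_sum_le_card_mul_sum_sq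
  have h3 : ∑ k ∈ I, G k ^ 2 ≤ ∑ p, ∑ q, (if cl u t δ p = cl u t δ q then pw a b p * pw a b q else 0) := by
    have e : ∀ k, G k ^ 2 = ∑ p, ∑ q, (if cl u t δ p = k ∧ cl u t δ q = k then pw a b p * pw a b q else 0) := by
      intro k
      rw [hG, sq, sum_mul_sum]
      apply sum_congr rfl; intro p _
      apply sum_congr rfl; intro q _
      by_cases h1 : cl u t δ p = k <;> by_cases h2 : cl u t δ q = k <;> simp [h1, h2]
    simp only [e]
    rw [sum_comm]
    apply sum_le_sum; intro p _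
    rw [sum_comm]
    apply sum_le_sum; intro q _
    have hpq : 0 ≤ pw a b p * pw a b q := mul_nonneg (pw_nonneg h0 hb p) (pw_nonneg h0 hb q)
    by_cases hc : cl u t δ p = cl u t δ q
    · rw [if_pos hc]
      have e2 : ∀ k, (if cl u t δ p = k ∧ cl u t δ q = k then pw a b p * pw a b q else 0) =
          (if cl u t δ q = k then pw a b p * pw a b q else 0) := by
        intro k; rw [hc]; simp
      simp only [e2]
      rw [sum_ite_eq]
      split_ifs
      · exact le_rfl
      · exact hpq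
    · rw [if_neg hc]
      apply le_of_eq
      apply sum_eq_zero; intro k _
      rw [if_neg]
      rintro ⟨h1, h2⟩
      exact hc (h1.trans h2.symm)
  have hKr : (0 : ℝ) < K' := by exact_mod_cast hK0
  rw [div_le_iff₀ hKr]
  rw [← h1, hIc] at h2
  have h4 : m ^ 2 ≤ (∑ p : Finset ι × τ, (if 0 ≤ cl u t δ p ∧ cl u t δ p < K' then pw a b p else 0)) ^ 2 :=
    pow_le_pow_left₀ hm0 hK 2
  nlinarith

lemma prod_compare {a : ι → ℝ} (h0 : ∀ i, 0 ≤ a i) (h12 : ∀ i, a i ≤ 1 / 2)
    (hsq : ∑ i, a i ^ 2 ≤ 1 / 2) :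
    1 / 2 ≤ (∏ i, (1 - a i)) * (∏ i, (1 + a i / 3)) ^ 3 := by
  rw [← prod_pow, ← prod_mul_distrib]
  have h1 : ∏ i, (1 - a i ^ 2) ≤ ∏ i, ((1 - a i) * (1 + a i / 3) ^ 3) := by
    apply prod_le_prod
    · intro i _; have := h0 i; have := h12 i; nlinarith
    · intro i _
      have h2 := h0 i; have h3 := h12 i
      have h4 : 1 + a i ≤ (1 + a i / 3) ^ 3 := by
        have : 0 ≤ a i ^ 2 := by positivity
        have : 0 ≤ a i ^ 3 := by positivity
        nlinarith
      have h5 : (1 - a i) * (1 + a i) ≤ (1 - a i) * (1 + a i / 3) ^ 3 :=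
        mul_le_mul_of_nonneg_left h4 (by linarith)
      nlinarith
  refine le_trans ?_ h1
  have h2 : 1 - ∑ i, a i ^ 2 ≤ ∏ i, (1 - a i ^ 2) := by
    have aux : ∀ s : Finset ι, 1 - ∑ i ∈ s, a i ^ 2 ≤ ∏ i ∈ s, (1 - a i ^ 2) ∧
        ∏ i ∈ s, (1 - a i ^ 2) ≤ 1 := by
      intro s
      induction s using Finset.induction_on with
      | empty => simp
      | insert i s hi ih =>
        rw [sum_insert hi, prod_insert hi]
        have hi0 : 0 ≤ a i ^ 2 := by positivity
        have hi1 : a i ^ 2 ≤ 1 := by have := h0 i; have := h12 i; nlinarith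
        have hs : 0 ≤ ∑ j ∈ s, a j ^ 2 := sum_nonneg fun j _ => by positivity
        have hp0 : 0 ≤ ∏ j ∈ s, (1 - a j ^ 2) := prod_nonneg fun j _ => by
          have := h0 j; have := h12 j; nlinarith
        constructor
        · nlinarith [ih.1, ih.2]
        · nlinarith [ih.1, ih.2]
    exact (aux univ).1
  linarith

/-- The one-window theorem. -/
theorem core {a u : ι → ℝ} {b t : τ → ℝ} {δ N B₀ β : ℝ} (hδ : 0 < δ)
    (h0 : ∀ i, 0 ≤ a i) (h12 : ∀ i, a i ≤ 1 / 2) (hsq : ∑ i, a i ^ 2 ≤ 1 / 2)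
    (hb : ∀ j, 0 ≤ b j) (hb12 : ∀ j, b j ≤ 1 / 2) (hH : 0 < ∑ j, b j) (hN0 : 0 ≤ N)
    (hN : ∀ (X : Finset ι) (k : ℤ), ∑ j, (if cl u t δ (X, j) = k then b j else 0) ≤ N)
    (K' : ℕ) (hK0 : 0 < K')
    (hK : (∑ j, b j) * (∏ i, (1 + a i / 3)) / 2 ≤
      ∑ p : Finset ι × τ, (if 0 ≤ cl u t δ p ∧ cl u t δ p < K' then pw a b p else 0))
    {gd : Finset ι → ℝ} (hg0 : ∀ S, 0 ≤ gd S) (hg1 : ∀ S, gd S ≤ 1)
    (hB : (∑ S, mu a S * (gd S * ∑ v : ι → Fin 3, ∑ v' : ι → Fin 3,
      (if |Ls u S v - Ls u S v'| < 2 * δ then (1 : ℝ) else 0))) / 9 ^ (Fintype.card ι) ≤ B₀)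
    (hbad : ∑ S, mu a S * (1 - gd S) ≤ β) :
    ∃ D : Finset ι → Finset τ → ℝ, (∀ S T, 0 ≤ D S T) ∧ EE a b D ≤ 1 ∧
      1 - (4 * K' / (∑ j, b j) ^ 2 * ((∑ j, b j) * N * (∑ i, a i ^ 2) / 3 + ∑ j, b j ^ 2) +
        8 * K' * N * β / (∑ j, b j)) ≤ EE a b D ∧
      EE a b (fun S T => D S T ^ 2) ≤
        128 * (N * K') * (B₀ * K') / ((∏ j, (1 - b j)) * (∑ j, b j) ^ 3) ∧
      ∀ η₂ : ℝ, 3 * (4 * K' / (∑ j, b j) ^ 2 *
        ((∑ j, b j) * N * (∑ i, a i ^ 2) / 3 + ∑ j, b j ^ 2)) ≤ η₂ →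
        ∀ f : Finset ι → Finset τ → ℝ, (∀ S T, 0 ≤ f S T) → (∀ S T, f S T ≤ 1) →
        η₂ < EE a b (fun S T => f S T * D S T) →
        ∃ (R : Finset ι) (p q r : Finset ι × τ), vl R p q ∧ vl R p r ∧ vl R q r ∧
          cl u t δ p = cl u t δ q ∧ cl u t δ p = cl u t δ r ∧
          EE a b (fun S T => f S T * D S T) - η₂ ≤
            (f (R ∪ p.1 ∪ q.1) {p.2, q.2} + f (R ∪ p.1 ∪ r.1) {p.2, r.2} +
              f (R ∪ q.1 ∪ r.1) {q.2, r.2}) / 3 := by
  classical
  set H := ∑ j, b j with hHdef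
  set F := ∏ i, (1 + a i / 3) with hF
  set ca := ∏ i, (1 - a i) with hca
  set cb := ∏ j, (1 - b j) with hcb
  have hF0 : 0 < F := prod_pos fun i _ => by have := h0 i; positivity
  have hca0 : 0 < ca := prod_pos fun i _ => by have := h12 i; linarith
  have hcb0 : 0 < cb := prod_pos fun j _ => by have := hb12 j; linarith
  have hKr : (0 : ℝ) < K' := by exact_mod_cast hK0
  have h1 : ∀ i, a i ≤ 1 := fun i => by have := h12 i; linarith
  have hb1 : ∀ j, b j ≤ 1 := fun j => by have := hb12 j; linarith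
  have hcomp : 1 / 2 ≤ ca * F ^ 3 := prod_compare h0 h12 hsq
  set Z := ∑ p, ∑ q, (if cl u t δ p = cl u t δ q then pw a b p * pw a b q else 0) with hZ
  have hZlow : (H * F / 2) ^ 2 / K' ≤ Z := Z_lower h0 hb K' hK0 (by positivity) hK
  have hZ0 : 0 < Z := lt_of_lt_of_le (by positivity) hZlow
  set E := E2 a u b t δ (fun _ _ _ => 1) with hE
  have hEeq : E = F * Z := E2_one a u b t δ
  have hE0 : 0 < E := by rw [hEeq]; positivity
  have hElow : F ^ 3 * H ^ 2 / (4 * K') ≤ E := by
    rw [hEeq]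
    calc F ^ 3 * H ^ 2 / (4 * K') = F * ((H * F / 2) ^ 2 / K') := by ring
      _ ≤ F * Z := mul_le_mul_of_nonneg_left hZlow hF0.le
  set κ₁ := 4 * (K' : ℝ) / H ^ 2 * (H * N * (∑ i, a i ^ 2) / 3 + ∑ j, b j ^ 2) with hκ₁
  have hinv : E2 a u b t δ (fun R p q => if vl R p q then 0 else 1) ≤ κ₁ * E := by
    have h2 := E2_invalid (δ := δ) h0 hb hN0 hN
    refine h2.trans ?_
    have h3 : 0 ≤ H * N * (∑ i, a i ^ 2) / 3 + ∑ j, b j ^ 2 := by
      have : 0 ≤ ∑ i, a i ^ 2 := sum_nonneg fun _ _ => by positivity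
      have : 0 ≤ ∑ j, b j ^ 2 := sum_nonneg fun _ _ => by positivity
      positivity
    calc F ^ 3 * (H * N * (∑ i, a i ^ 2) / 3 + ∑ j, b j ^ 2)
        = κ₁ * (F ^ 3 * H ^ 2 / (4 * K')) := by rw [hκ₁]; field_simp
      _ ≤ κ₁ * E := mul_le_mul_of_nonneg_left hElow (by rw [hκ₁]; positivity)
  set K := 1 / (ca * cb * E) with hKdef
  have hK1 : K * ca * cb = 1 / E := by rw [hKdef]; field_simp
  have hKpos : 0 < K := by rw [hKdef]; positivity
  have hEEf : ∀ f : Finset ι → Finset τ → ℝ, EE a b (fun S T => f S T * Dn u t δ K gd S T) =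
      E2 a u b t δ (fun R p q => if vl R p q then
          gd (R ∪ p.1 ∪ q.1) * f (R ∪ p.1 ∪ q.1) {p.2, q.2} else 0) / E := by
    intro f
    rw [EE_Dn, ← hca, ← hcb, hK1]
    ring
  have hEE1 : EE a b (Dn u t δ K gd) = E2 a u b t δ (fun R p q => if vl R p q then
          gd (R ∪ p.1 ∪ q.1) else 0) / E := by
    have h2 := hEEf (fun _ _ => 1)
    simp only [one_mul, mul_one] at h2
    exact h2
  refine ⟨Dn u t δ K gd, ?_, ?_, ?_, ?_, ?_⟩
  · intro S T
    unfold Dn
    apply mul_nonneg (mul_nonneg hKpos.le (hg0 S))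
    split_ifs
    · exact sum_nonneg fun x _ => pic_nonneg _ _ _ _ _ _
    · exact le_rfl
  · rw [hEE1, div_le_one hE0]
    apply E2_mono h0 hb
    intro R p q
    split_ifs
    · exact hg1 _
    · norm_num
  · -- lower bound
    have h2 : E = E2 a u b t δ (fun R p q => if vl R p q then gd (R ∪ p.1 ∪ q.1) else 0) +
        (E2 a u b t δ (fun R p q => if vl R p q then 0 else 1) +
        E2 a u b t δ (fun R p q => if vl R p q then 1 - gd (R ∪ p.1 ∪ q.1) else 0)) := by
      rw [← E2_add, ← E2_add, hE]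
      congr 1
      funext R p q
      split_ifs <;> ring
    have h3 : E2 a u b t δ (fun R p q => if vl R p q then 1 - gd (R ∪ p.1 ∪ q.1) else 0) ≤
        H * N * (β / ca) := by
      have h4 := E2_le (Ψ := fun R p q => if vl R p q then 1 - gd (R ∪ p.1 ∪ q.1) else 0)
        (Θ := fun R X Y => if Disjoint R X ∧ Disjoint R Y ∧ Disjoint X Y then 1 - gd (R ∪ X ∪ Y) else 0)
        h0 hb hN (fun R X Y => by
          split_ifs
          · linarith [hg1 (R ∪ X ∪ Y)]
          · exact le_rfl)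
        (fun R p q => by
          by_cases hv : vl R p q
          · rw [if_pos hv, if_pos ⟨hv.1, hv.2.1, hv.2.2.1⟩]
          · rw [if_neg hv]
            split_ifs
            · linarith [hg1 (R ∪ p.1 ∪ q.1)]
            · exact le_rfl)
      refine h4.trans ?_
      apply mul_le_mul_of_nonneg_left _ (by positivity)
      have e : ∑ R, ∑ X, ∑ Y, gw a R * gw a X * gw a Y *
          (if Disjoint R X ∧ Disjoint R Y ∧ Disjoint X Y then 1 - gd (R ∪ X ∪ Y) else 0) =
          ∑ R, ∑ X, ∑ Y, (if Disjoint R X ∧ Disjoint R Y ∧ Disjoint X Y then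
          ((∏ i ∈ R, (a i / 3)) * (∏ i ∈ X, (a i / 3)) * (∏ i ∈ Y, (a i / 3))) *
            (1 - gd (R ∪ X ∪ Y)) else 0) := by
        apply sum_congr rfl; intro R _
        apply sum_congr rfl; intro X _
        apply sum_congr rfl; intro Y _
        unfold gw
        split_ifs <;> ring
      rw [e, conv (fun i => a i / 3) (fun R X Y => 1 - gd (R ∪ X ∪ Y))]
      simp only [part_union]
      rw [le_div_iff₀ hca0]
      refine le_trans (le_of_eq ?_) hbad
      have h3n : (0 : ℝ) < 3 ^ (Fintype.card ι) := by positivity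
      rw [sum_div, sum_mul]
      apply sum_congr rfl; intro S _
      rw [sum_const, card_univ, nsmul_eq_mul]
      unfold mu
      have e3 : ∏ i ∈ S, (3 * (a i / 3)) = ∏ i ∈ S, a i := by
        apply prod_congr rfl; intro i _; ring
      rw [e3]
      simp only [Fintype.card_pi, Fintype.card_fin, prod_const, card_univ]
      push_cast
      rw [← hca]
      field_simp
    have h5 : H * N * (β / ca) ≤ 8 * K' * N * β / H * E := by
      have hβ0 : 0 ≤ β := le_trans (sum_nonneg fun S _ => mul_nonneg (mu_nonneg h0 h1 S)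
        (by linarith [hg1 S])) hbad
      have h6 : H * N * (β / ca) ≤ 8 * K' * N * β / H * (F ^ 3 * H ^ 2 / (4 * K')) := by
        have e : 8 * K' * N * β / H * (F ^ 3 * H ^ 2 / (4 * K')) = H * N * (β * (2 * F ^ 3)) := by
          field_simp
          ring
        rw [e]
        apply mul_le_mul_of_nonneg_left _ (by positivity)
        rw [div_le_iff₀ hca0]
        have : β * (2 * F ^ 3) * ca = β * (2 * (ca * F ^ 3)) := by ring
        rw [this]
        nlinarith
      exact h6.trans (mul_le_mul_of_nonneg_left hElow (by positivity))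
    rw [hEE1, le_div_iff₀ hE0]
    have h6 : (1 - (κ₁ + 8 * K' * N * β / H)) * E = E - κ₁ * E - 8 * K' * N * β / H * E := by ring
    rw [h6]
    linarith
  · -- second moment
    have h2 := EE_Dn_sq (K := K) hδ h0 h1 hb hb1 hN0 hN hg0 hg1 hB
    have hB0 : 0 ≤ B₀ := by
      refine le_trans ?_ hB
      apply div_nonneg _ (by positivity)
      apply sum_nonneg; intro S _
      apply mul_nonneg (mu_nonneg h0 h1 S)
      apply mul_nonneg (hg0 S)
      apply sum_nonneg; intro v _
      apply sum_nonneg; intro v' _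
      split_ifs <;> norm_num
    refine h2.trans ?_
    rw [← hcb, ← hHdef]
    have hKle : K ≤ 8 * K' / (cb * H ^ 2) := by
      rw [hKdef, div_le_div_iff₀ (by positivity) (by positivity), one_mul]
      have h3 : ca * (F ^ 3 * H ^ 2 / (4 * K')) ≤ ca * E := mul_le_mul_of_nonneg_left hElow hca0.le
      have h4 : H ^ 2 / (8 * K') ≤ ca * E := by
        refine le_trans ?_ h3
        have e : ca * (F ^ 3 * H ^ 2 / (4 * K')) = (ca * F ^ 3) * (H ^ 2 / (4 * K')) := by ring
        rw [e]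
        have e2 : H ^ 2 / (8 * (K' : ℝ)) = 1 / 2 * (H ^ 2 / (4 * K')) := by
          field_simp; norm_num
        rw [e2]
        exact mul_le_mul_of_nonneg_right hcomp (by positivity)
      rw [div_le_iff₀ (by positivity)] at h4
      calc cb * H ^ 2 ≤ cb * (ca * E * (8 * K')) := mul_le_mul_of_nonneg_left h4 hcb0.le
        _ = _ := by ring
    have hKsq : K ^ 2 ≤ (8 * K' / (cb * H ^ 2)) ^ 2 := pow_le_pow_left₀ hKpos.le hKle 2
    calc 2 * K ^ 2 * cb * (H * N * B₀) ≤ 2 * (8 * K' / (cb * H ^ 2)) ^ 2 * cb * (H * N * B₀) := by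
          apply mul_le_mul_of_nonneg_right _ (by positivity)
          apply mul_le_mul_of_nonneg_right _ hcb0.le
          linarith
      _ = 128 * (N * K') * (B₀ * K') / (cb * H ^ 3) := by
          field_simp
          ring
  · -- existence of the triple
    intro η₂ hη₂ f hf0 hf1 hlt
    set τ' := EE a b (fun S T => f S T * Dn u t δ K gd S T) - η₂ with hτ'
    have hτpos : 0 < τ' := by rw [hτ']; linarith
    set Ψ : Finset ι → (Finset ι × τ) → (Finset ι × τ) → ℝ := fun R p q =>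
      (if vl R p q then gd (R ∪ p.1 ∪ q.1) * f (R ∪ p.1 ∪ q.1) {p.2, q.2} else 0) +
      (-3) * (if vl R p q then 0 else 1) with hΨ
    have hEΨ : τ' * E ≤ E2 a u b t δ Ψ := by
      rw [hΨ, E2_add, E2_smul]
      have h2 := hEEf f
      have h3 : E2 a u b t δ (fun R p q => if vl R p q then
          gd (R ∪ p.1 ∪ q.1) * f (R ∪ p.1 ∪ q.1) {p.2, q.2} else 0) =
          EE a b (fun S T => f S T * Dn u t δ K gd S T) * E := by
        rw [h2]; field_simp
      rw [h3, hτ', sub_mul]
      have h4 : 3 * κ₁ * E ≤ η₂ * E := mul_le_mul_of_nonneg_right hη₂ hE0.le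
      nlinarith
    have hsymm : ∀ p q, (∑ R, gw a R * Ψ R p q) = ∑ R, gw a R * Ψ R q p := by
      intro p q
      apply sum_congr rfl; intro R _
      have hv : vl R p q ↔ vl R q p := by
        unfold vl
        constructor
        · rintro ⟨h1, h2, h3, h4⟩; exact ⟨h2, h1, h3.symm, h4.symm⟩
        · rintro ⟨h1, h2, h3, h4⟩; exact ⟨h2, h1, h3.symm, h4.symm⟩
      have hu : R ∪ p.1 ∪ q.1 = R ∪ q.1 ∪ p.1 := by
        rw [union_assoc, union_assoc, union_comm p.1]
      have hpr : ({p.2, q.2} : Finset τ) = {q.2, p.2} := pair_comm _ _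
      rw [hΨ]
      simp only
      by_cases h : vl R p q
      · have h' := hv.1 h
        rw [if_pos h, if_pos h', if_pos h, if_pos h', hu, hpr]
      · have h' : ¬ vl R q p := fun h2 => h (hv.2 h2)
        rw [if_neg h, if_neg h', if_neg h, if_neg h']
    obtain ⟨p, q, r, hpq, hpr, hsum⟩ := exists_triple (pw a b) (pw_nonneg h0 hb) (cl u t δ)
      (fun p q => ∑ R, gw a R * Ψ R p q) Z (F * τ') hZ hZ0 (by
        have e : ∑ p, ∑ q, (if cl u t δ p = cl u t δ q then pw a b p * pw a b q *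
            ∑ R, gw a R * Ψ R p q else 0) = E2 a u b t δ Ψ := by
          unfold E2
          have e2 : ∀ p q : Finset ι × τ, (if cl u t δ p = cl u t δ q then pw a b p * pw a b q *
            ∑ R, gw a R * Ψ R p q else 0) = ∑ R, (if cl u t δ p = cl u t δ q then
              gw a R * (pw a b p * pw a b q) * Ψ R p q else 0) := by
            intro p q
            split_ifs
            · rw [mul_sum]
              apply sum_congr rfl; intro R _; ring
            · simp
          simp only [e2]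
          have e3 : ∀ p : Finset ι × τ, ∑ q, ∑ R, (if cl u t δ p = cl u t δ q then
              gw a R * (pw a b p * pw a b q) * Ψ R p q else 0) =
              ∑ R, ∑ q, (if cl u t δ p = cl u t δ q then
              gw a R * (pw a b p * pw a b q) * Ψ R p q else 0) := fun p => sum_comm
          simp only [e3]
          rw [sum_comm]
        rw [e]
        rw [hEeq] at hEΨ
        linarith)
    -- choose R
    have hex : ∃ R, 3 * τ' ≤ Ψ R p q + Ψ R p r + Ψ R q r := by
      by_contra hcon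
      push Not at hcon
      have h2 : ∑ R, gw a R * (Ψ R p q + Ψ R p r + Ψ R q r) < ∑ R, gw a R * (3 * τ') := by
        apply sum_lt_sum
        · intro R _
          exact mul_le_mul_of_nonneg_left (hcon R).le (gw_nonneg h0 R)
        · refine ⟨∅, mem_univ _, ?_⟩
          have : gw a (∅ : Finset ι) = 1 := by simp [gw]
          rw [this, one_mul, one_mul]
          exact hcon ∅
      rw [← sum_mul, sum_gw, ← hF] at h2
      have e : ∑ R, gw a R * (Ψ R p q + Ψ R p r + Ψ R q r) =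
          (∑ R, gw a R * Ψ R p q) + (∑ R, gw a R * Ψ R p r) + ∑ R, gw a R * Ψ R q r := by
        rw [← sum_add_distrib, ← sum_add_distrib]
        apply sum_congr rfl; intro R _; ring
      rw [e] at h2
      linarith
    obtain ⟨R, hR⟩ := hex
    have hΨle : ∀ p q, Ψ R p q ≤ 1 := by
      intro p q
      rw [hΨ]; simp only
      split_ifs
      · have := hg1 (R ∪ p.1 ∪ q.1); have := hg0 (R ∪ p.1 ∪ q.1)
        have := hf1 (R ∪ p.1 ∪ q.1) {p.2, q.2}; have := hf0 (R ∪ p.1 ∪ q.1) {p.2, q.2}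
        nlinarith
      · norm_num
    have hΨinv : ∀ p q, ¬ vl R p q → Ψ R p q = -3 := by
      intro p q h
      rw [hΨ]; simp only
      rw [if_neg h, if_neg h]; norm_num
    have hΨv : ∀ p q, vl R p q → Ψ R p q ≤ f (R ∪ p.1 ∪ q.1) {p.2, q.2} := by
      intro p q h
      rw [hΨ]; simp only
      rw [if_pos h, if_pos h]
      have := hg1 (R ∪ p.1 ∪ q.1); have := hg0 (R ∪ p.1 ∪ q.1)
      have := hf0 (R ∪ p.1 ∪ q.1) {p.2, q.2}
      nlinarith
    have v1 : vl R p q := by
      by_contra h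
      have := hΨinv p q h; have := hΨle p r; have := hΨle q r
      linarith
    have v2 : vl R p r := by
      by_contra h
      have := hΨinv p r h; have := hΨle p q; have := hΨle q r
      linarith
    have v3 : vl R q r := by
      by_contra h
      have := hΨinv q r h; have := hΨle p r; have := hΨle p q
      linarith
    refine ⟨R, p, q, r, v1, v2, v3, hpq, hpr, ?_⟩
    have := hΨv p q v1; have := hΨv p r v2; have := hΨv q r v3
    linarith

end

end Pool.Agent.Helper35
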