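import Pool.Agent.Helper35.Basic

set_option autoImplicit false

open Finset

namespace Pool.Agent.Helper35

/-- log-size of a finite set of primes -/
noncomputable def lg (S : Finset ℕ) : ℝ := ∑ p ∈ S, Real.log p

lemma lg_union {S T : Finset ℕ} (h : Disjoint S T) : lg (S ∪ T) = lg S + lg T := by
  unfold lg; rw [sum_union h]

/-- a cube of finite sets of primes indexed by a finite group of exponent three -/
structure Cube {G : Type} [AddCommGroup G] (P : Finset ℕ) (δ : ℝ) (S : G → Finset ℕ) : Prop where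
  sub : ∀ a, S a ⊆ P
  inj : Function.Injective S
  line : ∀ a b c, a + c = b + b → S a ∪ S b = S b ∪ S c ∧ S a ∪ S b = S a ∪ S c
  close : ∀ a b, |lg (S a) - lg (S b)| ≤ δ

lemma Cube.union_const {G : Type} [AddCommGroup G] {P Q T : Finset ℕ} {δ : ℝ} {S : G → Finset ℕ}
    (h : Cube P δ S) (hPQ : Disjoint P Q) (hT : T ⊆ Q) : Cube (P ∪ Q) δ (fun a => S a ∪ T) where
  sub a := union_subset_union (h.sub a) hT
  inj a b hab := by
    apply h.inj
    have hda : Disjoint (S a) T := disjoint_of_subset_left (h.sub a) (disjoint_of_subset_right hT hPQ)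
    have hdb : Disjoint (S b) T := disjoint_of_subset_left (h.sub b) (disjoint_of_subset_right hT hPQ)
    have h1 : (S a ∪ T) \ T = S a := union_sdiff_cancel_right hda
    have h2 : (S b ∪ T) \ T = S b := union_sdiff_cancel_right hdb
    rw [← h1, ← h2]
    simp only at hab
    rw [hab]
  line a b c habc := by
    obtain ⟨h1, h2⟩ := h.line a b c habc
    have e : ∀ x y : G, (S x ∪ T) ∪ (S y ∪ T) = (S x ∪ S y) ∪ T := by
      intro x y
      ext p; simp only [mem_union]; tauto
    simp only [e]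
    rw [← h1, ← h2]
    exact ⟨rfl, rfl⟩
  close a b := by
    have hda : Disjoint (S a) T := disjoint_of_subset_left (h.sub a) (disjoint_of_subset_right hT hPQ)
    have hdb : Disjoint (S b) T := disjoint_of_subset_left (h.sub b) (disjoint_of_subset_right hT hPQ)
    rw [lg_union hda, lg_union hdb]
    have := h.close a b
    rwa [show lg (S a) + lg T - (lg (S b) + lg T) = lg (S a) - lg (S b) by ring]

lemma Cube.prod {G H : Type} [AddCommGroup G] [AddCommGroup H] {P Q : Finset ℕ} {δ δ' : ℝ}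
    {S : G → Finset ℕ} {T : H → Finset ℕ}
    (h : Cube P δ S) (h' : Cube Q δ' T) (hPQ : Disjoint P Q) :
    Cube (P ∪ Q) (δ + δ') (fun a : G × H => S a.1 ∪ T a.2) where
  sub a := union_subset_union (h.sub a.1) (h'.sub a.2)
  inj a b hab := by
    have hd : ∀ x y, Disjoint (S x) (T y) := fun x y =>
      disjoint_of_subset_left (h.sub x) (disjoint_of_subset_right (h'.sub y) hPQ)
    simp only at hab
    have h1 : ∀ x y, (S x ∪ T y) ∩ P = S x := by
      intro x y
      ext p
      simp only [mem_inter, mem_union]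
      constructor
      · rintro ⟨h1 | h1, h2⟩
        · exact h1
        · exact absurd (h'.sub y h1) (disjoint_left.1 hPQ h2)
      · intro h1
        exact ⟨Or.inl h1, h.sub x h1⟩
    have h2 : ∀ x y, (S x ∪ T y) ∩ Q = T y := by
      intro x y
      ext p
      simp only [mem_inter, mem_union]
      constructor
      · rintro ⟨h1 | h1, h2⟩
        · exact absurd h2 (disjoint_left.1 hPQ (h.sub x h1))
        · exact h1
      · intro h1
        exact ⟨Or.inr h1, h'.sub y h1⟩
    ext1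
    · apply h.inj
      rw [← h1 a.1 a.2, hab, h1]
    · apply h'.inj
      rw [← h2 a.1 a.2, hab, h2]
  line a b c habc := by
    have e1 : a.1 + c.1 = b.1 + b.1 := congrArg Prod.fst habc
    have e2 : a.2 + c.2 = b.2 + b.2 := congrArg Prod.snd habc
    obtain ⟨h1, h2⟩ := h.line _ _ _ e1
    obtain ⟨h3, h4⟩ := h'.line _ _ _ e2
    have e : ∀ x y : G × H, (S x.1 ∪ T x.2) ∪ (S y.1 ∪ T y.2) = (S x.1 ∪ S y.1) ∪ (T x.2 ∪ T y.2) := by
      intro x y
      ext p; simp only [mem_union]; tauto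
    simp only [e]
    rw [← h1, ← h2, ← h3, ← h4]
    exact ⟨rfl, rfl⟩
  close a b := by
    have hd : ∀ x y, Disjoint (S x) (T y) := fun x y =>
      disjoint_of_subset_left (h.sub x) (disjoint_of_subset_right (h'.sub y) hPQ)
    rw [lg_union (hd _ _), lg_union (hd _ _)]
    have h1 := h.close a.1 b.1
    have h2 := h'.close a.2 b.2
    calc |lg (S a.1) + lg (T a.2) - (lg (S b.1) + lg (T b.2))|
        = |(lg (S a.1) - lg (S b.1)) + (lg (T a.2) - lg (T b.2))| := by ring_nf
      _ ≤ |lg (S a.1) - lg (S b.1)| + |lg (T a.2) - lg (T b.2)| := abs_add_le _ _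
      _ ≤ δ + δ' := add_le_add h1 h2

lemma zmod3_cases (a b c : ZMod 3) (h : a + c = b + b) : (a = b ∧ b = c) ∨ (a ≠ b ∧ b ≠ c ∧ a ≠ c) := by
  revert a b c; decide

/-- the one-dimensional statement -/
def StatE1 : Prop := ∀ δ : ℝ, 0 < δ → ∀ η : ℝ, 0 < η → ∀ w : ℕ, ∃ P : Finset ℕ,
  (∀ p ∈ P, p.Prime ∧ w < p) ∧ ∀ f : Finset ℕ → ℝ, (∀ S, 0 ≤ f S) → (∀ S, f S ≤ 1) →
    η < EP P f → ∃ S : ZMod 3 → Finset ℕ, Cube P δ S ∧
      EP P f - η ≤ (∑ a, f (S a)) / 3

/-- the m-dimensional statement -/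
def StatEm (m : ℕ) : Prop := ∀ δ : ℝ, 0 < δ → ∀ η : ℝ, 0 < η → ∀ w : ℕ, ∃ P : Finset ℕ,
  (∀ p ∈ P, p.Prime ∧ w < p) ∧ ∃ (G : Type) (_ : AddCommGroup G) (_ : Fintype G),
    Fintype.card G = 3 ^ m ∧ ∀ f : Finset ℕ → ℝ, (∀ S, 0 ≤ f S) → (∀ S, f S ≤ 1) →
    η < EP P f → ∃ S : G → Finset ℕ, Cube P δ S ∧
      EP P f - η ≤ (∑ a, f (S a)) / 3 ^ m

lemma Em_of_E1 (h : StatE1) (m : ℕ) : StatEm m := by
  induction m with
  | zero =>
    intro δ hδ η hη w
    refine ⟨∅, by simp, Unit, inferInstance, inferInstance, by simp, ?_⟩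
    intro f hf0 hf1 hf
    refine ⟨fun _ => ∅, ⟨fun _ => subset_rfl, fun a b _ => rfl, fun _ _ _ _ => ⟨rfl, rfl⟩,
      fun _ _ => by simp [hδ.le]⟩, ?_⟩
    rw [EP_empty]
    simp [hη.le]
  | succ m ih =>
    intro δ hδ η hη w
    obtain ⟨P, hP, hPf⟩ := h (δ / 2) (by positivity) (η / 2) (by positivity) w
    obtain ⟨Q, hQ, G, iG, iF, hcard, hQf⟩ := ih (δ / 2) (by positivity) (η / 2) (by positivity)
      (max w (P.sup id))
    have hPQ : Disjoint P Q := by
      rw [disjoint_left]
      intro p hp hq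
      have h1 : p ≤ P.sup id := le_sup (f := id) hp
      have h2 := (hQ p hq).2
      have h3 := le_max_right w (P.sup id)
      omega
    refine ⟨P ∪ Q, ?_, ZMod 3 × G, inferInstance, inferInstance, ?_, ?_⟩
    · intro p hp
      rcases mem_union.1 hp with h1 | h1
      · exact hP p h1
      · exact ⟨(hQ p h1).1, lt_of_le_of_lt (le_max_left _ _) (hQ p h1).2⟩
    · rw [Fintype.card_prod, hcard, ZMod.card]; ring
    · intro f hf0 hf1 hf
      have hsplit := EP_union hPQ f
      have hle1 : ∀ g : Finset ℕ → ℝ, (∀ S, g S ≤ 1) → ∀ Q : Finset ℕ, EP Q g ≤ 1 := by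
        intro g hg Q
        exact (EP_mono fun S _ => hg S).trans (EP_one_le Q)
      obtain ⟨S, hS, hSf⟩ := hPf (fun S => EP Q (fun T => f (S ∪ T)))
        (fun S => EP_nonneg fun T _ => hf0 _) (fun S => hle1 _ (fun T => hf1 _) _)
        (by rw [← hsplit]; linarith)
      rw [← hsplit] at hSf
      -- average over the first coordinate
      have hav : (∑ a : ZMod 3, EP Q (fun T => f (S a ∪ T))) / 3 =
          EP Q (fun T => (∑ a : ZMod 3, f (S a ∪ T)) / 3) := by
        rw [← EP_sum]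
        simp only [div_eq_mul_inv]
        rw [EP_mul_right]
      rw [hav] at hSf
      obtain ⟨T, hT, hTf⟩ := hQf (fun T => (∑ a : ZMod 3, f (S a ∪ T)) / 3)
        (fun T => div_nonneg (sum_nonneg fun _ _ => hf0 _) (by norm_num))
        (fun T => by
          rw [div_le_one (by norm_num)]
          calc ∑ a : ZMod 3, f (S a ∪ T) ≤ ∑ a : ZMod 3, (1 : ℝ) := sum_le_sum fun _ _ => hf1 _
            _ = 3 := by simp [ZMod.card])
        (by linarith)
      refine ⟨fun a => S a.1 ∪ T a.2, ?_, ?_⟩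
      · have := hS.prod hT hPQ
        rwa [add_halves] at this
      · rw [Fintype.sum_prod_type, sum_comm]
        have e : (∑ b : G, (∑ a : ZMod 3, f (S a ∪ T b)) / 3) / 3 ^ m =
            (∑ b : G, ∑ a : ZMod 3, f (S a ∪ T b)) / 3 ^ (m + 1) := by
          rw [← sum_div, div_div]
          congr 1
          ring
        rw [← e]
        linarith

end Pool.Agent.Helper35
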