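import Pool.Agent.Helper35.Numeric

set_option autoImplicit false

open Finset

namespace Pool.Agent.Helper35

lemma sum_em (P : Finset ℕ) (S : Finset P) (g : ℕ → ℝ) : ∑ p ∈ em P S, g p = ∑ i ∈ S, g (i : ℕ) := by
  unfold em
  rw [sum_map]
  rfl

/-- short interval sums over a subtype -/
lemma short_subtype {P : Finset ℕ} (hP : ∀ p ∈ P, p.Prime) (c : P → Prop) [DecidablePred c] (z : ℝ)
    (hz : 0 < z) (hcz : ∀ i, c i → z ≤ Real.log ((i : P) : ℕ))
    (hcc : ∀ i j, c i → c j → Real.log ((i : P) : ℕ) ≤ Real.log ((j : P) : ℕ) + 1) :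
    ∑ i, (if c i then ra P i else 0) ≤ 4 / z := by
  have h1 := short_sum (em P (univ.filter c)) (fun p hp => hP p (em_sub _ _ hp)) (Real.exp z)
    (by rw [← Real.exp_zero]; exact Real.exp_lt_exp.2 hz)
    (fun p hp => by
      rw [mem_em] at hp
      obtain ⟨hpP, hp2⟩ := hp
      rw [mem_filter] at hp2
      have h2 := hcz _ hp2.2
      have hp0 : (0 : ℝ) < p := by exact_mod_cast (hP p hpP).pos
      rwa [Real.le_log_iff_exp_le hp0] at h2)
    (fun p hp q hq => by
      rw [mem_em] at hp hq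
      obtain ⟨hpP, hp2⟩ := hp
      obtain ⟨hqP, hq2⟩ := hq
      rw [mem_filter] at hp2 hq2
      exact hcc _ _ hq2.2 hp2.2)
  rw [Real.log_exp, sum_em P (univ.filter c) (fun p => 1 / (p : ℝ)), sum_filter] at h1
  exact h1

theorem statE0 : StatE0 := by
  classical
  intro δ₀ hδ₀ η hη
  set δ : ℝ := min δ₀ (1 / 8) with hδdef
  have hδ : 0 < δ := lt_min hδ₀ (by norm_num)
  have hδ8 : δ ≤ 1 / 8 := min_le_right _ _
  have hδδ₀ : δ ≤ δ₀ := min_le_left _ _
  set r : ℝ := (1 / 3 : ℝ) ^ (47 / 2000 : ℝ) with hr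
  have hr0 : 0 < r := by rw [hr]; positivity
  have hρ : 41 / 40 * r < 1 := rho_lt
  set s : ℝ := (47 / 48 : ℝ) ^ (-(47 / 2000 : ℝ)) * Real.exp (-(1 - 47 / 48) * 0.024) with hs
  have hs0 : 0 < s := by rw [hs]; positivity
  have hs1 : s < 1 := s_lt
  have h1s : 0 < 1 - s := by linarith
  have h1r : 0 < 1 - 41 / 40 * r := by linarith
  obtain ⟨n, hn⟩ := exists_pow_lt_of_lt_one
    (show (0 : ℝ) < η * δ * (1 - s) * 0.024 / 320 by positivity) (show (47 / 48 : ℝ) < 1 by norm_num)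
  set CB : ℝ := 3 ^ n * (16 * (41 / 40) / (1 - 41 / 40 * r) + 1) with hCB
  have hCB0 : 0 < CB := by rw [hCB]; positivity
  refine ⟨128 * (20 / δ) * (5 * CB / δ) / (1 / 2 * 0.024 ^ 3), fun w => ?_⟩
  set L : ℝ := w + 1 + 20000 + 10 ^ 6 / (δ * η) with hL
  have hw0 : (0 : ℝ) ≤ w := Nat.cast_nonneg w
  have hfr : 0 < (10 : ℝ) ^ 6 / (δ * η) := by positivity
  have hL20 : 20000 ≤ L := by rw [hL]; linarith
  have hLw : (w : ℝ) + 1 ≤ L := by rw [hL]; linarith
  have hLη : 10 ^ 6 / (δ * η) ≤ L := by rw [hL]; linarith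
  have hL0 : 0 < L := by linarith
  obtain ⟨I, hI⟩ := exists_pow_lt_of_lt_one (show (0 : ℝ) < 1 / L by positivity) hρ
  set V : ℝ := L * (41 / 40) ^ I with hV
  have hκI : (1 : ℝ) ≤ (41 / 40) ^ I := one_le_pow₀ (by norm_num)
  have hLV : L ≤ V := by rw [hV]; nlinarith
  have hV0 : 0 < V := by linarith
  have hV20 : 20000 ≤ V := by linarith
  have hVsq : V ≤ V ^ 2 / 2 := by
    have h1 : V * 2 ≤ V * V := mul_le_mul_of_nonneg_left (by linarith) hV0.le
    have h2 : V ^ 2 = V * V := sq V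
    linarith
  set P := W L V with hPdef
  set Q := W V (41 / 40 * V) with hQdef
  have hPp : ∀ p ∈ P, p.Prime := fun p hp => (mem_W.1 hp).1
  have hQp : ∀ p ∈ Q, p.Prime := fun p hp => (mem_W.1 hp).1
  have hPQ : Disjoint P Q := by
    rw [disjoint_left]
    intro p h1 h2
    rw [hPdef, mem_W] at h1
    rw [hQdef, mem_W] at h2
    linarith [h1.2.2, h2.2.1]
  have hPi : ∀ i : P, L < la P i ∧ la P i ≤ V := fun i =>
    (mem_W.1 (show ((i : P) : ℕ) ∈ W L V from i.2)).2
  have hQi : ∀ j : Q, V < la Q j ∧ la Q j ≤ 41 / 40 * V := fun j =>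
    (mem_W.1 (show ((j : Q) : ℕ) ∈ W V (41 / 40 * V) from j.2)).2
  -- floors
  set nL := ⌊Real.exp L⌋₊ with hnL
  set nV := ⌊Real.exp V⌋₊ with hnV
  have hnLr : L ≤ (nL : ℝ) := by
    have := floor_exp_ge hL0.le
    have h2 : 0 ≤ L ^ 2 / 2 := by positivity
    linarith
  have hnVr : V ^ 2 / 2 ≤ (nV : ℝ) := by
    have := floor_exp_ge hV0.le
    linarith
  have hnL1 : 1 ≤ nL := by
    have : (1 : ℝ) ≤ nL := by linarith
    exact_mod_cast this
  have hnV1 : 1 ≤ nV := by
    have : (1 : ℝ) ≤ nV := by linarith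
    exact_mod_cast this
  have hPgt : ∀ p ∈ P, nL < p := fun p hp => by
    rw [hPdef, W, mem_prm] at hp; exact hp.1.1
  have hQgt : ∀ p ∈ Q, nV < p := fun p hp => by
    rw [hQdef, W, mem_prm] at hp; exact hp.1.1
  have hnLV : nL ≤ nV := Nat.floor_le_floor (Real.exp_le_exp.2 hLV)
  have hwL : w ≤ nL := by
    have : (w : ℝ) ≤ nL := by linarith
    exact_mod_cast this
  -- squares
  have hPsq : ∑ p ∈ P, 1 / (p : ℝ) ^ 2 ≤ 1 / L := by
    refine (sum_inv_sq_le P nL hnL1 hPgt).trans ?_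
    exact one_div_le_one_div_of_le hL0 hnLr
  have hQsq : ∑ p ∈ Q, 1 / (p : ℝ) ^ 2 ≤ 2 / V ^ 2 := by
    refine (sum_inv_sq_le Q nV hnV1 hQgt).trans ?_
    have : 2 / V ^ 2 = 1 / (V ^ 2 / 2) := by field_simp
    rw [this]
    exact one_div_le_one_div_of_le (by positivity) hnVr
  -- H
  set H := ∑ q ∈ Q, 1 / (q : ℝ) with hH
  have hHlow : 0.024 ≤ H := block hV20
  have hHup : H ≤ 1 / 2 := by
    have hm2 : 2 ≤ nV := by
      have : (2 : ℝ) ≤ nV := by linarith
      exact_mod_cast this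
    have hmn : nV ≤ ⌊Real.exp (41 / 40 * V)⌋₊ := by
      apply Nat.floor_le_floor
      apply Real.exp_le_exp.2; linarith
    have h1 := recip_upper hm2 hmn
    have h2 := log_floor_exp (x := V) (by linarith)
    have h3 := log_floor_exp (x := 41 / 40 * V) (by linarith)
    rw [← hnV] at h2
    refine h1.trans ?_
    rw [div_le_iff₀ (by linarith)]
    linarith
  have hH0 : 0 < H := by linarith
  -- short intervals in Q
  have hN : ∀ (X : Finset P) (k : ℤ),
      ∑ j, (if cl (la P) (la Q) δ (X, j) = k then ra Q j else 0) ≤ 4 / V := by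
    intro X k
    apply short_subtype hQp (fun j => cl (la P) (la Q) δ (X, j) = k) V hV0
    · intro i _
      exact (hQi i).1.le
    · intro i j hi hj
      simp only [cl] at hi hj
      have h1 := Int.abs_sub_lt_one_of_floor_eq_floor (hi.trans hj.symm)
      rw [← sub_div, abs_div, abs_of_pos hδ, div_lt_one hδ] at h1
      have h2 := (abs_lt.1 h1).2
      simp only [la] at h2
      linarith
  -- the cells
  set K' : ℕ := ⌈4 * V / δ⌉₊ with hK'
  have hK'0 : 0 < K' := Nat.ceil_pos.2 (by positivity)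
  have hK'ge : 4 * V / δ ≤ K' := Nat.le_ceil _
  have hK'le : (K' : ℝ) ≤ 5 * V / δ := by
    have h1 : (K' : ℝ) < 4 * V / δ + 1 := Nat.ceil_lt_add_one (by positivity)
    have h2 : 1 ≤ V / δ := by
      rw [le_div_iff₀ hδ]; linarith
    have h3 : 5 * V / δ = 4 * V / δ + V / δ := by ring
    linarith
  have hmk := markov (a := ra P) (u := la P) (b := ra Q) (t := la Q) (δ := δ) (Λ := 2 * V)
    (tm := 41 / 40 * V) hδ (ra_nonneg P) (ra_nonneg Q)
    (fun i => Real.log_natCast_nonneg _) (fun j => Real.log_natCast_nonneg _)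
    (fun j => (hQi j).2)
    (by
      have h1 : ∑ i : P, la P i * (ra P i / 3) = (∑ p ∈ P, Real.log p / p) / 3 := by
        rw [sum_div, ← sum_coe_sort P (fun p => Real.log (p : ℝ) / (p : ℝ) / 3)]
        apply sum_congr rfl; intro i _
        unfold la ra; ring
      rw [h1]
      have h2 : ∑ p ∈ P, Real.log p / p ≤ ∑ p ∈ prm 0 nV, Real.log p / p := by
        apply sum_le_sum_of_subset_of_nonneg
        · intro p hp
          rw [hPdef, W, mem_prm] at hp
          rw [mem_prm]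
          exact ⟨⟨hp.2.pos, hp.1.2⟩, hp.2⟩
        · intro p _ _
          exact div_nonneg (Real.log_natCast_nonneg p) (Nat.cast_nonneg p)
      have h3 := mertens_upper nV hnV1
      have h4 := (log_floor_exp (x := V) (by linarith)).2
      rw [← hnV] at h4
      linarith)
    K' hK'0 (by
      rw [div_le_iff₀ hδ] at hK'ge
      linarith)
  -- levels
  set lev : P → ℕ := fun i => ⌊Real.log (V / la P i) / Real.log (41 / 40)⌋₊ with hlev
  have hlogκ : 0 < Real.log (41 / 40 : ℝ) := Real.log_pos (by norm_num)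
  have hlev_lt : ∀ (i : P) (k : ℕ), lev i < k ↔ V / (41 / 40) ^ k < la P i := by
    intro i k
    have hi := hPi i
    have hi0 : 0 < la P i := by linarith
    have h1 : 1 ≤ V / la P i := by rw [le_div_iff₀ hi0]; linarith
    have h2 : 0 ≤ Real.log (V / la P i) / Real.log (41 / 40) :=
      div_nonneg (Real.log_nonneg h1) hlogκ.le
    rw [hlev]
    simp only
    rw [Nat.floor_lt h2, div_lt_iff₀ hlogκ, ← Real.log_pow, Real.log_lt_log_iff (by linarith) (by positivity),
      div_lt_iff₀ hi0, div_lt_iff₀ (by positivity), mul_comm]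
  have hVI : V / (41 / 40) ^ I = L := by rw [hV]; field_simp
  have hlevI : ∀ i, lev i < I := fun i => by rw [hlev_lt, hVI]; exact (hPi i).1
  set kk : ℕ → ℝ := fun k => 47 / 2000 * (k : ℝ) - n with hkk
  have hkkpow : ∀ k : ℕ, (1 / 3 : ℝ) ^ (kk k) = 3 ^ n * r ^ k := by
    intro k
    rw [hkk]
    simp only
    rw [Real.rpow_sub (by norm_num), Real.rpow_mul (by norm_num), Real.rpow_natCast, Real.rpow_natCast,
      ← hr, one_div, inv_pow, div_inv_eq_mul]
    ring
  have hsb := small_ball (ra P) (la P) (ra_nonneg P)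
    (fun i => (ra_le_half hPp i).trans (by norm_num)) lev I hlevI
    (fun k => 4 * (41 / 40) ^ (k + 1) / V) kk (2 * δ) (by
      intro k hk T c hc
      have e : 4 * (41 / 40 : ℝ) ^ (k + 1) / V = 4 / (V / (41 / 40) ^ (k + 1)) := by
        field_simp
      rw [e]
      apply short_subtype hPp (fun i => lev i = k ∧ |T + c * la P i| < 2 * δ)
      · positivity
      · rintro i ⟨h1, -⟩
        have h2 : lev i < k + 1 := by omega
        rw [hlev_lt] at h2
        exact h2.le
      · rintro i j ⟨-, hi⟩ ⟨-, hj⟩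
        rw [abs_lt] at hi hj
        simp only [la] at hi hj
        rcases hc with rfl | rfl | rfl | rfl <;> linarith [hi.1, hi.2, hj.1, hj.2])
  -- the small ball bound
  have hB0 : (∑ k ∈ range I, 4 * (4 * (41 / 40 : ℝ) ^ (k + 1) / V) * (1 / 3 : ℝ) ^ (kk k)) +
      (1 / 3 : ℝ) ^ (kk I) ≤ CB / V := by
    have h1 : ∀ k, 4 * (4 * (41 / 40 : ℝ) ^ (k + 1) / V) * (1 / 3 : ℝ) ^ (kk k) =
        (3 ^ n * (16 * (41 / 40)) / V) * (41 / 40 * r) ^ k := by
      intro k
      rw [hkkpow, mul_pow, pow_succ]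
      ring
    simp only [h1]
    rw [← mul_sum, hkkpow]
    have h2 := geom_le (r := 41 / 40 * r) (by positivity) hρ I
    have h3 : r ^ I ≤ 1 / V := by
      rw [le_div_iff₀ hV0, hV]
      have : r ^ I * (L * (41 / 40) ^ I) = L * (41 / 40 * r) ^ I := by rw [mul_pow]; ring
      rw [this]
      have h4 := mul_le_mul_of_nonneg_left hI.le hL0.le
      rwa [mul_one_div_cancel hL0.ne'] at h4
    have h5 := mul_le_mul_of_nonneg_left h2 (show (0 : ℝ) ≤ 3 ^ n * (16 * (41 / 40)) / V by positivity)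
    have h6 := mul_le_mul_of_nonneg_left h3 (show (0 : ℝ) ≤ 3 ^ n by positivity)
    have e : CB / V = (3 ^ n * (16 * (41 / 40)) / V) * (1 / (1 - 41 / 40 * r)) + 3 ^ n * (1 / V) := by
      rw [hCB]; field_simp
    rw [e]
    linarith
  set gd : Finset P → ℝ := fun S =>
    if ∀ k ≤ I, kk k ≤ (#(S.filter fun i => lev i < k) : ℝ) then 1 else 0 with hgd
  have hg0 : ∀ S, 0 ≤ gd S := fun S => by rw [hgd]; simp only; split_ifs <;> norm_num
  have hg1 : ∀ S, gd S ≤ 1 := fun S => by rw [hgd]; simp only; split_ifs <;> norm_num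
  have hB : (∑ S, mu (ra P) S * (gd S * ∑ v : P → Fin 3, ∑ v' : P → Fin 3,
      (if |Ls (la P) S v - Ls (la P) S v'| < 2 * δ then (1 : ℝ) else 0))) / 9 ^ (Fintype.card P) ≤
      CB / V := by
    refine le_trans (le_of_eq ?_) (hsb.trans hB0)
    congr 1
    apply sum_congr rfl; intro S _
    rw [hgd]
    simp only [ite_mul, one_mul, zero_mul]
  -- bad event
  have hbp := bad_prob (ra P) (ra_nonneg P) (fun i => (ra_le_half hPp i).trans (by norm_num)) lev I kk
    (fun k => 0.024 * (k : ℝ)) (47 / 48) (by norm_num) (by norm_num) (by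
      intro k hk
      have h1 := levels (V := V) I (by rw [hV]; exact mul_le_mul_of_nonneg_right hL20 (by positivity)) k hk
      refine h1.trans (le_of_eq ?_)
      have h2 : ∑ i : P, (if lev i < k then ra P i else 0) =
          ∑ p ∈ P, (if V / (41 / 40) ^ k < Real.log p then 1 / (p : ℝ) else 0) := by
        rw [← sum_coe_sort P (fun p => if V / (41 / 40) ^ k < Real.log (p : ℝ) then 1 / (p : ℝ) else 0)]
        apply sum_congr rfl; intro i _
        have h3 : lev i < k ↔ V / (41 / 40) ^ k < Real.log (((i : P) : ℕ) : ℝ) := hlev_lt i k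
        by_cases h : lev i < k
        · rw [if_pos h, if_pos (h3.1 h)]; rfl
        · rw [if_neg h, if_neg (fun h4 => h (h3.2 h4))]
      rw [h2, ← sum_filter]
      congr 1
      ext p
      rw [mem_filter, hPdef, mem_W, mem_W]
      have h4 : L ≤ V / (41 / 40) ^ k := by
        rw [le_div_iff₀ (by positivity), hV]
        apply mul_le_mul_of_nonneg_left _ hL0.le
        exact pow_le_pow_right₀ (by norm_num) hk
      constructor
      · rintro ⟨a1, a2, a3⟩
        exact ⟨⟨a1, lt_of_le_of_lt h4 a2, a3⟩, a2⟩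
      · rintro ⟨⟨a1, _, a3⟩, a2⟩
        exact ⟨a1, a2, a3⟩)
  set β : ℝ := (47 / 48 : ℝ) ^ n / (1 - s) with hβ
  have hbad : ∑ S, mu (ra P) S * (1 - gd S) ≤ β := by
    have h1 : ∀ k : ℕ, (47 / 48 : ℝ) ^ (-kk k) * Real.exp (-(1 - 47 / 48) * (0.024 * (k : ℝ))) =
        (47 / 48 : ℝ) ^ n * s ^ k := by
      intro k
      rw [hkk, hs]
      simp only
      rw [show -(47 / 2000 * (k : ℝ) - n) = -(47 / 2000) * (k : ℝ) + n by ring,
        Real.rpow_add (by norm_num), Real.rpow_mul (by norm_num), Real.rpow_natCast, Real.rpow_natCast,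
        mul_pow, ← Real.exp_nat_mul]
      rw [show (k : ℝ) * (-(1 - 47 / 48) * 0.024) = -(1 - 47 / 48) * (0.024 * (k : ℝ)) by ring]
      ring
    simp only [h1] at hbp
    rw [← mul_sum] at hbp
    have h2 := geom_le hs0.le hs1 (I + 1)
    have h3 := mul_le_mul_of_nonneg_left h2 (show (0 : ℝ) ≤ (47 / 48 : ℝ) ^ n by positivity)
    have h4 : ∑ S, mu (ra P) S * (1 - gd S) = ∑ S, mu (ra P) S *
        (if ∀ k ≤ I, kk k ≤ (#(S.filter fun i => lev i < k) : ℝ) then 0 else 1) := by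
      apply sum_congr rfl; intro S _
      rw [hgd]; simp only
      split_ifs <;> norm_num
    rw [h4, hβ]
    refine (hbp.trans h3).trans (le_of_eq ?_)
    ring
  have hβ0 : 0 ≤ β := by rw [hβ]; positivity
  have hβle : β ≤ η * δ * 0.024 / 320 := by
    rw [hβ, div_le_iff₀ h1s]
    have := hn.le
    linarith
  obtain ⟨D, hD0, hD1, hD2, hD3, hD4⟩ := window (N := 4 / V) (B₀ := CB / V) (β := β) hPQ hδ hPp hQp
    (by
      refine hPsq.trans ?_
      rw [div_le_div_iff₀ hL0 (by norm_num)]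
      linarith) hH0 (by positivity) hN K' hK'0 hmk hg0 hg1 hB hbad
  rw [← hH] at hD2 hD3 hD4
  -- numerical consequences
  have hK'r : (0 : ℝ) < K' := by exact_mod_cast hK'0
  have hNK : 4 / V * K' ≤ 20 / δ := by
    have h1 := mul_le_mul_of_nonneg_left hK'le (show (0 : ℝ) ≤ 4 / V by positivity)
    refine h1.trans (le_of_eq ?_)
    field_simp
    norm_num
  have hBK : CB / V * K' ≤ 5 * CB / δ := by
    have h1 := mul_le_mul_of_nonneg_left hK'le (show (0 : ℝ) ≤ CB / V by positivity)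
    refine h1.trans (le_of_eq ?_)
    field_simp
  have hκ₁ : 4 * (K' : ℝ) / H ^ 2 * (H * (4 / V) * (∑ p ∈ P, 1 / (p : ℝ) ^ 2) / 3 +
      ∑ q ∈ Q, 1 / (q : ℝ) ^ 2) ≤ η / 6 := by
    have h1 : H * (4 / V) * (∑ p ∈ P, 1 / (p : ℝ) ^ 2) / 3 + ∑ q ∈ Q, 1 / (q : ℝ) ^ 2 ≤
        (1 / V) * (3 / L) := by
      have h2 : H * (4 / V) * (∑ p ∈ P, 1 / (p : ℝ) ^ 2) ≤ 1 / 2 * (4 / V) * (1 / L) := by
        apply mul_le_mul _ hPsq (sum_nonneg fun p _ => by positivity) (by positivity)
        exact mul_le_mul_of_nonneg_right hHup (by positivity)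
      have h3 : 2 / V ^ 2 ≤ (1 / V) * (2 / L) := by
        have e : 2 / V ^ 2 = (1 / V) * (2 / V) := by ring
        rw [e]
        apply mul_le_mul_of_nonneg_left _ (by positivity)
        exact div_le_div_of_nonneg_left (by norm_num) hL0 hLV
      have e : (1 / V) * (3 / L) = 1 / 2 * (4 / V) * (1 / L) / 3 + (1 / V) * (2 / L) +
        1 / 3 * ((1 / V) * (1 / L)) := by field_simp; norm_num
      have h4 : 0 ≤ 1 / 3 * ((1 / V) * (1 / L)) := by positivity
      rw [e]
      linarith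
    have h2 : 4 * (K' : ℝ) / H ^ 2 ≤ 4 * (5 * V / δ) / 0.024 ^ 2 := by
      apply div_le_div₀ (by positivity) (by linarith) (by positivity)
      exact pow_le_pow_left₀ (by norm_num) hHlow 2
    have h3 : 4 * (K' : ℝ) / H ^ 2 * (H * (4 / V) * (∑ p ∈ P, 1 / (p : ℝ) ^ 2) / 3 +
      ∑ q ∈ Q, 1 / (q : ℝ) ^ 2) ≤ 4 * (5 * V / δ) / 0.024 ^ 2 * ((1 / V) * (3 / L)) := by
      apply mul_le_mul h2 h1 _ (by positivity)
      have : 0 ≤ ∑ p ∈ P, 1 / (p : ℝ) ^ 2 := sum_nonneg fun p _ => by positivity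
      have : 0 ≤ ∑ q ∈ Q, 1 / (q : ℝ) ^ 2 := sum_nonneg fun p _ => by positivity
      positivity
    refine h3.trans ?_
    have e : 4 * (5 * V / δ) / 0.024 ^ 2 * ((1 / V) * (3 / L)) = 60 / 0.024 ^ 2 / (δ * L) := by
      field_simp
      norm_num
    rw [e, div_le_iff₀ (by positivity)]
    rw [div_le_iff₀ (by positivity)] at hLη
    have : η / 6 * (δ * L) = (L * (δ * η)) / 6 := by ring
    rw [this]
    norm_num at hLη ⊢
    linarith
  have hκ₂ : 8 * K' * (4 / V) * β / H ≤ η / 2 := by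
    rw [div_le_iff₀ hH0]
    have h1 : 8 * K' * (4 / V) * β = 8 * (4 / V * K') * β := by ring
    rw [h1]
    have h2 : 8 * (4 / V * K') * β ≤ 8 * (20 / δ) * (η * δ * 0.024 / 320) := by
      apply mul_le_mul _ hβle hβ0 (by positivity)
      linarith
    refine h2.trans ?_
    have e : 8 * (20 / δ) * (η * δ * 0.024 / 320) = η / 2 * 0.024 := by
      field_simp
      norm_num
    rw [e]
    exact mul_le_mul_of_nonneg_left hHlow (by positivity)
  refine ⟨P ∪ Q, ?_, D, hD0, ?_, hD1, ?_, ?_⟩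
  · intro p hp
    rcases mem_union.1 hp with h | h
    · exact ⟨hPp p h, lt_of_le_of_lt hwL (hPgt p h)⟩
    · exact ⟨hQp p h, lt_of_le_of_lt (hwL.trans hnLV) (hQgt p h)⟩
  · refine le_trans ?_ hD2
    linarith
  · refine hD3.trans ?_
    have hprod : 1 / 2 ≤ ∏ q ∈ Q, (1 - 1 / (q : ℝ)) := by
      have h1 := one_sub_sum_le_prod Q (fun q => 1 / (q : ℝ)) (fun q _ => by positivity)
        (fun q hq => by
          have : (1 : ℝ) ≤ q := by exact_mod_cast (hQp q hq).one_lt.le
          rw [div_le_one (by linarith)]; exact this)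
      rw [← hH] at h1
      linarith
    have h0 : (0 : ℝ) ≤ 4 / V * K' := by positivity
    have h0' : (0 : ℝ) ≤ CB / V * K' := by positivity
    apply div_le_div₀ (by positivity)
    · calc 128 * (4 / V * K') * (CB / V * K') ≤ 128 * (20 / δ) * (CB / V * K') := by
            apply mul_le_mul_of_nonneg_right _ h0'
            linarith
        _ ≤ 128 * (20 / δ) * (5 * CB / δ) := mul_le_mul_of_nonneg_left hBK (by positivity)
    · positivity
    · apply mul_le_mul hprod _ (by positivity) (by linarith)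
      exact pow_le_pow_left₀ (by norm_num) hHlow 3
  · intro f hf0 hf1 hlt
    obtain ⟨S, hS, hSf⟩ := hD4 η (by linarith) f hf0 hf1 hlt
    exact ⟨S, ⟨hS.sub, hS.inj, hS.line, fun a b => (hS.close a b).trans hδδ₀⟩, hSf⟩

end Pool.Agent.Helper35
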