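import Pool.Agent.Helper35.Cube

set_option autoImplicit false

open Finset

namespace Pool.Agent.Helper35

/-- lcm of products of sets of primes -/
lemma lcm_prod (S T : Finset ℕ) (hS : ∀ p ∈ S, p.Prime) (hT : ∀ p ∈ T, p.Prime) :
    Nat.lcm (∏ p ∈ S, p) (∏ p ∈ T, p) = ∏ p ∈ S ∪ T, p := by
  have h1 : (∏ p ∈ S ∩ T, p) * ∏ p ∈ S \ T, p = ∏ p ∈ S, p := prod_inter_mul_prod_sdiff S T _
  have h2 : (∏ p ∈ S ∩ T, p) * ∏ p ∈ T \ S, p = ∏ p ∈ T, p := by
    rw [inter_comm]; exact prod_inter_mul_prod_sdiff T S _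
  have h3 : ∏ p ∈ S ∪ T, p = (∏ p ∈ S, p) * ∏ p ∈ T \ S, p := by
    rw [← prod_union disjoint_sdiff, union_sdiff_self_eq_union]
  have hc : Nat.Coprime (∏ p ∈ S \ T, p) (∏ p ∈ T \ S, p) := by
    apply Nat.Coprime.prod_left
    intro p hp
    apply Nat.Coprime.prod_right
    intro q hq
    rw [mem_sdiff] at hp hq
    rw [Nat.coprime_primes (hS p hp.1) (hT q hq.1)]
    rintro rfl
    exact hp.2 hq.1
  rw [h3, ← h1, ← h2, Nat.lcm_mul_left, hc.lcm_eq_mul]
  ring

lemma totient_prod (P : Finset ℕ) (hP : ∀ p ∈ P, p.Prime) :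
    ((∏ p ∈ P, p).totient : ℝ) = (∏ p ∈ P, (p : ℝ)) * ∏ p ∈ P, (1 - 1 / (p : ℝ)) := by
  induction P using Finset.induction_on with
  | empty => simp
  | insert p P hp ih =>
    have hpp := hP p (mem_insert_self _ _)
    have hc : Nat.Coprime p (∏ p ∈ P, p) := by
      apply Nat.Coprime.prod_right
      intro q hq
      rw [Nat.coprime_primes hpp (hP q (mem_insert_of_mem hq))]
      rintro rfl; exact hp hq
    rw [prod_insert hp, Nat.totient_mul hc, Nat.cast_mul, ih (fun q hq => hP q (mem_insert_of_mem hq)),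
      prod_insert hp, prod_insert hp, Nat.totient_prime hpp, Nat.cast_sub hpp.one_lt.le]
    have : (p : ℝ) ≠ 0 := by exact_mod_cast hpp.ne_zero
    field_simp
    push_cast
    ring

lemma count_coprime (P : Finset ℕ) (hP : ∀ p ∈ P, p.Prime) (k n : ℕ) :
    (#{x ∈ Ico k (k + n) | (∏ p ∈ P, p).Coprime x} : ℝ) ≤
      (∏ p ∈ P, (1 - 1 / (p : ℝ))) * n + ((∏ p ∈ P, p : ℕ) : ℝ) := by
  have hQ0 : (∏ p ∈ P, p) ≠ 0 := prod_ne_zero_iff.2 fun p hp => (hP p hp).ne_zero
  have h := Nat.Ico_filter_coprime_le k n hQ0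
  have h' : (#{x ∈ Ico k (k + n) | (∏ p ∈ P, p).Coprime x} : ℝ) ≤
      (((∏ p ∈ P, p).totient : ℕ) : ℝ) * (((n / (∏ p ∈ P, p) : ℕ) : ℝ) + 1) := by exact_mod_cast h
  have hQr : (0 : ℝ) < ((∏ p ∈ P, p : ℕ) : ℝ) := by exact_mod_cast Nat.pos_of_ne_zero hQ0
  have h1 : ((n / (∏ p ∈ P, p) : ℕ) : ℝ) ≤ (n : ℝ) / ((∏ p ∈ P, p : ℕ) : ℝ) := Nat.cast_div_le
  have h2 := totient_prod P hP
  have h3 : (((∏ p ∈ P, p).totient : ℕ) : ℝ) ≤ ((∏ p ∈ P, p : ℕ) : ℝ) := by
    exact_mod_cast Nat.totient_le _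
  have h4 : (0 : ℝ) ≤ (((∏ p ∈ P, p).totient : ℕ) : ℝ) := by positivity
  calc _ ≤ (((∏ p ∈ P, p).totient : ℕ) : ℝ) * (((n / (∏ p ∈ P, p) : ℕ) : ℝ) + 1) := h'
    _ ≤ (((∏ p ∈ P, p).totient : ℕ) : ℝ) * ((n : ℝ) / ((∏ p ∈ P, p : ℕ) : ℝ) + 1) := by gcongr
    _ = (((∏ p ∈ P, p).totient : ℕ) : ℝ) * ((n : ℝ) / ((∏ p ∈ P, p : ℕ) : ℝ)) +
        (((∏ p ∈ P, p).totient : ℕ) : ℝ) := by ring
    _ ≤ _ := by
      apply add_le_add _ h3
      rw [h2]
      push_cast
      push_cast at hQr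
      apply le_of_eq
      field_simp

lemma prod_pos_of_prime {S : Finset ℕ} (hS : ∀ p ∈ S, p.Prime) : 0 < ∏ p ∈ S, p :=
  prod_pos fun p hp => (hS p hp).pos

lemma lg_eq {S : Finset ℕ} (hS : ∀ p ∈ S, p.Prime) : lg S = Real.log ((∏ p ∈ S, p : ℕ) : ℝ) := by
  unfold lg
  push_cast
  rw [Real.log_prod]
  intro p hp
  exact_mod_cast (hS p hp).ne_zero

lemma decomp (P : Finset ℕ) (hP : ∀ p ∈ P, p.Prime) (N : ℕ) (A : Finset ℕ) (hA : A ⊆ Icc 1 N) :
    (A.card : ℝ) ≤ (∑ S ∈ P.powerset,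
      (#{t ∈ Icc 1 N | (∏ p ∈ P, p).Coprime t ∧ (∏ p ∈ S, p) * t ∈ A} : ℝ)) +
      N * ∑ p ∈ P, 1 / (p : ℝ) ^ 2 := by
  classical
  set F : Finset ℕ → Finset ℕ := fun S =>
    {t ∈ Icc 1 N | (∏ p ∈ P, p).Coprime t ∧ (∏ p ∈ S, p) * t ∈ A} with hF
  set B : ℕ → Finset ℕ := fun p => {n ∈ Ioc 0 N | p ^ 2 ∣ n} with hB
  have hcov : A ⊆ (P.powerset.biUnion fun S => (F S).image fun t => (∏ p ∈ S, p) * t) ∪
      P.biUnion B := by
    intro n hn
    have hnN := mem_Icc.1 (hA hn)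
    rw [mem_union]
    by_cases hsq : ∃ p ∈ P, p ^ 2 ∣ n
    · right
      obtain ⟨p, hp, hpn⟩ := hsq
      rw [mem_biUnion]
      exact ⟨p, hp, by rw [hB]; simp only [mem_filter, mem_Ioc]; exact ⟨⟨hnN.1, hnN.2⟩, hpn⟩⟩
    · left
      push Not at hsq
      rw [mem_biUnion]
      set S := P.filter (· ∣ n) with hS
      have hSP : S ⊆ P := filter_subset _ _
      have hdvd : (∏ p ∈ S, p) ∣ n := by
        apply Finset.prod_primes_dvd
        · intro p hp; exact (hP p (hSP hp)).prime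
        · intro p hp; exact (mem_filter.1 hp).2
      obtain ⟨t, ht⟩ := hdvd
      refine ⟨S, mem_powerset.2 hSP, ?_⟩
      rw [mem_image]
      refine ⟨t, ?_, ht.symm⟩
      have hS0 : 0 < ∏ p ∈ S, p := prod_pos_of_prime fun p hp => hP p (hSP hp)
      have ht0 : 0 < t := by
        rcases Nat.eq_zero_or_pos t with h | h
        · rw [h] at ht; simp at ht; omega
        · exact h
      rw [hF]
      simp only [mem_filter, mem_Icc]
      refine ⟨⟨ht0, ?_⟩, ?_, by rw [← ht]; exact hn⟩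
      · have : t ≤ n := by rw [ht]; exact Nat.le_mul_of_pos_left t hS0
        omega
      · apply Nat.Coprime.prod_left
        intro p hp
        rw [Nat.Prime.coprime_iff_not_dvd (hP p hp)]
        intro hpt
        by_cases hpS : p ∈ S
        · apply hsq p hp
          rw [ht, sq]
          exact Nat.mul_dvd_mul (dvd_prod_of_mem _ hpS) hpt
        · apply hpS
          rw [hS, mem_filter]
          exact ⟨hp, by rw [ht]; exact Dvd.dvd.mul_left hpt _⟩
  have h1 : A.card ≤ (∑ S ∈ P.powerset, (F S).card) + ∑ p ∈ P, (B p).card := by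
    calc A.card ≤ _ := card_le_card hcov
      _ ≤ (P.powerset.biUnion fun S => (F S).image fun t => (∏ p ∈ S, p) * t).card +
          (P.biUnion B).card := card_union_le _ _
      _ ≤ _ := by
        apply add_le_add
        · refine card_biUnion_le.trans (sum_le_sum fun S _ => card_image_le)
        · exact card_biUnion_le
  have h2 : ∀ p ∈ P, ((B p).card : ℝ) ≤ N * (1 / (p : ℝ) ^ 2) := by
    intro p _
    rw [hB]
    simp only
    rw [Nat.Ioc_filter_dvd_card_eq_div]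
    have : ((N / p ^ 2 : ℕ) : ℝ) ≤ (N : ℝ) / ((p ^ 2 : ℕ) : ℝ) := Nat.cast_div_le
    push_cast at this
    rw [mul_one_div]
    exact this
  have h3 : (A.card : ℝ) ≤ (∑ S ∈ P.powerset, ((F S).card : ℝ)) + ∑ p ∈ P, ((B p).card : ℝ) := by
    exact_mod_cast h1
  refine h3.trans ?_
  rw [mul_sum]
  exact add_le_add le_rfl (sum_le_sum h2)

lemma final_of_Em (hE : ∀ m, StatEm m) :
    ∀ ε : ℝ, 0 < ε → ε ≤ 1 → ∃ N₀ : ℕ, ∀ N : ℕ, N₀ ≤ N →
      ∀ A : Finset ℕ, A ⊆ Finset.Icc 1 N → ε * (N : ℝ) ≤ (A.card : ℝ) →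
        ∃ a ∈ A, ∃ b ∈ A, ∃ c ∈ A, a ≠ b ∧ b ≠ c ∧ a ≠ c ∧
          Nat.lcm a b = Nat.lcm b c ∧ Nat.lcm a b = Nat.lcm a c := by
  intro ε hε hε1
  classical
  set m := cornersTheoremBound (ε / 4) with hm
  set w : ℕ := ⌈8 / ε⌉₊ with hw
  have hwpos : (0 : ℝ) < 8 / ε := by positivity
  have hw1 : 1 ≤ w := Nat.one_le_ceil_iff.2 hwpos
  have hw8 : 1 / (w : ℝ) ≤ ε / 8 := by
    have : 8 / ε ≤ w := Nat.le_ceil _
    have hwr : (0 : ℝ) < w := by exact_mod_cast hw1
    rw [div_le_div_iff₀ hwr (by norm_num)]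
    rw [div_le_iff₀ hε] at this
    linarith
  obtain ⟨P, hP, G, iG, iF, hcard, hf⟩ := hE m (ε / 8) (by positivity) (ε / 8) (by positivity) w
  have hPp : ∀ p ∈ P, p.Prime := fun p hp => (hP p hp).1
  set Q : ℕ := ∏ p ∈ P, p with hQ
  have hQ0 : 0 < Q := prod_pos_of_prime hPp
  set c : ℝ := ∏ p ∈ P, (1 - 1 / (p : ℝ)) with hc
  have hc0 : 0 < c := by
    apply prod_pos
    intro p hp
    have : (1 : ℝ) < p := by exact_mod_cast (hPp p hp).one_lt
    rw [sub_pos, div_lt_one (by linarith)]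
    exact this
  have hc1 : c ≤ 1 := by
    apply prod_le_one
    · intro p _; exact one_sub_inv_nonneg p
    · intro p _
      have : (0 : ℝ) ≤ 1 / (p : ℝ) := by positivity
      linarith
  have hQr : (1 : ℝ) ≤ Q := by exact_mod_cast hQ0
  refine ⟨⌈8 * (Q + 1) * Q / (c * ε)⌉₊ + 1, ?_⟩
  intro N hN A hA hAc
  have hN1 : 1 ≤ N := by omega
  have hNr : (0 : ℝ) < N := by exact_mod_cast hN1
  have hNbig : 8 * ((Q : ℝ) + 1) * Q / (c * ε) ≤ N := by
    have h1 : 8 * ((Q : ℝ) + 1) * Q / (c * ε) ≤ (⌈8 * ((Q : ℝ) + 1) * Q / (c * ε)⌉₊ : ℝ) := Nat.le_ceil _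
    have h2 : (⌈8 * ((Q : ℝ) + 1) * Q / (c * ε)⌉₊ : ℝ) ≤ N := by
      exact_mod_cast (by omega : ⌈8 * ((Q : ℝ) + 1) * Q / (c * ε)⌉₊ ≤ N)
    linarith
  have hNbig' : 8 * ((Q : ℝ) + 1) * Q ≤ N * (c * ε) := by
    rwa [div_le_iff₀ (by positivity)] at hNbig
  -- fibres
  set F : Finset ℕ → Finset ℕ := fun S =>
    {t ∈ Icc 1 N | Q.Coprime t ∧ (∏ p ∈ S, p) * t ∈ A} with hF
  set s : Finset ℕ → ℕ := fun S => ∏ p ∈ S, p with hs
  have hspos : ∀ S, S ⊆ P → 0 < s S := fun S hS => prod_pos_of_prime fun p hp => hPp p (hS hp)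
  have hsQ : ∀ S, S ⊆ P → s S ≤ Q := by
    intro S hS
    apply prod_le_prod_of_subset_of_one_le' hS
    intro p hp _
    exact (hPp p hp).one_lt.le
  -- upper bound for a fibre
  have hFle : ∀ S, S ⊆ P → ((F S).card : ℝ) ≤ c * (N / s S) + Q := by
    intro S hS
    have hsub : F S ⊆ {x ∈ Ico 1 (1 + N / s S) | Q.Coprime x} := by
      intro t ht
      rw [hF] at ht
      simp only [mem_filter, mem_Icc] at ht
      rw [mem_filter, mem_Ico]
      refine ⟨⟨ht.1.1, ?_⟩, ht.2.1⟩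
      have h1 := (mem_Icc.1 (hA ht.2.2)).2
      have : t ≤ N / s S := by
        rw [Nat.le_div_iff_mul_le (hspos S hS), mul_comm]
        exact h1
      omega
    have h1 : ((F S).card : ℝ) ≤ (#{x ∈ Ico 1 (1 + N / s S) | Q.Coprime x} : ℝ) := by
      exact_mod_cast card_le_card hsub
    have h2 := count_coprime P hPp 1 (N / s S)
    have h3 : ((N / s S : ℕ) : ℝ) ≤ (N : ℝ) / s S := Nat.cast_div_le
    calc ((F S).card : ℝ) ≤ _ := h1
      _ ≤ c * ((N / s S : ℕ) : ℝ) + Q := h2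
      _ ≤ c * (N / s S) + Q := by gcongr
  -- the function
  set f : Finset ℕ → ℝ := fun S =>
    if S ⊆ P then (F S).card * (s S : ℝ) / (N * c * (1 + ε / 8)) else 0 with hfdef
  have hf0 : ∀ S, 0 ≤ f S := by
    intro S
    rw [hfdef]; simp only
    split_ifs
    · positivity
    · exact le_rfl
  have hf1 : ∀ S, f S ≤ 1 := by
    intro S
    rw [hfdef]; simp only
    split_ifs with hS
    · rw [div_le_one (by positivity)]
      have hsr : (0 : ℝ) < s S := by exact_mod_cast hspos S hS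
      have hsQr : (s S : ℝ) ≤ Q := by exact_mod_cast hsQ S hS
      have h1 : ((F S).card : ℝ) * s S ≤ (c * (N / s S) + Q) * s S :=
        mul_le_mul_of_nonneg_right (hFle S hS) hsr.le
      have h2 : (c * (N / s S) + Q) * s S = c * N + Q * s S := by field_simp
      have h3 : (Q : ℝ) * s S ≤ Q * Q := by gcongr
      have h4 : (Q : ℝ) * Q * 8 ≤ N * (c * ε) := by nlinarith
      nlinarith
    · norm_num
  have hEf : EP P f = (∑ S ∈ P.powerset, ((F S).card : ℝ)) / (N * (1 + ε / 8)) := by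
    unfold EP
    rw [sum_div]
    apply sum_congr rfl
    intro S hS
    rw [mem_powerset] at hS
    rw [hfdef]; simp only [hS, if_true]
    unfold wt
    have hsr : (0 : ℝ) < s S := by exact_mod_cast hspos S hS
    have hprod : ∏ p ∈ S, (1 / (p : ℝ)) = 1 / (s S : ℝ) := by
      rw [hs]; push_cast
      rw [one_div, ← prod_inv_distrib]
      exact prod_congr rfl fun p _ => one_div _
    rw [hprod, ← hc]
    field_simp
  have hdec := decomp P hPp N A hA
  have hsq := sum_inv_sq_le P w hw1 (fun p hp => (hP p hp).2)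
  have hsumF : (7 / 8 * ε) * N ≤ ∑ S ∈ P.powerset, ((F S).card : ℝ) := by
    have h1 : (N : ℝ) * ∑ p ∈ P, 1 / (p : ℝ) ^ 2 ≤ N * (ε / 8) := by
      apply mul_le_mul_of_nonneg_left _ hNr.le
      linarith
    have h2 : (A.card : ℝ) ≤ (∑ S ∈ P.powerset, ((F S).card : ℝ)) + N * ∑ p ∈ P, 1 / (p : ℝ) ^ 2 := hdec
    linarith
  have hEfge : 7 / 9 * ε ≤ EP P f := by
    rw [hEf, le_div_iff₀ (by positivity)]
    refine le_trans ?_ hsumF
    have : 7 / 9 * ε * (N * (1 + ε / 8)) = (7 / 9 * (1 + ε / 8)) * (ε * N) := by ring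
    rw [this]
    have h2 : 7 / 9 * (1 + ε / 8) ≤ 7 / 8 := by linarith
    have h3 : 0 ≤ ε * N := by positivity
    nlinarith
  obtain ⟨S, hS, hSf⟩ := hf f hf0 hf1 (by linarith)
  -- the largest size
  obtain ⟨g₀, -, hg₀⟩ := exists_max_image (univ : Finset G) (fun g => s (S g)) ⟨0, mem_univ _⟩
  set smax := s (S g₀) with hsmax
  have hsmax0 : 0 < smax := hspos _ (hS.sub g₀)
  have hsmaxr : (0 : ℝ) < smax := by exact_mod_cast hsmax0
  set T := N / smax with hT
  have hTr : (T : ℝ) ≤ N / smax := Nat.cast_div_le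
  have hTr' : (N : ℝ) / smax - 1 ≤ T := by
    rw [sub_le_iff_le_add, div_le_iff₀ hsmaxr]
    have h1 : N < (T + 1) * smax := by
      rw [hT, mul_comm]
      exact Nat.lt_mul_div_succ N hsmax0
    have h2 : (N : ℝ) < (T + 1) * smax := by exact_mod_cast h1
    exact h2.le
  have hmain : ∀ g, c * N / smax * (f (S g) - ε / 4) ≤ (#{t ∈ F (S g) | t ≤ T} : ℝ) := by
    intro g
    have hsg0 : 0 < s (S g) := hspos _ (hS.sub g)
    have hsgr : (0 : ℝ) < s (S g) := by exact_mod_cast hsg0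
    have hsle : s (S g) ≤ smax := hg₀ g (mem_univ _)
    have hsler : (s (S g) : ℝ) ≤ smax := by exact_mod_cast hsle
    rcases lt_or_ge (f (S g)) (ε / 4) with hlt | hge
    · have h1 : c * N / smax * (f (S g) - ε / 4) ≤ 0 := by
        apply mul_nonpos_of_nonneg_of_nonpos (by positivity)
        linarith
      have h2 : (0 : ℝ) ≤ (#{t ∈ F (S g) | t ≤ T} : ℝ) := by positivity
      linarith
    · -- split
      have hle : T ≤ N / s (S g) := by
        rw [hT]
        exact Nat.div_le_div_left hsle hsg0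
      have hcov : F (S g) ⊆ {t ∈ F (S g) | t ≤ T} ∪
          {x ∈ Ico (T + 1) ((T + 1) + (N / s (S g) - T)) | Q.Coprime x} := by
        intro t ht
        rw [mem_union]
        rcases le_or_gt t T with h | h
        · left; rw [mem_filter]; exact ⟨ht, h⟩
        · right
          rw [hF] at ht
          simp only [mem_filter, mem_Icc] at ht
          rw [mem_filter, mem_Ico]
          refine ⟨⟨h, ?_⟩, ht.2.1⟩
          have h1 := (mem_Icc.1 (hA ht.2.2)).2
          have : t ≤ N / s (S g) := by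
            rw [Nat.le_div_iff_mul_le hsg0, mul_comm]
            exact h1
          omega
      have h1 : ((F (S g)).card : ℝ) ≤ (#{t ∈ F (S g) | t ≤ T} : ℝ) +
          (#{x ∈ Ico (T + 1) ((T + 1) + (N / s (S g) - T)) | Q.Coprime x} : ℝ) := by
        exact_mod_cast (card_le_card hcov).trans (card_union_le _ _)
      have h2 := count_coprime P hPp (T + 1) (N / s (S g) - T)
      rw [Nat.cast_sub hle] at h2
      have h3 : ((N / s (S g) : ℕ) : ℝ) ≤ N / s (S g) := Nat.cast_div_le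
      -- closeness
      have hcl := hS.close g₀ g
      rw [lg_eq (fun p hp => hPp p (hS.sub g₀ hp)), lg_eq (fun p hp => hPp p (hS.sub g hp))] at hcl
      have hcl' : Real.log (smax : ℝ) - Real.log (s (S g) : ℝ) ≤ ε / 8 := (abs_le.1 hcl).2
      have h4 : 1 - (s (S g) : ℝ) / smax ≤ ε / 8 := by
        have h5 := Real.one_sub_inv_le_log_of_pos (x := (smax : ℝ) / s (S g)) (by positivity)
        rw [inv_div, Real.log_div hsmaxr.ne' hsgr.ne'] at h5
        linarith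
      have h5 : (N : ℝ) / s (S g) - N / smax ≤ N / s (S g) * (ε / 8) := by
        have : (N : ℝ) / s (S g) - N / smax = N / s (S g) * (1 - (s (S g) : ℝ) / smax) := by
          field_simp
        rw [this]
        exact mul_le_mul_of_nonneg_left h4 (by positivity)
      have h6 : (#{x ∈ Ico (T + 1) ((T + 1) + (N / s (S g) - T)) | Q.Coprime x} : ℝ) ≤
          c * (N / s (S g) * (ε / 8)) + 1 + Q := by
        have h7 : ((N / s (S g) : ℕ) : ℝ) - T ≤ N / s (S g) * (ε / 8) + 1 := by linarith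
        have h8 : c * (((N / s (S g) : ℕ) : ℝ) - T) ≤ c * (N / s (S g) * (ε / 8) + 1) :=
          mul_le_mul_of_nonneg_left h7 hc0.le
        have h9 : c * (N / s (S g) * (ε / 8) + 1) ≤ c * (N / s (S g) * (ε / 8)) + 1 := by
          rw [mul_add]; linarith
        have : ((∏ p ∈ P, p : ℕ) : ℝ) = (Q : ℝ) := rfl
        rw [this] at h2
        linarith
      have hcardf : ((F (S g)).card : ℝ) = c * N / s (S g) * ((1 + ε / 8) * f (S g)) := by
        rw [hfdef]; simp only [hS.sub g, if_true]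
        field_simp
      have h10 : (1 : ℝ) + Q ≤ c * N / s (S g) * (ε / 8) := by
        have hsgQ : (s (S g) : ℝ) ≤ Q := by exact_mod_cast hsQ _ (hS.sub g)
        rw [div_mul_eq_mul_div, le_div_iff₀ hsgr]
        have : (1 + (Q : ℝ)) * s (S g) ≤ (1 + Q) * Q := by gcongr
        nlinarith
      have h11 : c * N / s (S g) * (f (S g) - ε / 4) ≤ (#{t ∈ F (S g) | t ≤ T} : ℝ) := by
        have h12 : c * (N / s (S g) * (ε / 8)) = c * N / s (S g) * (ε / 8) := by ring
        have h13 : 0 ≤ c * N / s (S g) * ((ε / 8) * f (S g)) :=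
          mul_nonneg (div_nonneg (mul_nonneg hc0.le hNr.le) hsgr.le)
            (mul_nonneg (by linarith) (hf0 (S g)))
        rw [hcardf] at h1
        rw [h12] at h6
        nlinarith
      refine le_trans ?_ h11
      apply mul_le_mul_of_nonneg_right _ (by linarith)
      gcongr
  -- sum over g
  have hsum1 : c * N / smax * (3 ^ m * (29 / 72 * ε)) ≤ ∑ g : G, (#{t ∈ F (S g) | t ≤ T} : ℝ) := by
    have h1 : ∑ g : G, c * N / smax * (f (S g) - ε / 4) ≤ ∑ g : G, (#{t ∈ F (S g) | t ≤ T} : ℝ) :=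
      sum_le_sum fun g _ => hmain g
    refine le_trans ?_ h1
    rw [← mul_sum, sum_sub_distrib, sum_const, card_univ, hcard]
    apply mul_le_mul_of_nonneg_left _ (by positivity)
    rw [le_div_iff₀ (by positivity)] at hSf
    rw [nsmul_eq_mul]
    push_cast
    have h3 : (0 : ℝ) < 3 ^ m := by positivity
    nlinarith
  -- exchange the sums
  set U : Finset ℕ := {x ∈ Ico 1 (1 + T) | Q.Coprime x} with hU
  have hUcard : (U.card : ℝ) ≤ c * N / smax * (1 + ε / 8) := by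
    have h1 := count_coprime P hPp 1 T
    have h2 : (U.card : ℝ) ≤ c * T + Q := h1
    have hsQr : (smax : ℝ) ≤ Q := by exact_mod_cast hsQ _ (hS.sub g₀)
    have h3 : (Q : ℝ) ≤ c * N / smax * (ε / 8) := by
      rw [div_mul_eq_mul_div, le_div_iff₀ hsmaxr]
      have : (Q : ℝ) * smax ≤ Q * Q := by gcongr
      nlinarith
    have h4 : c * T ≤ c * N / smax := by
      rw [mul_div_assoc]
      exact mul_le_mul_of_nonneg_left hTr hc0.le
    linarith
  have hswap : ∑ g : G, (#{t ∈ F (S g) | t ≤ T} : ℝ) =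
      ∑ t ∈ U, (#{g : G | s (S g) * t ∈ A} : ℝ) := by
    have h1 : ∀ g : G, {t ∈ F (S g) | t ≤ T} = {t ∈ U | s (S g) * t ∈ A} := by
      intro g
      ext t
      rw [hF, hU]
      simp only [mem_filter, mem_Icc, mem_Ico]
      constructor
      · rintro ⟨⟨⟨h1, h2⟩, h3, h4⟩, h5⟩
        exact ⟨⟨⟨h1, by omega⟩, h3⟩, h4⟩
      · rintro ⟨⟨⟨h1, h2⟩, h3⟩, h4⟩
        refine ⟨⟨⟨h1, ?_⟩, h3, h4⟩, by omega⟩
        have := (mem_Icc.1 (hA h4)).2
        exact le_trans (Nat.le_mul_of_pos_left t (hspos _ (hS.sub g))) this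
    have h2 : ∀ g : G, (#{t ∈ F (S g) | t ≤ T} : ℝ) = ∑ t ∈ U, if s (S g) * t ∈ A then (1 : ℝ) else 0 := by
      intro g
      rw [h1, sum_boole]
    simp only [h2]
    rw [sum_comm]
    apply sum_congr rfl
    intro t _
    rw [sum_boole]
  -- a good t
  have hex : ∃ t ∈ U, ε / 4 * (3 : ℝ) ^ m ≤ (#{g : G | s (S g) * t ∈ A} : ℝ) := by
    by_contra hcon
    push Not at hcon
    have h1 : ∑ t ∈ U, (#{g : G | s (S g) * t ∈ A} : ℝ) ≤ ∑ t ∈ U, ε / 4 * (3 : ℝ) ^ m :=
      sum_le_sum fun t ht => (hcon t ht).le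
    rw [sum_const, nsmul_eq_mul, ← hswap] at h1
    have h2 : (U.card : ℝ) * (ε / 4 * (3 : ℝ) ^ m) ≤ c * N / smax * (1 + ε / 8) * (ε / 4 * (3 : ℝ) ^ m) := by
      gcongr
    have h3 : c * N / smax * (3 ^ m * (29 / 72 * ε)) ≤ c * N / smax * (1 + ε / 8) * (ε / 4 * (3 : ℝ) ^ m) := by
      linarith
    have h4 : 0 < c * N / smax * (3 ^ m * ε) := by positivity
    have h5 : c * N / smax * (1 + ε / 8) * (ε / 4 * (3 : ℝ) ^ m) =
      c * N / smax * (3 ^ m * ε) * ((1 + ε / 8) / 4) := by ring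
    have h6 : c * N / smax * (3 ^ m * (29 / 72 * ε)) = c * N / smax * (3 ^ m * ε) * (29 / 72) := by ring
    rw [h5, h6] at h3
    have h7 := le_of_mul_le_mul_left h3 h4
    linarith
  obtain ⟨t, htU, ht⟩ := hex
  have ht0 : 0 < t := by
    rw [hU, mem_filter, mem_Ico] at htU
    exact htU.1.1
  have hroth := roth_3ap_theorem (G := G) (ε / 4) (by positivity)
    (by rw [hcard, ← hm]; exact (Nat.lt_pow_self (by norm_num)).le)
    ({g : G | s (S g) * t ∈ A}) (by rw [hcard]; push_cast; exact ht)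
  unfold ThreeAPFree at hroth
  push Not at hroth
  obtain ⟨a, ha, b, hb, c', hc', habc, hab⟩ := hroth
  simp only [coe_filter, mem_univ, true_and, Set.mem_ofPred_eq] at ha hb hc'
  have hbc : b ≠ c' := by
    rintro rfl
    exact hab (add_right_cancel habc)
  have hac : a ≠ c' := by
    rintro rfl
    -- 2 (a - b) = 0
    have h2 : (2 : ℕ) • (a - b) = 0 := by
      rw [two_nsmul, sub_add_sub_comm, habc, sub_self]
    have h3 : addOrderOf (a - b) ∣ 2 := addOrderOf_dvd_iff_nsmul_eq_zero.2 h2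
    have h4 : addOrderOf (a - b) ∣ 3 ^ m := by rw [← hcard]; exact addOrderOf_dvd_card
    have h5 : Nat.Coprime 2 (3 ^ m) := Nat.Coprime.pow_right _ (by norm_num)
    have h6 : addOrderOf (a - b) = 1 := Nat.eq_one_of_dvd_coprimes h5 h3 h4
    rw [AddMonoid.addOrderOf_eq_one_iff, sub_eq_zero] at h6
    exact hab h6
  have hinj : ∀ x y : G, x ≠ y → s (S x) * t ≠ s (S y) * t := by
    intro x y hxy h
    apply hxy
    apply hS.inj
    have h1 : s (S x) = s (S y) := Nat.eq_of_mul_eq_mul_right ht0 h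
    rw [← Nat.primeFactors_prod (s := S x) (fun p hp => hPp p (hS.sub x hp)),
      ← Nat.primeFactors_prod (s := S y) (fun p hp => hPp p (hS.sub y hp))]
    exact congrArg Nat.primeFactors h1
  have hlcm : ∀ x y : G, Nat.lcm (s (S x) * t) (s (S y) * t) = (∏ p ∈ S x ∪ S y, p) * t := by
    intro x y
    rw [Nat.lcm_mul_right, lcm_prod _ _ (fun p hp => hPp p (hS.sub x hp)) (fun p hp => hPp p (hS.sub y hp))]
  refine ⟨_, ha, _, hb, _, hc', hinj _ _ hab, hinj _ _ hbc, hinj _ _ hac, ?_, ?_⟩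
  · rw [hlcm, hlcm, (hS.line a b c' habc).1]
  · rw [hlcm, hlcm, (hS.line a b c' habc).2]

end Pool.Agent.Helper35
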