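import Pool.Agent.Helper35.Cube

set_option autoImplicit false

open Finset

namespace Pool.Agent.Helper35

/-- the statement for one window with a density of bounded second moment -/
def StatE0 : Prop := ∀ δ : ℝ, 0 < δ → ∀ η : ℝ, 0 < η → ∃ C : ℝ, ∀ w : ℕ, ∃ P : Finset ℕ,
  (∀ p ∈ P, p.Prime ∧ w < p) ∧ ∃ D : Finset ℕ → ℝ, (∀ S, 0 ≤ D S) ∧ 1 - η ≤ EP P D ∧ EP P D ≤ 1 ∧
    EP P (fun S => D S ^ 2) ≤ C ∧
    ∀ f : Finset ℕ → ℝ, (∀ S, 0 ≤ f S) → (∀ S, f S ≤ 1) → η < EP P (fun S => f S * D S) →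
      ∃ S : ZMod 3 → Finset ℕ, Cube P δ S ∧ EP P (fun S => f S * D S) - η ≤ (∑ a, f (S a)) / 3

lemma EP_mul_of_disjoint {A B R : Finset ℕ} (hAB : Disjoint A B) (hAR : Disjoint A R)
    (hBR : Disjoint B R) (F G : Finset ℕ → ℝ) :
    EP (A ∪ (B ∪ R)) (fun S => F (S ∩ A) * G (S ∩ B)) = EP A F * (EP B G * EP R (fun _ => 1)) := by
  rw [EP_union (by rw [disjoint_union_right]; exact ⟨hAB, hAR⟩)]
  rw [← EP_mul_right]
  apply EP_congr
  intro S hS
  rw [EP_union hBR, ← EP_mul_right, ← EP_mul_left]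
  apply EP_congr
  intro T hT
  rw [← EP_mul_left, ← EP_mul_left]
  apply EP_congr
  intro U hU
  have h1 : (S ∪ (T ∪ U)) ∩ A = S := by
    ext p
    simp only [mem_inter, mem_union]
    constructor
    · rintro ⟨h | h | h, hA⟩
      · exact h
      · exact absurd (hT h) (disjoint_left.1 hAB hA)
      · exact absurd (hU h) (disjoint_left.1 hAR hA)
    · intro h; exact ⟨Or.inl h, hS h⟩
  have h2 : (S ∪ (T ∪ U)) ∩ B = T := by
    ext p
    simp only [mem_inter, mem_union]
    constructor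
    · rintro ⟨h | h | h, hB⟩
      · exact absurd hB (disjoint_left.1 hAB (hS h))
      · exact h
      · exact absurd (hU h) (disjoint_left.1 hBR hB)
    · intro h; exact ⟨Or.inr (Or.inl h), hT h⟩
  rw [h1, h2, mul_one]

lemma EP_of_inter {A R : Finset ℕ} (hAR : Disjoint A R) (F G : Finset ℕ → ℝ) :
    EP (A ∪ R) (fun S => G S * F (S ∩ A)) = EP A (fun S => EP R (fun T => G (S ∪ T)) * F S) := by
  rw [EP_union hAR]
  apply EP_congr
  intro S hS
  rw [← EP_mul_right]
  apply EP_congr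
  intro T hT
  have h1 : (S ∪ T) ∩ A = S := by
    ext p
    simp only [mem_inter, mem_union]
    constructor
    · rintro ⟨h | h, hA⟩
      · exact h
      · exact absurd (hT h) (disjoint_left.1 hAR hA)
    · intro h; exact ⟨Or.inl h, hS h⟩
  rw [h1]

lemma E1_of_E0 (h : StatE0) : StatE1 := by
  intro δ hδ η hη w
  obtain ⟨C, hC⟩ := h δ hδ (η / 4) (by positivity)
  choose Pw hPw Dw hD0 hD1 hD2 hD3 hDf using hC
  set η' := η / 4 with hη'
  have hη'0 : 0 < η' := by positivity
  set w₀ : ℕ := max w ⌈1 / η'⌉₊ with hw₀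
  have hw₀1 : 1 ≤ w₀ := le_trans (Nat.one_le_ceil_iff.2 (by positivity)) (le_max_right _ _)
  have hw₀η : 1 / (w₀ : ℝ) ≤ η' := by
    have h1 : 1 / η' ≤ (w₀ : ℝ) := by
      have h2 : 1 / η' ≤ (⌈1 / η'⌉₊ : ℝ) := Nat.le_ceil _
      have h3 : ((⌈1 / η'⌉₊ : ℕ) : ℝ) ≤ w₀ := by exact_mod_cast le_max_right _ _
      linarith
    have hw0r : (0 : ℝ) < w₀ := by exact_mod_cast hw₀1
    rw [div_le_iff₀ hw0r]
    rw [div_le_iff₀ hη'0] at h1
    linarith
  -- windows
  let ws : ℕ → ℕ := fun j => Nat.rec w₀ (fun _ x => max x ((Pw x).sup id)) j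
  have ws0 : ws 0 = w₀ := rfl
  have wss : ∀ j, ws (j + 1) = max (ws j) ((Pw (ws j)).sup id) := fun _ => rfl
  have wsmono : Monotone ws := monotone_nat_of_le_succ fun j => by rw [wss]; exact le_max_left _ _
  have hws : ∀ j, w₀ ≤ ws j := fun j => by rw [← ws0]; exact wsmono (Nat.zero_le j)
  have hlt : ∀ i j, i < j → Disjoint (Pw (ws i)) (Pw (ws j)) := by
    intro i j hij
    rw [disjoint_left]
    intro p hp hq
    have h1 : p ≤ (Pw (ws i)).sup id := le_sup (f := id) hp
    have h2 := (hPw (ws j) p hq).2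
    have h3 : ws (i + 1) ≤ ws j := wsmono hij
    rw [wss] at h3
    have h4 := le_max_right (ws i) ((Pw (ws i)).sup id)
    omega
  have hdis : ∀ i j, i ≠ j → Disjoint (Pw (ws i)) (Pw (ws j)) := by
    intro i j hij
    rcases lt_or_gt_of_ne hij with h1 | h1
    · exact hlt i j h1
    · exact (hlt j i h1).symm
  have hC0 : 0 ≤ C := le_trans (EP_nonneg fun S _ => by positivity) (hD3 0)
  obtain ⟨J, hJ⟩ := exists_nat_ge ((1 + C) / (2 * η' ^ 2) + 1)
  have hJ1 : (1 : ℝ) ≤ J := by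
    have : 0 ≤ (1 + C) / (2 * η' ^ 2) := by positivity
    linarith
  have hJ0 : 0 < J := by
    have : (0 : ℝ) < J := by linarith
    exact_mod_cast this
  have hJC : (1 + C) / (2 * η') ≤ J * η' := by
    have h1 : (1 + C) / (2 * η' ^ 2) ≤ J := by linarith
    rw [div_le_iff₀ (by positivity)] at h1 ⊢
    nlinarith
  set PP : Finset ℕ := (range J).biUnion fun j => Pw (ws j) with hPP
  have hsubP : ∀ j ∈ range J, Pw (ws j) ⊆ PP := fun j hj => subset_biUnion_of_mem (fun j => Pw (ws j)) hj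
  refine ⟨PP, ?_, ?_⟩
  · intro p hp
    rw [hPP, mem_biUnion] at hp
    obtain ⟨j, -, hj⟩ := hp
    have h1 := hPw (ws j) p hj
    refine ⟨h1.1, ?_⟩
    have h2 := hws j
    have h3 : w ≤ w₀ := le_max_left _ _
    omega
  intro f hf0 hf1 hf
  -- the centred functions
  set F : ℕ → Finset ℕ → ℝ := fun j S => 1 - Dw (ws j) S with hF
  have hEF : ∀ j, |EP (Pw (ws j)) (F j)| ≤ η' := by
    intro j
    rw [hF, EP_sub, abs_le]
    have h1 := EP_one_le (Pw (ws j))
    have h2 := EP_one_ge (Pw (ws j)) w₀ hw₀1 (fun p hp => lt_of_le_of_lt (hws j) (hPw _ p hp).2)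
    have h3 := hD1 (ws j)
    have h4 := hD2 (ws j)
    constructor <;> linarith
  have hoff : ∀ i ∈ range J, ∀ j ∈ range J, i ≠ j →
      EP PP (fun S => F i (S ∩ Pw (ws i)) * F j (S ∩ Pw (ws j))) ≤ η' ^ 2 := by
    intro i hi j hj hij
    set R := PP \ (Pw (ws i) ∪ Pw (ws j)) with hR
    have hPPe : PP = Pw (ws i) ∪ (Pw (ws j) ∪ R) := by
      rw [← union_assoc, hR, union_sdiff_of_subset (union_subset (hsubP i hi) (hsubP j hj))]
    have hiR : Disjoint (Pw (ws i)) R := by
      rw [hR]; exact disjoint_of_subset_left subset_union_left disjoint_sdiff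
    have hjR : Disjoint (Pw (ws j)) R := by
      rw [hR]; exact disjoint_of_subset_left subset_union_right disjoint_sdiff
    rw [hPPe, EP_mul_of_disjoint (hdis i j hij) hiR hjR]
    have h1 := EP_one_le R
    have h0 : 0 ≤ EP R (fun _ => 1) := EP_nonneg fun _ _ => zero_le_one
    have h2 : |EP (Pw (ws i)) (F i) * (EP (Pw (ws j)) (F j) * EP R fun _ => 1)| ≤ η' * (η' * 1) := by
      rw [abs_mul, abs_mul, abs_of_nonneg h0]
      exact mul_le_mul (hEF i) (mul_le_mul (hEF j) h1 h0 hη'0.le) (by positivity) hη'0.le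
    calc _ ≤ _ := le_abs_self _
      _ ≤ η' * (η' * 1) := h2
      _ = η' ^ 2 := by ring
  have hdiag : ∀ i ∈ range J,
      EP PP (fun S => F i (S ∩ Pw (ws i)) * F i (S ∩ Pw (ws i))) ≤ 1 + C := by
    intro i hi
    have h1 : EP PP (fun S => F i (S ∩ Pw (ws i)) * F i (S ∩ Pw (ws i))) ≤
        EP PP (fun S => 1 + 1 * Dw (ws i) (S ∩ Pw (ws i)) ^ 2) := by
      apply EP_mono
      intro S _
      have := hD0 (ws i) (S ∩ Pw (ws i))
      rw [hF]
      nlinarith
    refine h1.trans ?_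
    rw [EP_add]
    set R := PP \ Pw (ws i) with hR
    have hPPe : PP = Pw (ws i) ∪ R := by rw [hR, union_sdiff_of_subset (hsubP i hi)]
    have hiR : Disjoint (Pw (ws i)) R := disjoint_sdiff
    have h2 : EP PP (fun S => 1 * Dw (ws i) (S ∩ Pw (ws i)) ^ 2) =
        EP (Pw (ws i)) (fun S => EP R (fun _ => 1) * Dw (ws i) S ^ 2) := by
      conv_lhs => rw [hPPe]
      exact EP_of_inter hiR (fun S => Dw (ws i) S ^ 2) (fun _ => 1)
    rw [h2, EP_mul_left]
    have h3 := hD3 (ws i)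
    have h4 := EP_one_le R
    have h5 : 0 ≤ EP R (fun _ => 1) := EP_nonneg fun _ _ => zero_le_one
    have h6 : 0 ≤ EP (Pw (ws i)) (fun S => Dw (ws i) S ^ 2) := EP_nonneg fun _ _ => by positivity
    have h7 := EP_one_le PP
    nlinarith
  -- second moment of the sum
  set X : Finset ℕ → ℝ := fun S => ∑ j ∈ range J, F j (S ∩ Pw (ws j)) with hX
  have hX2 : EP PP (fun S => X S ^ 2) ≤ J * (1 + C) + J ^ 2 * η' ^ 2 := by
    have e1 : ∀ S, X S ^ 2 = ∑ i ∈ range J, ∑ j ∈ range J,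
        F i (S ∩ Pw (ws i)) * F j (S ∩ Pw (ws j)) := by
      intro S
      rw [hX, sq, sum_mul_sum]
    simp only [e1]
    rw [EP_sum]
    have e2 : ∀ i, EP PP (fun S => ∑ j ∈ range J, F i (S ∩ Pw (ws i)) * F j (S ∩ Pw (ws j))) =
        ∑ j ∈ range J, EP PP (fun S => F i (S ∩ Pw (ws i)) * F j (S ∩ Pw (ws j))) := by
      intro i; rw [EP_sum]
    simp only [e2]
    have h1 : ∀ i ∈ range J, ∑ j ∈ range J,
        EP PP (fun S => F i (S ∩ Pw (ws i)) * F j (S ∩ Pw (ws j))) ≤ (1 + C) + J * η' ^ 2 := by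
      intro i hi
      rw [← add_sum_erase _ _ hi]
      apply add_le_add (hdiag i hi)
      have h2 : ∑ j ∈ (range J).erase i, EP PP (fun S => F i (S ∩ Pw (ws i)) * F j (S ∩ Pw (ws j))) ≤
          ∑ j ∈ (range J).erase i, η' ^ 2 := by
        apply sum_le_sum
        intro j hj
        rw [mem_erase] at hj
        exact hoff i hi j hj.2 hj.1.symm
      refine h2.trans ?_
      rw [sum_const, nsmul_eq_mul]
      apply mul_le_mul_of_nonneg_right _ (by positivity)
      have : ((range J).erase i).card ≤ J := by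
        calc _ ≤ (range J).card := card_erase_le
          _ = J := card_range J
      exact_mod_cast this
    refine (sum_le_sum h1).trans ?_
    rw [sum_const, card_range, nsmul_eq_mul]
    nlinarith
  -- first moment against f
  have hfX : EP PP (fun S => f S * X S) ≤ 2 * (J * η') := by
    have hJη : 0 < J * η' := by positivity
    have h1 : EP PP (fun S => f S * X S) ≤
        EP PP (fun S => X S ^ 2 * (1 / (2 * (J * η'))) + (J * η') / 2) := by
      apply EP_mono
      intro S _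
      have h2 : f S * X S ≤ |X S| := by
        calc f S * X S ≤ |f S * X S| := le_abs_self _
          _ = f S * |X S| := by rw [abs_mul, abs_of_nonneg (hf0 S)]
          _ ≤ 1 * |X S| := mul_le_mul_of_nonneg_right (hf1 S) (abs_nonneg _)
          _ = |X S| := one_mul _
      refine h2.trans ?_
      rw [mul_one_div, ← sq_abs (X S)]
      have h3 : 0 ≤ (|X S| - J * η') ^ 2 / (2 * (J * η')) := by positivity
      have h4 : |X S| ^ 2 / (2 * (J * η')) + J * η' / 2 - |X S| =
          (|X S| - J * η') ^ 2 / (2 * (J * η')) := by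
        field_simp
        ring
      linarith
    refine h1.trans ?_
    rw [EP_add, EP_mul_right, EP_const]
    have h3 := EP_one_le PP
    have h4 : EP PP (fun S => X S ^ 2) * (1 / (2 * (J * η'))) ≤
        (J * (1 + C) + J ^ 2 * η' ^ 2) * (1 / (2 * (J * η'))) :=
      mul_le_mul_of_nonneg_right hX2 (by positivity)
    have h5 : (J * (1 + C) + (J : ℝ) ^ 2 * η' ^ 2) * (1 / (2 * (J * η'))) =
        (1 + C) / (2 * η') + J * η' / 2 := by
      field_simp
    rw [h5] at h4
    have h6 : J * η' / 2 * EP PP (fun _ => 1) ≤ J * η' / 2 * 1 :=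
      mul_le_mul_of_nonneg_left h3 (by positivity)
    linarith
  -- choose a window
  have hsum : ∑ j ∈ range J, EP PP (fun S => f S * F j (S ∩ Pw (ws j))) ≤
      ∑ j ∈ range J, 2 * η' := by
    rw [sum_const, card_range, nsmul_eq_mul, ← EP_sum]
    have e : (fun S => ∑ j ∈ range J, f S * F j (S ∩ Pw (ws j))) = fun S => f S * X S := by
      funext S; rw [hX, mul_sum]
    rw [e]
    linarith
  obtain ⟨j, hj, hjle⟩ := exists_le_of_sum_le (nonempty_range_iff.2 hJ0.ne') hsum
  set R := PP \ Pw (ws j) with hR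
  have hPPe : PP = Pw (ws j) ∪ R := by rw [hR, union_sdiff_of_subset (hsubP j hj)]
  have hjR : Disjoint (Pw (ws j)) R := disjoint_sdiff
  have h1 : EP PP f - 2 * η' ≤ EP PP (fun S => f S * Dw (ws j) (S ∩ Pw (ws j))) := by
    have e : EP PP (fun S => f S * F j (S ∩ Pw (ws j))) =
        EP PP f - EP PP (fun S => f S * Dw (ws j) (S ∩ Pw (ws j))) := by
      rw [← EP_sub]
      apply EP_congr
      intro S _
      rw [hF]; ring
    linarith
  have h2 : EP PP (fun S => f S * Dw (ws j) (S ∩ Pw (ws j))) =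
      EP (Pw (ws j)) (fun S => EP R (fun T => f (S ∪ T)) * Dw (ws j) S) := by
    conv_lhs => rw [hPPe]
    exact EP_of_inter hjR (Dw (ws j)) f
  rw [h2] at h1
  obtain ⟨S, hS, hSf⟩ := hDf (ws j) (fun S => EP R (fun T => f (S ∪ T)))
    (fun S => EP_nonneg fun T _ => hf0 _)
    (fun S => (EP_mono fun T _ => hf1 _).trans (EP_one_le R)) (by linarith)
  have hav : (∑ a : ZMod 3, EP R (fun T => f (S a ∪ T))) / 3 =
      EP R (fun T => (∑ a : ZMod 3, f (S a ∪ T)) / 3) := by
    rw [← EP_sum]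
    simp only [div_eq_mul_inv]
    rw [EP_mul_right]
  rw [hav] at hSf
  obtain ⟨T, hT, hTf⟩ := exists_ge_of_EP (P := R) (f := fun T => (∑ a : ZMod 3, f (S a ∪ T)) / 3)
    (τ := EP PP f - η) (by linarith) (by linarith)
  refine ⟨fun a => S a ∪ T, ?_, hTf⟩
  rw [hPPe]
  exact hS.union_const hjR hT

end Pool.Agent.Helper35
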