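import Pool.Agent.Helper35.Core3
import Pool.Agent.Helper35.Windows
import Pool.Agent.Helper35.Primes

set_option autoImplicit false

open Finset

namespace Pool.Agent.Helper35

section

variable {ι τ : Type} [Fintype ι] [DecidableEq ι] [Fintype τ] [DecidableEq τ]

lemma markov {a u : ι → ℝ} {b t : τ → ℝ} {δ Λ tm : ℝ} (hδ : 0 < δ) (h0 : ∀ i, 0 ≤ a i)
    (hb : ∀ j, 0 ≤ b j) (hu : ∀ i, 0 ≤ u i) (ht : ∀ j, 0 ≤ t j) (htm : ∀ j, t j ≤ tm)
    (hΛ : ∑ i, u i * (a i / 3) + tm ≤ Λ) (K' : ℕ) (hK0 : 0 < K') (hK : 2 * Λ ≤ δ * K') :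
    (∑ j, b j) * (∏ i, (1 + a i / 3)) / 2 ≤
      ∑ p : Finset ι × τ, (if 0 ≤ cl u t δ p ∧ cl u t δ p < K' then pw a b p else 0) := by
  set H := ∑ j, b j with hH
  set F := ∏ i, (1 + a i / 3) with hF
  have hF0 : 0 < F := prod_pos fun i _ => by have := h0 i; positivity
  have hH0 : 0 ≤ H := sum_nonneg fun j _ => hb j
  have hKr : (0 : ℝ) < K' := by exact_mod_cast hK0
  set L : Finset ι × τ → ℝ := fun p => (∑ i ∈ p.1, u i) + t p.2 with hL
  have hL0 : ∀ p, 0 ≤ L p := fun p => add_nonneg (sum_nonneg fun i _ => hu i) (ht _)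
  have htot : ∑ p : Finset ι × τ, pw a b p = H * F := by
    rw [Fintype.sum_prod_type]
    unfold pw
    simp only
    rw [← sum_mul_sum, sum_gw, mul_comm]
  have hmean : ∑ p : Finset ι × τ, pw a b p * L p ≤ H * F * Λ := by
    have e1 : ∑ p : Finset ι × τ, pw a b p * L p =
        (∑ X : Finset ι, gw a X * ∑ i ∈ X, u i) * H + F * ∑ j, b j * t j := by
      rw [Fintype.sum_prod_type, hL]
      unfold pw
      simp only
      rw [hH, sum_mul_sum, hF, ← sum_gw, sum_mul_sum, ← sum_add_distrib]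
      apply sum_congr rfl; intro X _
      rw [← sum_add_distrib]
      apply sum_congr rfl; intro j _
      ring
    have e2 : ∑ X : Finset ι, gw a X * ∑ i ∈ X, u i ≤ F * ∑ i, u i * (a i / 3) := by
      have e3 : ∀ X : Finset ι, gw a X * ∑ i ∈ X, u i = ∑ i, u i * (gw a X * (if i ∈ X then 1 else 0)) := by
        intro X
        rw [mul_sum]
        rw [← sum_subset (subset_univ X)]
        · apply sum_congr rfl; intro i hi
          rw [if_pos hi]; ring
        · intro i _ hi
          rw [if_neg hi]; ring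
      simp only [e3]
      rw [sum_comm, mul_sum]
      apply sum_le_sum; intro i _
      rw [← mul_sum]
      have := mul_le_mul_of_nonneg_left (sum_gw_mem h0 i) (hu i)
      refine this.trans (le_of_eq ?_)
      rw [hF]; ring
    have e4 : ∑ j, b j * t j ≤ H * tm := by
      rw [hH, sum_mul]
      exact sum_le_sum fun j _ => mul_le_mul_of_nonneg_left (htm j) (hb j)
    rw [e1]
    have e5 := mul_le_mul_of_nonneg_right e2 hH0
    have e6 := mul_le_mul_of_nonneg_left e4 hF0.le
    have e7 : H * F * (∑ i, u i * (a i / 3) + tm) ≤ H * F * Λ :=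
      mul_le_mul_of_nonneg_left hΛ (by positivity)
    linarith
  have hpt : ∀ p : Finset ι × τ, pw a b p - pw a b p * L p / (δ * K') ≤
      (if 0 ≤ cl u t δ p ∧ cl u t δ p < K' then pw a b p else 0) := by
    intro p
    have hp := pw_nonneg h0 hb p
    split_ifs with h
    · have : 0 ≤ pw a b p * L p / (δ * K') := by have := hL0 p; positivity
      linarith
    · have h1 : 0 ≤ cl u t δ p := by
        unfold cl
        apply Int.floor_nonneg.2
        exact div_nonneg (hL0 p) hδ.le
      have h2 : (K' : ℤ) ≤ cl u t δ p := by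
        by_contra hlt
        exact h ⟨h1, not_le.1 hlt⟩
      unfold cl at h2
      rw [Int.le_floor] at h2
      push_cast at h2
      rw [le_div_iff₀ hδ] at h2
      have h3 : δ * K' ≤ L p := by rw [hL]; linarith
      have h4 : 1 ≤ L p / (δ * K') := by rw [le_div_iff₀ (by positivity)]; linarith
      have h5 : pw a b p ≤ pw a b p * (L p / (δ * K')) := by nlinarith
      rw [mul_div_assoc]
      linarith
  have hsum := sum_le_sum fun p (_ : p ∈ (univ : Finset (Finset ι × τ))) => hpt p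
  refine le_trans ?_ hsum
  rw [sum_sub_distrib, htot, ← sum_div]
  have h1 : (∑ p : Finset ι × τ, pw a b p * L p) / (δ * K') ≤ H * F / 2 := by
    rw [div_le_iff₀ (by positivity)]
    have : H * F * (2 * Λ) ≤ H * F * (δ * K') := mul_le_mul_of_nonneg_left hK (by positivity)
    linarith
  linarith

end

/-! ### transfer to sets of naturals -/

lemma sum_powerset_subtype (P : Finset ℕ) (g : Finset ℕ → ℝ) :
    ∑ S ∈ P.powerset, g S = ∑ S : Finset P, g (S.map (Function.Embedding.subtype _)) := by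
  symm
  apply sum_nbij' (fun S : Finset P => S.map (Function.Embedding.subtype _))
    (fun S => S.subtype (· ∈ P))
  · intro S _
    rw [mem_powerset]
    intro x hx
    rw [mem_map] at hx
    obtain ⟨y, _, rfl⟩ := hx
    exact y.2
  · intro S _; simp
  · intro S _
    ext x
    rw [mem_subtype, mem_map]
    constructor
    · rintro ⟨y, hy, hyx⟩
      have : y = x := Subtype.ext hyx
      rwa [← this]
    · intro h
      exact ⟨x, h, rfl⟩
  · intro S hS
    rw [mem_powerset] at hS
    ext x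
    rw [mem_map]
    constructor
    · rintro ⟨y, hy, rfl⟩
      rw [mem_subtype] at hy
      exact hy
    · intro h
      exact ⟨⟨x, hS h⟩, by rw [mem_subtype]; exact h, rfl⟩
  · intro S _; rfl

/-- reciprocal weights on a window -/
noncomputable def ra (P : Finset ℕ) : P → ℝ := fun i => 1 / ((i : ℕ) : ℝ)

noncomputable def la (P : Finset ℕ) : P → ℝ := fun i => Real.log ((i : ℕ) : ℝ)

/-- embed -/
def em (P : Finset ℕ) (S : Finset P) : Finset ℕ := S.map (Function.Embedding.subtype _)

lemma EP_eq_mu (P : Finset ℕ) (g : Finset ℕ → ℝ) :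
    EP P g = ∑ S : Finset P, mu (ra P) S * g (em P S) := by
  unfold EP
  rw [sum_powerset_subtype P (fun S => wt P S * g S)]
  apply sum_congr rfl; intro S _
  unfold wt mu em ra
  rw [prod_map]
  congr 2
  rw [prod_coe_sort P (fun p => (1 - 1 / (p : ℝ)))]

lemma EP_union_EE {P Q : Finset ℕ} (h : Disjoint P Q) (f : Finset ℕ → ℝ) :
    EP (P ∪ Q) f = EE (ra P) (ra Q) (fun S T => f (em P S ∪ em Q T)) := by
  rw [EP_union h, EP_eq_mu]
  unfold EE
  apply sum_congr rfl; intro S _
  rw [EP_eq_mu, mul_sum]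
  apply sum_congr rfl; intro T _
  ring

lemma em_sub (P : Finset ℕ) (S : Finset P) : em P S ⊆ P := by
  intro x hx
  unfold em at hx
  rw [mem_map] at hx
  obtain ⟨y, _, rfl⟩ := hx
  exact y.2

lemma mem_em {P : Finset ℕ} {S : Finset P} {x : ℕ} : x ∈ em P S ↔ ∃ h : x ∈ P, (⟨x, h⟩ : P) ∈ S := by
  unfold em
  rw [mem_map]
  constructor
  · rintro ⟨y, hy, rfl⟩
    exact ⟨y.2, hy⟩
  · rintro ⟨h, hx⟩
    exact ⟨⟨x, h⟩, hx, rfl⟩

lemma subtype_em_union {P Q : Finset ℕ} (h : Disjoint P Q) (S : Finset P) (T : Finset Q) :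
    (em P S ∪ em Q T).subtype (· ∈ P) = S ∧ (em P S ∪ em Q T).subtype (· ∈ Q) = T := by
  constructor
  · ext ⟨x, hx⟩
    rw [mem_subtype, mem_union, mem_em, mem_em]
    constructor
    · rintro (⟨h1, h2⟩ | ⟨h1, h2⟩)
      · exact h2
      · exact absurd h1 (disjoint_left.1 h hx)
    · intro h2; exact Or.inl ⟨hx, h2⟩
  · ext ⟨x, hx⟩
    rw [mem_subtype, mem_union, mem_em, mem_em]
    constructor
    · rintro (⟨h1, h2⟩ | ⟨h1, h2⟩)
      · exact absurd hx (disjoint_left.1 h h1)
      · exact h2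
    · intro h2; exact Or.inr ⟨hx, h2⟩

lemma em_union {P : Finset ℕ} (S T : Finset P) : em P (S ∪ T) = em P S ∪ em P T := by
  unfold em; rw [map_union]

lemma lg_em (P : Finset ℕ) (S : Finset P) : lg (em P S) = ∑ i ∈ S, la P i := by
  unfold lg em la
  rw [sum_map]
  rfl

/-- a cube from a triple -/
lemma cube_of_triple {P A B C : Finset ℕ} {δ : ℝ} (hA : A ⊆ P) (hB : B ⊆ P) (hC : C ⊆ P)
    (h1 : A ∪ B = A ∪ C) (h2 : A ∪ B = B ∪ C) (hAB : A ≠ B) (hAC : A ≠ C) (hBC : B ≠ C)
    (hδ : 0 ≤ δ) (c1 : |lg A - lg B| ≤ δ) (c2 : |lg A - lg C| ≤ δ) (c3 : |lg B - lg C| ≤ δ) :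
    Cube (G := ZMod 3) P δ (fun c : ZMod 3 => (![A, B, C] : Fin 3 → Finset ℕ) c) where
  sub a := by
    change (![A, B, C] : Fin 3 → Finset ℕ) a ⊆ P
    revert a
    intro (a : Fin 3)
    fin_cases a <;> simp [hA, hB, hC]
  inj := by
    intro (a : Fin 3) (b : Fin 3) hab
    change a = b
    fin_cases a <;> fin_cases b <;> simp at hab ⊢ <;>
      first
        | exact absurd hab hAB | exact absurd hab hAC | exact absurd hab hBC
        | exact absurd hab.symm hAB | exact absurd hab.symm hAC | exact absurd hab.symm hBC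
  line a b c habc := by
    rcases zmod3_cases a b c habc with ⟨rfl, rfl⟩ | ⟨hab, hbc, hac⟩
    · exact ⟨rfl, rfl⟩
    · have hBA : B ∪ A = A ∪ B := union_comm _ _
      have hCA : C ∪ A = A ∪ B := by rw [h1]; exact union_comm _ _
      have hCB : C ∪ B = A ∪ B := by rw [h2]; exact union_comm _ _
      have key : ∀ x y : Fin 3, x ≠ y → (![A, B, C] : Fin 3 → Finset ℕ) x ∪
          (![A, B, C] : Fin 3 → Finset ℕ) y = A ∪ B := by
        intro x y hxy
        fin_cases x <;> fin_cases y <;> simp at hxy ⊢ <;>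
          first
            | exact hBA | exact hCA | exact hCB | exact h1.symm | exact h2.symm
      change (![A, B, C] : Fin 3 → Finset ℕ) a ∪ (![A, B, C] : Fin 3 → Finset ℕ) b =
        (![A, B, C] : Fin 3 → Finset ℕ) b ∪ (![A, B, C] : Fin 3 → Finset ℕ) c ∧
        (![A, B, C] : Fin 3 → Finset ℕ) a ∪ (![A, B, C] : Fin 3 → Finset ℕ) b =
        (![A, B, C] : Fin 3 → Finset ℕ) a ∪ (![A, B, C] : Fin 3 → Finset ℕ) c
      rw [key a b hab, key b c hbc, key a c hac]
      exact ⟨rfl, rfl⟩
  close a b := by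
    have key : ∀ x y : Fin 3, |lg ((![A, B, C] : Fin 3 → Finset ℕ) x) -
        lg ((![A, B, C] : Fin 3 → Finset ℕ) y)| ≤ δ := by
      intro x y
      fin_cases x <;> fin_cases y <;> simp <;>
        first
          | exact hδ | exact c1 | exact c2 | exact c3
          | (rw [abs_sub_comm]; exact c1) | (rw [abs_sub_comm]; exact c2) | (rw [abs_sub_comm]; exact c3)
    exact key a b

end Pool.Agent.Helper35
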