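import Pool.Agent.Helper35.WindowThm

set_option autoImplicit false

open Finset

namespace Pool.Agent.Helper35

/-- window of primes with logarithm in `(x, y]` -/
noncomputable def W (x y : ℝ) : Finset ℕ := prm ⌊Real.exp x⌋₊ ⌊Real.exp y⌋₊

lemma mem_W {x y : ℝ} {p : ℕ} : p ∈ W x y ↔ p.Prime ∧ x < Real.log p ∧ Real.log p ≤ y := by
  unfold W
  rw [mem_prm]
  constructor
  · rintro ⟨⟨h1, h2⟩, h3⟩
    have hp : (0 : ℝ) < p := by exact_mod_cast h3.pos
    refine ⟨h3, ?_, ?_⟩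
    · rw [Nat.floor_lt (Real.exp_pos x).le] at h1
      rwa [Real.lt_log_iff_exp_lt hp]
    · rw [Nat.le_floor_iff (Real.exp_pos y).le] at h2
      rwa [Real.log_le_iff_le_exp hp]
  · rintro ⟨h3, h1, h2⟩
    have hp : (0 : ℝ) < p := by exact_mod_cast h3.pos
    refine ⟨⟨?_, ?_⟩, h3⟩
    · rw [Nat.floor_lt (Real.exp_pos x).le]
      rwa [Real.lt_log_iff_exp_lt hp] at h1
    · rw [Nat.le_floor_iff (Real.exp_pos y).le]
      rwa [Real.log_le_iff_le_exp hp] at h2

lemma log_floor_exp {x : ℝ} (hx : 1 ≤ x) :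
    x - 1 ≤ Real.log (⌊Real.exp x⌋₊ : ℝ) ∧ Real.log (⌊Real.exp x⌋₊ : ℝ) ≤ x := by
  have h1 : 2 ≤ Real.exp x := by have := Real.add_one_le_exp x; linarith
  have h2 : Real.exp x - 1 < (⌊Real.exp x⌋₊ : ℝ) := by
    have := Nat.lt_floor_add_one (Real.exp x); linarith
  have h3 : (⌊Real.exp x⌋₊ : ℝ) ≤ Real.exp x := Nat.floor_le (Real.exp_pos x).le
  have h4 : (0 : ℝ) < (⌊Real.exp x⌋₊ : ℝ) := by linarith
  constructor
  · have h5 : Real.exp (x - 1) ≤ (⌊Real.exp x⌋₊ : ℝ) := by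
      rw [Real.exp_sub]
      have h6 : Real.exp x / Real.exp 1 ≤ Real.exp x / 2 := by
        apply div_le_div_of_nonneg_left (Real.exp_pos x).le (by norm_num)
        have := Real.add_one_le_exp (1 : ℝ); linarith
      linarith
    calc x - 1 = Real.log (Real.exp (x - 1)) := (Real.log_exp _).symm
      _ ≤ _ := Real.log_le_log (Real.exp_pos _) h5
  · calc Real.log (⌊Real.exp x⌋₊ : ℝ) ≤ Real.log (Real.exp x) := Real.log_le_log h4 h3
      _ = x := Real.log_exp x

lemma floor_exp_ge {x : ℝ} (hx : 0 ≤ x) : x + x ^ 2 / 2 ≤ (⌊Real.exp x⌋₊ : ℝ) := by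
  have h1 := Real.quadratic_le_exp_of_nonneg hx
  have := Nat.lt_floor_add_one (Real.exp x)
  linarith

lemma block {x : ℝ} (hx : 20000 ≤ x) : 0.024 ≤ ∑ p ∈ W x (41 / 40 * x), 1 / (p : ℝ) := by
  unfold W
  have h1 := log_floor_exp (x := x) (by linarith)
  have h2 := log_floor_exp (x := 41 / 40 * x) (by linarith)
  have hm1 : 1 ≤ ⌊Real.exp x⌋₊ := by
    rw [Nat.one_le_floor_iff]
    have := Real.add_one_le_exp x; linarith
  have hmn : ⌊Real.exp x⌋₊ ≤ ⌊Real.exp (41 / 40 * x)⌋₊ := by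
    apply Nat.floor_le_floor
    apply Real.exp_le_exp.2; linarith
  have hn2 : 2 ≤ ⌊Real.exp (41 / 40 * x)⌋₊ := by
    rw [Nat.le_floor_iff (Real.exp_pos _).le]
    have := Real.add_one_le_exp (41 / 40 * x)
    push_cast; linarith
  have h3 := recip_lower hm1 hmn hn2
  refine le_trans ?_ h3
  set ln := Real.log (⌊Real.exp (41 / 40 * x)⌋₊ : ℝ)
  set lm := Real.log (⌊Real.exp x⌋₊ : ℝ)
  have hln : 0 < ln := by linarith
  rw [le_div_iff₀ hln]
  linarith

lemma W_mono {x x' y : ℝ} (h : x' ≤ x) : W x y ⊆ W x' y := by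
  intro p hp
  rw [mem_W] at hp ⊢
  exact ⟨hp.1, by linarith, hp.2.2⟩

lemma W_split {x y z : ℝ} (hxy : x ≤ y) (hyz : y ≤ z) (f : ℕ → ℝ) :
    ∑ p ∈ W x z, f p = ∑ p ∈ W x y, f p + ∑ p ∈ W y z, f p := by
  rw [← sum_union]
  · congr 1
    ext p
    rw [mem_union, mem_W, mem_W, mem_W]
    constructor
    · rintro ⟨h1, h2, h3⟩
      rcases le_or_gt (Real.log p) y with h | h
      · exact Or.inl ⟨h1, h2, h⟩
      · exact Or.inr ⟨h1, h, h3⟩
    · rintro (⟨h1, h2, h3⟩ | ⟨h1, h2, h3⟩)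
      · exact ⟨h1, h2, h3.trans hyz⟩
      · exact ⟨h1, lt_of_le_of_lt hxy h2, h3⟩
  · rw [disjoint_left]
    intro p h1 h2
    rw [mem_W] at h1 h2
    linarith [h1.2.2, h2.2.1]

lemma levels {V : ℝ} (I : ℕ) (hV : 20000 * (41 / 40 : ℝ) ^ I ≤ V) (k : ℕ) (hk : k ≤ I) :
    0.024 * (k : ℝ) ≤ ∑ p ∈ W (V / (41 / 40) ^ k) V, 1 / (p : ℝ) := by
  induction k with
  | zero =>
    simp only [Nat.cast_zero, mul_zero]
    exact sum_nonneg fun p _ => by positivity
  | succ k ih =>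
    have ih' := ih (by omega)
    have hpos : (0 : ℝ) < (41 / 40) ^ (k + 1) := by positivity
    have hV0 : 0 < V := lt_of_lt_of_le (by positivity) hV
    have hx : 20000 ≤ V / (41 / 40) ^ (k + 1) := by
      rw [le_div_iff₀ hpos]
      refine le_trans ?_ hV
      apply mul_le_mul_of_nonneg_left _ (by norm_num)
      exact pow_le_pow_right₀ (by norm_num) hk
    have hb := block hx
    have e : 41 / 40 * (V / (41 / 40) ^ (k + 1)) = V / (41 / 40) ^ k := by
      rw [pow_succ]; field_simp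
    rw [e] at hb
    have h1 : V / (41 / 40) ^ (k + 1) ≤ V / (41 / 40) ^ k := by
      rw [← e]
      have : 0 < V / (41 / 40) ^ (k + 1) := by positivity
      linarith
    have h2 : V / (41 / 40) ^ k ≤ V := by
      apply div_le_self hV0.le
      exact one_le_pow₀ (by norm_num)
    rw [W_split h1 h2]
    push_cast
    linarith

lemma log3 : 1.0939 < Real.log 3 := by
  have h1 : Real.log 3 = Real.log (Real.exp 1) + Real.log (3 / Real.exp 1) := by
    rw [← Real.log_mul (Real.exp_ne_zero _) (by positivity)]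
    congr 1
    field_simp
  rw [h1, Real.log_exp]
  have h2 := Real.one_sub_inv_le_log_of_pos (x := 3 / Real.exp 1) (by positivity)
  rw [inv_div] at h2
  have h3 := Real.exp_one_lt_d9
  have : Real.exp 1 / 3 ≤ 2.7182818286 / 3 := by linarith
  linarith

lemma rho_lt : (41 / 40 : ℝ) * (1 / 3 : ℝ) ^ (47 / 2000 : ℝ) < 1 := by
  have h1 : (1 / 3 : ℝ) ^ (47 / 2000 : ℝ) = Real.exp (-(47 / 2000 * Real.log 3)) := by
    rw [Real.rpow_def_of_pos (by norm_num), one_div, Real.log_inv]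
    congr 1; ring
  rw [h1]
  have h2 : (41 / 40 : ℝ) ≤ Real.exp (1 / 40) := by
    have := Real.add_one_le_exp (1 / 40 : ℝ); linarith
  calc (41 / 40 : ℝ) * Real.exp (-(47 / 2000 * Real.log 3))
      ≤ Real.exp (1 / 40) * Real.exp (-(47 / 2000 * Real.log 3)) :=
        mul_le_mul_of_nonneg_right h2 (Real.exp_pos _).le
    _ = Real.exp (1 / 40 + -(47 / 2000 * Real.log 3)) := (Real.exp_add _ _).symm
    _ < Real.exp 0 := by
        apply Real.exp_lt_exp.2
        have := log3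
        linarith
    _ = 1 := Real.exp_zero

lemma s_lt : (47 / 48 : ℝ) ^ (-(47 / 2000 : ℝ)) * Real.exp (-(1 - 47 / 48) * 0.024) < 1 := by
  rw [Real.rpow_def_of_pos (by norm_num), ← Real.exp_add]
  calc _ < Real.exp 0 := by
        apply Real.exp_lt_exp.2
        have h1 : Real.log (48 / 47 : ℝ) < 48 / 47 - 1 := Real.log_lt_sub_one_of_pos (by norm_num) (by norm_num)
        have h2 : Real.log (47 / 48 : ℝ) = - Real.log (48 / 47 : ℝ) := by
          rw [← Real.log_inv]; norm_num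
        rw [h2]
        norm_num at h1 ⊢
        linarith
    _ = 1 := Real.exp_zero

lemma geom_le {r : ℝ} (h0 : 0 ≤ r) (h1 : r < 1) (n : ℕ) : ∑ k ∈ range n, r ^ k ≤ 1 / (1 - r) := by
  have h2 : 0 < 1 - r := by linarith
  rw [le_div_iff₀ h2]
  have := geom_sum_mul_neg r n
  rw [this]
  have : 0 ≤ r ^ n := by positivity
  linarith

end Pool.Agent.Helper35
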