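import Mathlib

set_option autoImplicit false

open Finset

namespace Pool.Agent.Helper35

section

variable {ι : Type} [Fintype ι] [DecidableEq ι]

/-- product weight on finite sets -/
noncomputable def mu (a : ι → ℝ) (S : Finset ι) : ℝ := (∏ i, (1 - a i)) * ∏ i ∈ S, a i

lemma sum_finset_prod (f : ι → ℝ) : ∑ S : Finset ι, ∏ i ∈ S, f i = ∏ i, (1 + f i) := by
  rw [Finset.prod_one_add, powerset_univ]

lemma sum_ins (i : ι) (G : Finset ι → ℝ) :
    ∑ S : Finset ι, (if i ∈ S then G S else 0) =
      ∑ S : Finset ι, (if i ∈ S then 0 else G (insert i S)) := by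
  rw [← sum_filter]
  have e : ∑ S : Finset ι, (if i ∈ S then 0 else G (insert i S)) =
      ∑ S ∈ univ.filter (fun S : Finset ι => i ∉ S), G (insert i S) := by
    rw [sum_filter]
    apply sum_congr rfl
    intro S _
    by_cases h : i ∈ S <;> simp [h]
  rw [e]
  apply sum_nbij' (fun S => S.erase i) (fun S => insert i S)
  · intro S hS; simp
  · intro S hS; simp
  · intro S hS
    simp only [mem_filter, mem_univ, true_and] at hS
    exact insert_erase hS
  · intro S hS
    simp only [mem_filter, mem_univ, true_and] at hS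
    exact erase_insert hS
  · intro S hS
    simp only [mem_filter, mem_univ, true_and] at hS
    rw [insert_erase hS]

lemma mu_nonneg {a : ι → ℝ} (h0 : ∀ i, 0 ≤ a i) (h1 : ∀ i, a i ≤ 1) (S : Finset ι) : 0 ≤ mu a S := by
  unfold mu
  apply mul_nonneg
  · exact prod_nonneg fun i _ => by linarith [h1 i]
  · exact prod_nonneg fun i _ => h0 i

lemma mu_insert (a : ι → ℝ) {i : ι} {S : Finset ι} (h : i ∉ S) :
    mu a (insert i S) = a i * mu a S := by
  unfold mu
  rw [prod_insert h]
  ring

lemma sum_mu_eq (a : ι → ℝ) : ∑ S, mu a S = ∏ i, (1 - a i ^ 2) := by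
  unfold mu
  rw [← mul_sum, sum_finset_prod, ← prod_mul_distrib]
  exact prod_congr rfl fun i _ => by ring

lemma sum_mu_le {a : ι → ℝ} (h0 : ∀ i, 0 ≤ a i) (h1 : ∀ i, a i ≤ 1) : ∑ S, mu a S ≤ 1 := by
  rw [sum_mu_eq]
  apply prod_le_one
  · intro i _
    have := h0 i; have := h1 i
    nlinarith
  · intro i _
    have := h0 i
    nlinarith

lemma sum_mu_removal (a : ι → ℝ) (φ : ι → Finset ι → ℝ) :
    ∑ S, mu a S * ∑ i ∈ S, φ i S =
      ∑ S, mu a S * ∑ i, (if i ∈ S then 0 else a i * φ i (insert i S)) := by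
  have e1 : ∀ S : Finset ι, mu a S * ∑ i ∈ S, φ i S = ∑ i, if i ∈ S then mu a S * φ i S else 0 := by
    intro S
    rw [mul_sum, ← sum_filter]
    apply sum_congr
    · ext i; simp
    · intro i _; rfl
  simp only [e1]
  rw [sum_comm]
  have e2 : ∀ i, ∑ S, (if i ∈ S then mu a S * φ i S else 0) =
      ∑ S, (if i ∈ S then 0 else mu a S * (a i * φ i (insert i S))) := by
    intro i
    rw [sum_ins i (fun S => mu a S * φ i S)]
    apply sum_congr rfl
    intro S _
    split_ifs with h
    · rfl
    · rw [mu_insert a h]; ring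
  simp only [e2]
  rw [sum_comm]
  apply sum_congr rfl
  intro S _
  rw [mul_sum]
  apply sum_congr rfl
  intro i _
  split_ifs <;> ring

/-- proportion of pairs of colourings agreeing on `U` -/
lemma agree_count (U : Finset ι) :
    ∑ v : ι → Fin 3, ∑ v' : ι → Fin 3, (if ∀ j ∈ U, v j = v' j then (1 : ℝ) else 0) =
      9 ^ (Fintype.card ι) * (1 / 3) ^ (#U) := by
  have h1 : ∀ v : ι → Fin 3, ∑ v' : ι → Fin 3, (if ∀ j ∈ U, v j = v' j then (1 : ℝ) else 0) =
      3 ^ (Fintype.card ι) * (1 / 3) ^ (#U) := by
    intro v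
    rw [sum_boole]
    have h2 : (univ.filter fun v' : ι → Fin 3 => ∀ j ∈ U, v j = v' j) =
        Fintype.piFinset (fun i => if i ∈ U then {v i} else univ) := by
      ext v'
      simp only [mem_filter, mem_univ, true_and, Fintype.mem_piFinset]
      constructor
      · intro h i
        by_cases hi : i ∈ U
        · simp [hi, h i hi]
        · simp [hi]
      · intro h i hi
        have := h i
        simp [hi] at this
        exact this.symm
    rw [h2, Fintype.card_piFinset]
    push_cast
    have h3 : ∀ i, ((#(if i ∈ U then {v i} else (univ : Finset (Fin 3)))) : ℝ) =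
        3 * (if i ∈ U then (1 / 3 : ℝ) else 1) := by
      intro i
      split_ifs <;> simp
    simp only [h3]
    rw [prod_mul_distrib, prod_const, card_univ, prod_ite, prod_const, prod_const_one, mul_one]
    congr 2
    simp
  simp only [h1]
  rw [sum_const, card_univ, nsmul_eq_mul]
  simp only [Fintype.card_pi, Fintype.card_fin, prod_const, card_univ]
  push_cast
  rw [← mul_assoc, ← mul_pow]
  norm_num

/-- sign of a colour -/
def sg : Fin 3 → ℝ := ![0, 1, -1]

/-- signed sum -/
noncomputable def Ls (u : ι → ℝ) (S : Finset ι) (v : ι → Fin 3) : ℝ := ∑ i ∈ S, sg (v i) * u i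

lemma sg_diff (x y : Fin 3) (h : x ≠ y) :
    sg x - sg y = 1 ∨ sg x - sg y = -1 ∨ sg x - sg y = 2 ∨ sg x - sg y = -2 := by
  fin_cases x <;> fin_cases y <;> simp [sg] at h ⊢ <;> norm_num

/-- The small ball estimate. -/
theorem small_ball (a u : ι → ℝ) (h0 : ∀ i, 0 ≤ a i) (h1 : ∀ i, a i ≤ 1)
    (lev : ι → ℕ) (I : ℕ) (hlev : ∀ i, lev i < I) (κ kk : ℕ → ℝ) (d : ℝ)
    (hAC : ∀ k < I, ∀ T c : ℝ, (c = 1 ∨ c = -1 ∨ c = 2 ∨ c = -2) →
      ∑ i, (if lev i = k ∧ |T + c * u i| < d then a i else 0) ≤ κ k) :
    (∑ S, mu a S * (if ∀ k ≤ I, kk k ≤ (#(S.filter fun i => lev i < k) : ℝ) then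
      ∑ v : ι → Fin 3, ∑ v' : ι → Fin 3, (if |Ls u S v - Ls u S v'| < d then (1 : ℝ) else 0)
      else 0)) / 9 ^ (Fintype.card ι) ≤
      (∑ k ∈ range I, 4 * κ k * (1 / 3 : ℝ) ^ (kk k)) + (1 / 3 : ℝ) ^ (kk I) := by
  classical
  have hmu := mu_nonneg h0 h1
  -- the indicator
  set h : ℕ → Finset ι → (ι → Fin 3) → (ι → Fin 3) → ℝ := fun k U v v' =>
    if kk k ≤ (#(U.filter fun i => lev i < k) : ℝ) ∧ (∀ j ∈ U.filter (fun i => lev i < k), v j = v' j)
      then 1 else 0 with hh
  have hh0 : ∀ k U v v', 0 ≤ h k U v v' := by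
    intro k U v v'; rw [hh]; simp only; split_ifs <;> simp
  -- pointwise bound
  have hpt : ∀ S v v', (∀ k ≤ I, kk k ≤ (#(S.filter fun i => lev i < k) : ℝ)) →
      (if |Ls u S v - Ls u S v'| < d then (1 : ℝ) else 0) ≤
      (∑ k ∈ range I, ∑ i ∈ S, (if lev i = k ∧ v i ≠ v' i ∧ |Ls u S v - Ls u S v'| < d then
        h k S v v' else 0)) + h I S v v' := by
    intro S v v' hgood
    have hnn : ∀ k, 0 ≤ ∑ i ∈ S, (if lev i = k ∧ v i ≠ v' i ∧ |Ls u S v - Ls u S v'| < d then
        h k S v v' else 0) := by
      intro k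
      apply sum_nonneg
      intro i _
      split_ifs
      · exact hh0 _ _ _ _
      · exact le_rfl
    split_ifs with hd
    · by_cases hag : ∀ j ∈ S, v j = v' j
      · have e : h I S v v' = 1 := by
          rw [hh]; simp only
          rw [if_pos]
          refine ⟨hgood I le_rfl, fun j hj => hag j (mem_filter.1 hj).1⟩
        rw [e]
        have : 0 ≤ ∑ k ∈ range I, ∑ i ∈ S, (if lev i = k ∧ v i ≠ v' i ∧ |Ls u S v - Ls u S v'| < d then
          h k S v v' else 0) := sum_nonneg fun k _ => hnn k
        linarith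
      · push Not at hag
        obtain ⟨j₀, hj₀S, hj₀⟩ := hag
        -- minimal level
        obtain ⟨i, hi, hmin⟩ := exists_min_image (S.filter fun j => v j ≠ v' j) lev
          ⟨j₀, mem_filter.2 ⟨hj₀S, hj₀⟩⟩
        rw [mem_filter] at hi
        have e : h (lev i) S v v' = 1 := by
          rw [hh]; simp only
          rw [if_pos]
          refine ⟨hgood _ (hlev i).le, ?_⟩
          intro j hj
          rw [mem_filter] at hj
          by_contra hne
          have := hmin j (mem_filter.2 ⟨hj.1, hne⟩)
          omega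
        have h2 : (1 : ℝ) ≤ ∑ i' ∈ S, (if lev i' = lev i ∧ v i' ≠ v' i' ∧ |Ls u S v - Ls u S v'| < d then
            h (lev i) S v v' else 0) := by
          have ht : (if lev i = lev i ∧ v i ≠ v' i ∧ |Ls u S v - Ls u S v'| < d then
              h (lev i) S v v' else 0) = 1 := by rw [if_pos ⟨rfl, hi.2, hd⟩, e]
          calc (1 : ℝ) = _ := ht.symm
            _ ≤ _ := single_le_sum (f := fun i' => if lev i' = lev i ∧ v i' ≠ v' i' ∧
              |Ls u S v - Ls u S v'| < d then h (lev i) S v v' else 0) (s := S)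
              (fun i' _ => by
                split_ifs
                · exact hh0 _ _ _ _
                · exact le_rfl) hi.1
        have h3 : ∑ i' ∈ S, (if lev i' = lev i ∧ v i' ≠ v' i' ∧ |Ls u S v - Ls u S v'| < d then
            h (lev i) S v v' else 0) ≤ ∑ k ∈ range I, ∑ i' ∈ S, (if lev i' = k ∧ v i' ≠ v' i' ∧
            |Ls u S v - Ls u S v'| < d then h k S v v' else 0) :=
          single_le_sum (f := fun k => ∑ i' ∈ S, (if lev i' = k ∧ v i' ≠ v' i' ∧
            |Ls u S v - Ls u S v'| < d then h k S v v' else 0)) (s := range I)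
            (fun k _ => hnn k) (mem_range.2 (hlev i))
        have h4 := hh0 I S v v'
        linarith
    · have h2 : 0 ≤ ∑ k ∈ range I, ∑ i ∈ S, (if lev i = k ∧ v i ≠ v' i ∧ |Ls u S v - Ls u S v'| < d then
        h k S v v' else 0) := sum_nonneg fun k _ => hnn k
      have h3 := hh0 I S v v'
      linarith
  -- average of h
  have hav : ∀ k U, (∑ v : ι → Fin 3, ∑ v' : ι → Fin 3, h k U v v') / 9 ^ (Fintype.card ι) ≤
      (1 / 3 : ℝ) ^ (kk k) := by
    intro k U
    rw [hh]; simp only
    by_cases hk : kk k ≤ (#(U.filter fun i => lev i < k) : ℝ)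
    · simp only [hk, true_and]
      rw [agree_count, mul_comm, mul_div_assoc, div_self (by positivity), mul_one,
        ← Real.rpow_natCast]
      exact Real.rpow_le_rpow_of_exponent_ge (by norm_num) (by norm_num) hk
    · simp only [hk, false_and, if_false, sum_const_zero, zero_div]
      positivity
  -- removal of one element
  have hrem : ∀ k < I, ∀ v v' : ι → Fin 3,
      ∑ S, mu a S * ∑ i ∈ S, (if lev i = k ∧ v i ≠ v' i ∧ |Ls u S v - Ls u S v'| < d then
        h k S v v' else 0) ≤ 4 * κ k * ∑ S, mu a S * h k S v v' := by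
    intro k hk v v'
    rw [sum_mu_removal a (fun i S => if lev i = k ∧ v i ≠ v' i ∧ |Ls u S v - Ls u S v'| < d then
        h k S v v' else 0), mul_sum]
    apply sum_le_sum
    intro S _
    have key : ∑ i, (if i ∈ S then 0 else a i * (if lev i = k ∧ v i ≠ v' i ∧
        |Ls u (insert i S) v - Ls u (insert i S) v'| < d then h k (insert i S) v v' else 0)) ≤
        4 * κ k * h k S v v' := by
      have hterm : ∀ i, (if i ∈ S then 0 else a i * (if lev i = k ∧ v i ≠ v' i ∧
          |Ls u (insert i S) v - Ls u (insert i S) v'| < d then h k (insert i S) v v' else 0)) ≤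
          ((if lev i = k ∧ |(Ls u S v - Ls u S v') + 1 * u i| < d then a i else 0) +
           (if lev i = k ∧ |(Ls u S v - Ls u S v') + (-1) * u i| < d then a i else 0) +
           (if lev i = k ∧ |(Ls u S v - Ls u S v') + 2 * u i| < d then a i else 0) +
           (if lev i = k ∧ |(Ls u S v - Ls u S v') + (-2) * u i| < d then a i else 0)) * h k S v v' := by
        intro i
        have hn : ∀ c : ℝ, 0 ≤ (if lev i = k ∧ |(Ls u S v - Ls u S v') + c * u i| < d then a i else 0) := by
          intro c; split_ifs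
          · exact h0 i
          · exact le_rfl
        have hR : 0 ≤ ((if lev i = k ∧ |(Ls u S v - Ls u S v') + 1 * u i| < d then a i else 0) +
           (if lev i = k ∧ |(Ls u S v - Ls u S v') + (-1) * u i| < d then a i else 0) +
           (if lev i = k ∧ |(Ls u S v - Ls u S v') + 2 * u i| < d then a i else 0) +
           (if lev i = k ∧ |(Ls u S v - Ls u S v') + (-2) * u i| < d then a i else 0)) * h k S v v' := by
          have := hn 1; have := hn (-1); have := hn 2; have := hn (-2)
          have := hh0 k S v v'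
          positivity
        by_cases hiS : i ∈ S
        · rw [if_pos hiS]; exact hR
        · rw [if_neg hiS]
          by_cases hc : lev i = k ∧ v i ≠ v' i ∧ |Ls u (insert i S) v - Ls u (insert i S) v'| < d
          · rw [if_pos hc]
            obtain ⟨hc1, hc2, hc3⟩ := hc
            have eL : Ls u (insert i S) v - Ls u (insert i S) v' =
                (Ls u S v - Ls u S v') + (sg (v i) - sg (v' i)) * u i := by
              unfold Ls
              rw [sum_insert hiS, sum_insert hiS]
              ring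
            have eh : h k (insert i S) v v' = h k S v v' := by
              have : (insert i S).filter (fun i => lev i < k) = S.filter (fun i => lev i < k) := by
                rw [filter_insert, if_neg (by omega)]
              rw [hh]; simp only [this]
            rw [eh]
            apply mul_le_mul_of_nonneg_right _ (hh0 _ _ _ _)
            rw [eL] at hc3
            have n1 := hn 1; have n2 := hn (-1); have n3 := hn 2; have n4 := hn (-2)
            rcases sg_diff _ _ hc2 with hs | hs | hs | hs
            · rw [hs] at hc3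
              have : (if lev i = k ∧ |(Ls u S v - Ls u S v') + 1 * u i| < d then a i else 0) = a i :=
                if_pos ⟨hc1, hc3⟩
              linarith
            · rw [hs] at hc3
              have : (if lev i = k ∧ |(Ls u S v - Ls u S v') + (-1) * u i| < d then a i else 0) = a i :=
                if_pos ⟨hc1, hc3⟩
              linarith
            · rw [hs] at hc3
              have : (if lev i = k ∧ |(Ls u S v - Ls u S v') + 2 * u i| < d then a i else 0) = a i :=
                if_pos ⟨hc1, hc3⟩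
              linarith
            · rw [hs] at hc3
              have : (if lev i = k ∧ |(Ls u S v - Ls u S v') + (-2) * u i| < d then a i else 0) = a i :=
                if_pos ⟨hc1, hc3⟩
              linarith
          · rw [if_neg hc, mul_zero]; exact hR
      refine (sum_le_sum fun i _ => hterm i).trans ?_
      rw [← sum_mul]
      apply mul_le_mul_of_nonneg_right _ (hh0 _ _ _ _)
      rw [sum_add_distrib, sum_add_distrib, sum_add_distrib]
      have a1 := hAC k hk (Ls u S v - Ls u S v') 1 (by norm_num)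
      have a2 := hAC k hk (Ls u S v - Ls u S v') (-1) (by norm_num)
      have a3 := hAC k hk (Ls u S v - Ls u S v') 2 (by norm_num)
      have a4 := hAC k hk (Ls u S v - Ls u S v') (-2) (by norm_num)
      linarith
    calc mu a S * _ ≤ mu a S * (4 * κ k * h k S v v') := mul_le_mul_of_nonneg_left key (hmu S)
      _ = _ := by ring
  have hκ0 : ∀ k < I, 0 ≤ κ k := by
    intro k hk
    refine le_trans ?_ (hAC k hk 0 1 (by norm_num))
    apply sum_nonneg
    intro i _
    split_ifs
    · exact h0 i
    · exact le_rfl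
  -- assemble
  have hS1 := sum_mu_le h0 h1
  have h9 : (0 : ℝ) < 9 ^ (Fintype.card ι) := by positivity
  have hkS : ∀ k, (∑ v : ι → Fin 3, ∑ v' : ι → Fin 3, ∑ S, mu a S * h k S v v') / 9 ^ (Fintype.card ι) ≤
      (1 / 3 : ℝ) ^ (kk k) := by
    intro k
    have e : ∑ v : ι → Fin 3, ∑ v' : ι → Fin 3, ∑ S, mu a S * h k S v v' =
        ∑ S, mu a S * ∑ v : ι → Fin 3, ∑ v' : ι → Fin 3, h k S v v' := by
      have : ∀ v : ι → Fin 3, ∑ v' : ι → Fin 3, ∑ S, mu a S * h k S v v' =
          ∑ S, ∑ v' : ι → Fin 3, mu a S * h k S v v' := fun v => sum_comm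
      simp only [this]
      rw [sum_comm]
      apply sum_congr rfl
      intro S _
      simp only [← mul_sum]
    rw [e, sum_div]
    have h2 : ∀ S : Finset ι, mu a S * (∑ v : ι → Fin 3, ∑ v' : ι → Fin 3, h k S v v') / 9 ^ (Fintype.card ι) ≤
        mu a S * (1 / 3 : ℝ) ^ (kk k) := by
      intro S
      rw [mul_div_assoc]
      exact mul_le_mul_of_nonneg_left (hav k S) (hmu S)
    refine (sum_le_sum fun S _ => h2 S).trans ?_
    rw [← sum_mul]
    have : (0 : ℝ) ≤ (1 / 3 : ℝ) ^ (kk k) := by positivity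
    nlinarith
  have hmainle : (∑ S, mu a S * (if ∀ k ≤ I, kk k ≤ (#(S.filter fun i => lev i < k) : ℝ) then
      ∑ v : ι → Fin 3, ∑ v' : ι → Fin 3, (if |Ls u S v - Ls u S v'| < d then (1 : ℝ) else 0)
      else 0)) ≤ ∑ v : ι → Fin 3, ∑ v' : ι → Fin 3,
        ((∑ k ∈ range I, 4 * κ k * ∑ S, mu a S * h k S v v') + ∑ S, mu a S * h I S v v') := by
    have h2 : ∀ S : Finset ι, mu a S * (if ∀ k ≤ I, kk k ≤ (#(S.filter fun i => lev i < k) : ℝ) then
      ∑ v : ι → Fin 3, ∑ v' : ι → Fin 3, (if |Ls u S v - Ls u S v'| < d then (1 : ℝ) else 0)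
      else 0) ≤ ∑ v : ι → Fin 3, ∑ v' : ι → Fin 3, mu a S *
        ((∑ k ∈ range I, ∑ i ∈ S, (if lev i = k ∧ v i ≠ v' i ∧ |Ls u S v - Ls u S v'| < d then
        h k S v v' else 0)) + h I S v v') := by
      intro S
      simp only [← mul_sum]
      apply mul_le_mul_of_nonneg_left _ (hmu S)
      split_ifs with hg
      · exact sum_le_sum fun v _ => sum_le_sum fun v' _ => hpt S v v' hg
      · apply sum_nonneg; intro v _; apply sum_nonneg; intro v' _
        apply add_nonneg
        · apply sum_nonneg; intro k _; apply sum_nonneg; intro i _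
          split_ifs
          · exact hh0 _ _ _ _
          · exact le_rfl
        · exact hh0 _ _ _ _
    refine (sum_le_sum fun S _ => h2 S).trans ?_
    rw [sum_comm]
    apply sum_le_sum
    intro v _
    rw [sum_comm]
    apply sum_le_sum
    intro v' _
    simp only [mul_add, sum_add_distrib]
    apply add_le_add _ le_rfl
    have e : ∀ S : Finset ι, mu a S * (∑ k ∈ range I, ∑ i ∈ S, (if lev i = k ∧ v i ≠ v' i ∧
        |Ls u S v - Ls u S v'| < d then h k S v v' else 0)) =
        ∑ k ∈ range I, mu a S * ∑ i ∈ S, (if lev i = k ∧ v i ≠ v' i ∧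
        |Ls u S v - Ls u S v'| < d then h k S v v' else 0) := by
      intro S; rw [mul_sum]
    simp only [e]
    rw [sum_comm]
    exact sum_le_sum fun k hk => hrem k (mem_range.1 hk) v v'
  rw [div_le_iff₀ h9]
  refine hmainle.trans ?_
  simp only [sum_add_distrib]
  rw [add_mul]
  apply add_le_add
  · have e : ∑ v : ι → Fin 3, ∑ v' : ι → Fin 3, ∑ k ∈ range I, 4 * κ k * ∑ S, mu a S * h k S v v' =
        ∑ k ∈ range I, 4 * κ k * ∑ v : ι → Fin 3, ∑ v' : ι → Fin 3, ∑ S, mu a S * h k S v v' := by
      have : ∀ v : ι → Fin 3, ∑ v' : ι → Fin 3, ∑ k ∈ range I, 4 * κ k * ∑ S, mu a S * h k S v v' =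
          ∑ k ∈ range I, ∑ v' : ι → Fin 3, 4 * κ k * ∑ S, mu a S * h k S v v' := fun v => sum_comm
      simp only [this]
      rw [sum_comm]
      apply sum_congr rfl
      intro k _
      simp only [← mul_sum]
    rw [e, sum_mul]
    apply sum_le_sum
    intro k hk
    have h3 := hkS k
    rw [div_le_iff₀ h9] at h3
    have h4 := hκ0 k (mem_range.1 hk)
    calc 4 * κ k * ∑ v : ι → Fin 3, ∑ v' : ι → Fin 3, ∑ S, mu a S * h k S v v'
        ≤ 4 * κ k * ((1 / 3 : ℝ) ^ (kk k) * 9 ^ (Fintype.card ι)) :=
          mul_le_mul_of_nonneg_left h3 (by positivity)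
      _ = _ := by ring
  · have h3 := hkS I
    rwa [div_le_iff₀ h9] at h3

end

end Pool.Agent.Helper35
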