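import Pool.Agent.Helper35.Markov

set_option autoImplicit false

open Finset

namespace Pool.Agent.Helper35

lemma ra_nonneg (P : Finset ℕ) (i : P) : 0 ≤ ra P i := by unfold ra; positivity

lemma ra_le_half {P : Finset ℕ} (hP : ∀ p ∈ P, p.Prime) (i : P) : ra P i ≤ 1 / 2 := by
  unfold ra
  have h := (hP i i.2).two_le
  have h2 : (2 : ℝ) ≤ ((i : ℕ) : ℝ) := by exact_mod_cast h
  exact one_div_le_one_div_of_le (by norm_num) h2

lemma sum_ra (P : Finset ℕ) : ∑ j, ra P j = ∑ p ∈ P, 1 / (p : ℝ) := by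
  unfold ra
  exact sum_coe_sort P (fun p => 1 / (p : ℝ))

lemma sum_ra_sq (P : Finset ℕ) : ∑ j, ra P j ^ 2 = ∑ p ∈ P, 1 / (p : ℝ) ^ 2 := by
  unfold ra
  rw [← sum_coe_sort P (fun p => 1 / (p : ℝ) ^ 2)]
  apply sum_congr rfl; intro j _
  rw [div_pow, one_pow]

lemma prod_ra (P : Finset ℕ) : ∏ j, (1 - ra P j) = ∏ p ∈ P, (1 - 1 / (p : ℝ)) := by
  unfold ra
  exact prod_coe_sort P (fun p => 1 - 1 / (p : ℝ))

theorem window {P Q : Finset ℕ} {δ N B₀ β : ℝ} (hPQ : Disjoint P Q) (hδ : 0 < δ)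
    (hP : ∀ p ∈ P, p.Prime) (hQ : ∀ p ∈ Q, p.Prime)
    (hsq : ∑ p ∈ P, 1 / (p : ℝ) ^ 2 ≤ 1 / 2)
    (hH : 0 < ∑ q ∈ Q, 1 / (q : ℝ)) (hN0 : 0 ≤ N)
    (hN : ∀ (X : Finset P) (k : ℤ), ∑ j, (if cl (la P) (la Q) δ (X, j) = k then ra Q j else 0) ≤ N)
    (K' : ℕ) (hK0 : 0 < K')
    (hK : (∑ j, ra Q j) * (∏ i, (1 + ra P i / 3)) / 2 ≤
      ∑ p : Finset P × Q, (if 0 ≤ cl (la P) (la Q) δ p ∧ cl (la P) (la Q) δ p < K' then
        pw (ra P) (ra Q) p else 0))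
    {gd : Finset P → ℝ} (hg0 : ∀ S, 0 ≤ gd S) (hg1 : ∀ S, gd S ≤ 1)
    (hB : (∑ S, mu (ra P) S * (gd S * ∑ v : P → Fin 3, ∑ v' : P → Fin 3,
      (if |Ls (la P) S v - Ls (la P) S v'| < 2 * δ then (1 : ℝ) else 0))) / 9 ^ (Fintype.card P) ≤ B₀)
    (hbad : ∑ S, mu (ra P) S * (1 - gd S) ≤ β) :
    ∃ D : Finset ℕ → ℝ, (∀ S, 0 ≤ D S) ∧ EP (P ∪ Q) D ≤ 1 ∧
      1 - (4 * K' / (∑ q ∈ Q, 1 / (q : ℝ)) ^ 2 * ((∑ q ∈ Q, 1 / (q : ℝ)) * N *
          (∑ p ∈ P, 1 / (p : ℝ) ^ 2) / 3 + ∑ q ∈ Q, 1 / (q : ℝ) ^ 2) +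
        8 * K' * N * β / (∑ q ∈ Q, 1 / (q : ℝ))) ≤ EP (P ∪ Q) D ∧
      EP (P ∪ Q) (fun S => D S ^ 2) ≤
        128 * (N * K') * (B₀ * K') / ((∏ q ∈ Q, (1 - 1 / (q : ℝ))) * (∑ q ∈ Q, 1 / (q : ℝ)) ^ 3) ∧
      ∀ η₂ : ℝ, 3 * (4 * K' / (∑ q ∈ Q, 1 / (q : ℝ)) ^ 2 *
        ((∑ q ∈ Q, 1 / (q : ℝ)) * N * (∑ p ∈ P, 1 / (p : ℝ) ^ 2) / 3 + ∑ q ∈ Q, 1 / (q : ℝ) ^ 2)) ≤ η₂ →
        ∀ f : Finset ℕ → ℝ, (∀ S, 0 ≤ f S) → (∀ S, f S ≤ 1) →
        η₂ < EP (P ∪ Q) (fun S => f S * D S) →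
        ∃ S : ZMod 3 → Finset ℕ, Cube (P ∪ Q) δ S ∧
          EP (P ∪ Q) (fun S => f S * D S) - η₂ ≤ (∑ a, f (S a)) / 3 := by
  obtain ⟨D, hD0, hD1, hD2, hD3, hD4⟩ := core (a := ra P) (u := la P) (b := ra Q) (t := la Q)
    hδ (ra_nonneg P) (ra_le_half hP) (by rw [sum_ra_sq]; exact hsq) (ra_nonneg Q) (ra_le_half hQ)
    (by rw [sum_ra]; exact hH) hN0 hN K' hK0 hK hg0 hg1 hB hbad
  rw [sum_ra, sum_ra_sq, sum_ra_sq] at hD2
  rw [sum_ra, prod_ra] at hD3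
  simp only [sum_ra, sum_ra_sq] at hD4
  set D' : Finset ℕ → ℝ := fun S => D (S.subtype (· ∈ P)) (S.subtype (· ∈ Q)) with hD'
  have hDe : ∀ S T, D' (em P S ∪ em Q T) = D S T := by
    intro S T
    rw [hD']
    simp only
    rw [(subtype_em_union hPQ S T).1, (subtype_em_union hPQ S T).2]
  refine ⟨D', fun S => hD0 _ _, ?_, ?_, ?_, ?_⟩
  · rw [EP_union_EE hPQ]
    simp only [hDe]
    exact hD1
  · rw [EP_union_EE hPQ]
    simp only [hDe]
    exact hD2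
  · rw [EP_union_EE hPQ]
    simp only [hDe]
    exact hD3
  · intro η₂ hη₂ f hf0 hf1 hlt
    rw [EP_union_EE hPQ] at hlt ⊢
    simp only [hDe] at hlt ⊢
    obtain ⟨R, p, q, r, v1, v2, v3, c1, c2, hle⟩ := hD4 η₂ hη₂ (fun S T => f (em P S ∪ em Q T))
      (fun S T => hf0 _) (fun S T => hf1 _) hlt
    set A := em P (R ∪ p.1 ∪ q.1) ∪ em Q {p.2, q.2} with hA
    set B := em P (R ∪ p.1 ∪ r.1) ∪ em Q {p.2, r.2} with hB'
    set C := em P (R ∪ q.1 ∪ r.1) ∪ em Q {q.2, r.2} with hC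
    have hsub : ∀ (S : Finset P) (T : Finset Q), em P S ∪ em Q T ⊆ P ∪ Q := fun S T =>
      union_subset_union (em_sub P S) (em_sub Q T)
    have hpairu : ∀ (S S' : Finset P) (T T' : Finset Q),
        (em P S ∪ em Q T) ∪ (em P S' ∪ em Q T') = em P (S ∪ S') ∪ em Q (T ∪ T') := by
      intro S S' T T'
      rw [em_union, em_union]
      ext x; simp only [mem_union]; tauto
    have e1 : A ∪ B = A ∪ C := by
      rw [hA, hB', hC, hpairu, hpairu]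
      congr 1
      · congr 1
        ext x; simp only [mem_union]; tauto
      · congr 1
        ext x; simp only [mem_union, mem_insert, mem_singleton]; tauto
    have e2 : A ∪ B = B ∪ C := by
      rw [hA, hB', hC, hpairu, hpairu]
      congr 1
      · congr 1
        ext x; simp only [mem_union]; tauto
      · congr 1
        ext x; simp only [mem_union, mem_insert, mem_singleton]; tauto
    have hmem : ∀ (S : Finset P) (T : Finset Q) (j : Q), ((j : ℕ) ∈ em P S ∪ em Q T) ↔ j ∈ T := by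
      intro S T j
      rw [mem_union, mem_em, mem_em]
      constructor
      · rintro (⟨h1, _⟩ | ⟨_, h2⟩)
        · exact absurd j.2 (disjoint_left.1 hPQ h1)
        · exact h2
      · intro h; exact Or.inr ⟨j.2, h⟩
    have d1 := v1.2.2.2
    have d2 := v2.2.2.2
    have d3 := v3.2.2.2
    have hAB : A ≠ B := by
      intro h
      have h1 : ((q.2 : Q) : ℕ) ∈ A := by rw [hA, hmem]; simp
      rw [h, hB', hmem] at h1
      simp only [mem_insert, mem_singleton] at h1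
      rcases h1 with h1 | h1
      · exact d1 h1.symm
      · exact d3 h1
    have hAC : A ≠ C := by
      intro h
      have h1 : ((p.2 : Q) : ℕ) ∈ A := by rw [hA, hmem]; simp
      rw [h, hC, hmem] at h1
      simp only [mem_insert, mem_singleton] at h1
      rcases h1 with h1 | h1
      · exact d1 h1
      · exact d2 h1
    have hBC : B ≠ C := by
      intro h
      have h1 : ((p.2 : Q) : ℕ) ∈ B := by rw [hB', hmem]; simp
      rw [h, hC, hmem] at h1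
      simp only [mem_insert, mem_singleton] at h1
      rcases h1 with h1 | h1
      · exact d1 h1
      · exact d2 h1
    have hlg : ∀ (x y : Finset P × Q), vl R x y → lg (em P (R ∪ x.1 ∪ y.1) ∪ em Q {x.2, y.2}) =
        (∑ i ∈ R, la P i) + ((∑ i ∈ x.1, la P i) + la Q x.2) + ((∑ i ∈ y.1, la P i) + la Q y.2) := by
      intro x y hxy
      have hd : Disjoint (em P (R ∪ x.1 ∪ y.1)) (em Q {x.2, y.2}) :=
        disjoint_of_subset_left (em_sub _ _) (disjoint_of_subset_right (em_sub _ _) hPQ)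
      rw [lg_union hd, lg_em, lg_em, sum_union, sum_union hxy.1, sum_pair hxy.2.2.2]
      · ring
      · rw [disjoint_union_left]; exact ⟨hxy.2.1, hxy.2.2.1⟩
    have hcl : ∀ x y : Finset P × Q, cl (la P) (la Q) δ x = cl (la P) (la Q) δ y →
        |((∑ i ∈ x.1, la P i) + la Q x.2) - ((∑ i ∈ y.1, la P i) + la Q y.2)| ≤ δ := by
      intro x y hxy
      unfold cl at hxy
      have := Int.abs_sub_lt_one_of_floor_eq_floor hxy
      rw [← sub_div, abs_div, abs_of_pos hδ, div_lt_one hδ] at this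
      exact this.le
    refine ⟨fun c : ZMod 3 => (![A, B, C] : Fin 3 → Finset ℕ) c,
      cube_of_triple (hsub _ _) (hsub _ _) (hsub _ _) e1 e2 hAB hAC hBC hδ.le ?_ ?_ ?_, ?_⟩
    · rw [hA, hB', hlg p q v1, hlg p r v2]
      have := hcl q r (c1.symm.trans c2)
      rwa [show ∑ i ∈ R, la P i + (∑ i ∈ p.1, la P i + la Q p.2) + (∑ i ∈ q.1, la P i + la Q q.2) -
        (∑ i ∈ R, la P i + (∑ i ∈ p.1, la P i + la Q p.2) + (∑ i ∈ r.1, la P i + la Q r.2)) =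
        ((∑ i ∈ q.1, la P i) + la Q q.2) - ((∑ i ∈ r.1, la P i) + la Q r.2) by ring]
    · rw [hA, hC, hlg p q v1, hlg q r v3]
      have := hcl p r c2
      rwa [show ∑ i ∈ R, la P i + (∑ i ∈ p.1, la P i + la Q p.2) + (∑ i ∈ q.1, la P i + la Q q.2) -
        (∑ i ∈ R, la P i + (∑ i ∈ q.1, la P i + la Q q.2) + (∑ i ∈ r.1, la P i + la Q r.2)) =
        ((∑ i ∈ p.1, la P i) + la Q p.2) - ((∑ i ∈ r.1, la P i) + la Q r.2) by ring]
    · rw [hB', hC, hlg p r v2, hlg q r v3]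
      have := hcl p q c1
      rwa [show ∑ i ∈ R, la P i + (∑ i ∈ p.1, la P i + la Q p.2) + (∑ i ∈ r.1, la P i + la Q r.2) -
        (∑ i ∈ R, la P i + (∑ i ∈ q.1, la P i + la Q q.2) + (∑ i ∈ r.1, la P i + la Q r.2)) =
        ((∑ i ∈ p.1, la P i) + la Q p.2) - ((∑ i ∈ q.1, la P i) + la Q q.2) by ring]
    · refine hle.trans (le_of_eq ?_)
      congr 1
      symm
      exact Fin.sum_univ_three (fun c : Fin 3 => f ((![A, B, C] : Fin 3 → Finset ℕ) c))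

end Pool.Agent.Helper35
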